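import Pool.Agent.Y560.BE.Erg

/-!
The fair coin Bernoulli shift of `ℤ^d` and its free part.
-/

set_option autoImplicit false

namespace Pool.Agent.Q304.BS

open MeasureTheory Set Filter
open Pool.Agent.Y560.BE (cm mp_cm erg_cm move_off)

noncomputable section

/-- the shift -/
def shift {A : Type} {d : ℕ} (g : Fin d → ℤ) (x : (Fin d → ℤ) → A) : (Fin d → ℤ) → A :=
  fun h => x (h + g)

/-- the free part of the shift with two symbols -/
def F (d : ℕ) : Set ((Fin d → ℤ) → Bool) := {x | ∀ g : Fin d → ℤ, g ≠ 0 → shift g x ≠ x}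

variable {d : ℕ}

theorem shift_zero {A : Type} (x : (Fin d → ℤ) → A) : shift 0 x = x := by
  funext h; simp [shift]

theorem shift_add {A : Type} (g h : Fin d → ℤ) (x : (Fin d → ℤ) → A) :
    shift (g + h) x = shift g (shift h x) := by
  funext k; simp only [shift]; congr 1; abel

theorem shift_mem {x : (Fin d → ℤ) → Bool} (hx : x ∈ F d) (g : Fin d → ℤ) : shift g x ∈ F d := by
  intro k hk h
  apply hx k hk
  have h1 : shift (-g) (shift k (shift g x)) = shift (-g) (shift g x) := by rw [h]
  rw [← shift_add, ← shift_add, ← shift_add, neg_add_cancel, shift_zero] at h1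
  rwa [show -g + k + g = k by abel] at h1

/-- the action on the free part -/
def act (g : Fin d → ℤ) (x : F d) : F d := ⟨shift g x.1, shift_mem x.2 g⟩

theorem act_zero (x : F d) : act 0 x = x := Subtype.ext (shift_zero _)

theorem act_add (g h : Fin d → ℤ) (x : F d) : act (g + h) x = act g (act h x) :=
  Subtype.ext (shift_add _ _ _)

theorem act_free (g : Fin d → ℤ) (x : F d) (h : act g x = x) : g = 0 := by
  by_contra hg
  exact x.2 g hg (congrArg Subtype.val h)

theorem continuous_shift {A : Type} [TopologicalSpace A] (g : Fin d → ℤ) :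
    Continuous (shift (A := A) g) :=
  continuous_pi fun h => continuous_apply (h + g)

theorem continuous_act (g : Fin d → ℤ) : Continuous (act g) :=
  Continuous.subtype_mk ((continuous_shift g).comp continuous_subtype_val) _

theorem polish_of_Gdelta {Y : Type} [TopologicalSpace Y] [PolishSpace Y] {s : Set Y}
    (hs : IsGδ s) : PolishSpace s := by
  obtain ⟨U, hU, rfl⟩ := hs.eq_iInter_nat
  have : ∀ n, PolishSpace (U n) := fun n => (hU n).polishSpace
  let f : (⋂ n, U n : Set Y) → ∀ n, U n := fun x n => ⟨x, Set.mem_iInter.1 x.2 n⟩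
  have hfc : Continuous f := continuous_pi (fun n => Continuous.subtype_mk continuous_subtype_val _)
  have hg : Continuous (fun p : ∀ n, U n => (p 0 : Y)) :=
    continuous_subtype_val.comp (continuous_apply 0)
  have hind : Topology.IsInducing f := by
    apply Topology.IsInducing.of_comp hfc hg
    exact Topology.IsInducing.subtypeVal
  have hinj : Function.Injective f := by
    intro x y hxy
    have h1 := congrFun hxy 0
    have h2 : ((f x 0 : U 0) : Y) = ((f y 0 : U 0) : Y) := congrArg (fun z : U 0 => (z : Y)) h1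
    exact Subtype.ext h2
  have hrange : Set.range f = ⋂ n, {p : ∀ n, U n | (p n : Y) = (p 0 : Y)} := by
    ext p
    simp only [Set.mem_range, Set.mem_iInter]
    constructor
    · rintro ⟨x, rfl⟩ n
      rfl
    · intro h
      refine ⟨⟨p 0, Set.mem_iInter.2 (fun n => ?_)⟩, ?_⟩
      · have h2 : (p n : Y) = (p 0 : Y) := h n
        rw [← h2]
        exact (p n).2
      · funext n
        have h2 : (p n : Y) = (p 0 : Y) := h n
        exact Subtype.ext h2.symm
  have hcl : IsClosed (Set.range f) := by
    rw [hrange]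
    apply isClosed_iInter
    intro n
    exact isClosed_eq (continuous_subtype_val.comp (continuous_apply n)) hg
  exact Topology.IsClosedEmbedding.polishSpace (f := f) ⟨⟨hind, hinj⟩, hcl⟩

theorem isGδ_F (d : ℕ) : IsGδ (F d) := by
  have : F d = ⋂ g : {g : Fin d → ℤ // g ≠ 0}, {x | shift g.1 x ≠ x} := by
    ext x
    simp only [mem_iInter]
    exact ⟨fun h g => h g.1 g.2, fun h g hg => h ⟨g, hg⟩⟩
  rw [this]
  refine IsGδ.iInter_of_isOpen fun g => ?_
  exact isOpen_ne_fun (continuous_shift g.1) continuous_id

theorem polishBool (d : ℕ) : PolishSpace ((Fin d → ℤ) → Bool) := {}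

instance : PolishSpace (F d) :=
  have := polishBool d
  polish_of_Gdelta (isGδ_F d)

/-- the fair coin -/
def coin : Measure Bool := (2⁻¹ : ENNReal) • (Measure.dirac true + Measure.dirac false)

instance : IsProbabilityMeasure coin := ⟨by
  unfold coin
  simp only [Measure.smul_apply, Measure.add_apply, measure_univ, smul_eq_mul]
  rw [one_add_one_eq_two]
  exact ENNReal.inv_mul_cancel (by norm_num) (by norm_num)⟩

theorem coin_singleton (b : Bool) : coin {b} = 2⁻¹ := by
  unfold coin
  cases b <;> simp

/-- the Bernoulli measure -/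
def bern (d : ℕ) : Measure ((Fin d → ℤ) → Bool) := Measure.infinitePi fun _ => coin

instance : IsProbabilityMeasure (bern d) := by
  unfold bern
  infer_instance

theorem shift_eq (g : Fin d → ℤ) : (shift (A := Bool) g) = cm (Equiv.addRight g) := rfl

theorem mp_shift (g : Fin d → ℤ) : MeasurePreserving (shift g) (bern d) (bern d) :=
  mp_cm coin (Equiv.addRight g)

theorem nsmul_ne {g : Fin d → ℤ} (hg : g ≠ 0) (n : ℕ) : (n + 1) • g ≠ 0 := by
  intro h
  apply hg
  funext i
  have h1 := congrFun h i
  simp only [Pi.smul_apply, nsmul_eq_mul, Pi.zero_apply, mul_eq_zero] at h1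
  rcases h1 with h1 | h1
  · exact absurd h1 (by positivity)
  · exact h1

theorem iter_addRight (g i : Fin d → ℤ) (n : ℕ) : (Equiv.addRight g)^[n] i = i + n • g := by
  induction n with
  | zero => simp
  | succ n ih =>
    rw [Function.iterate_succ_apply', ih]
    show i + n • g + g = _
    rw [succ_nsmul, add_assoc]

theorem erg_shift {g : Fin d → ℤ} (hg : g ≠ 0) : Ergodic (shift g) (bern d) := by
  classical
  refine erg_cm coin (Equiv.addRight g) (move_off _ fun i n h => ?_)
  rw [iter_addRight] at h
  exact nsmul_ne hg n (by simpa using h)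

theorem null_fix {g : Fin d → ℤ} (hg : g ≠ 0) : bern d {x | shift g x = x} = 0 := by
  classical
  have hinj : Function.Injective fun n : ℕ => n • g := by
    intro m n h
    by_contra hne
    rcases lt_or_gt_of_ne hne with h1 | h1
    · obtain ⟨k, rfl⟩ := Nat.exists_eq_add_of_lt h1
      have h2 : (k + 1) • g = 0 := by
        have h3 : m • g = (m + k + 1) • g := h
        rw [add_assoc, add_nsmul] at h3
        exact (left_eq_add.1 h3)
      exact nsmul_ne hg k h2
    · obtain ⟨k, rfl⟩ := Nat.exists_eq_add_of_lt h1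
      have h2 : (k + 1) • g = 0 := by
        have h3 : n • g = (n + k + 1) • g := h.symm
        rw [add_assoc, add_nsmul] at h3
        exact (left_eq_add.1 h3)
      exact nsmul_ne hg k h2
  have hx : ∀ x ∈ {x : (Fin d → ℤ) → Bool | shift g x = x}, ∀ n : ℕ, x (n • g) = x 0 := by
    intro x hx n
    induction n with
    | zero => simp
    | succ n ih =>
      rw [← ih]
      have := congrFun (show shift g x = x from hx) (n • g)
      simp only [shift] at this
      rw [succ_nsmul]
      exact this
  have hle : ∀ n : ℕ, bern d {x | shift g x = x} ≤ 2 * (2⁻¹ : ENNReal) ^ n := by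
    intro n
    let s : Finset (Fin d → ℤ) := (Finset.range n).image fun n => n • g
    have hs : s.card = n := by
      rw [Finset.card_image_of_injective _ hinj, Finset.card_range]
    have hb : ∀ b : Bool, bern d (Set.pi s fun _ => {b}) = (2⁻¹ : ENNReal) ^ n := by
      intro b
      unfold bern
      rw [Measure.infinitePi_pi _ (fun i _ => measurableSet_singleton b)]
      simp only [coin_singleton, Finset.prod_const, hs]
    have hsub : {x : (Fin d → ℤ) → Bool | shift g x = x} ⊆
        (Set.pi s fun _ => {true}) ∪ (Set.pi s fun _ => {false}) := by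
      intro x hxm
      have h1 := hx x hxm
      rcases hb0 : x 0 with _ | _
      · right
        intro i hi
        obtain ⟨m, -, rfl⟩ := Finset.mem_image.1 (Finset.mem_coe.1 hi)
        exact (h1 m).trans hb0
      · left
        intro i hi
        obtain ⟨m, -, rfl⟩ := Finset.mem_image.1 (Finset.mem_coe.1 hi)
        exact (h1 m).trans hb0
    calc bern d {x | shift g x = x} ≤ _ := measure_mono hsub
      _ ≤ bern d (Set.pi s fun _ => {true}) + bern d (Set.pi s fun _ => {false}) :=
        measure_union_le _ _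
      _ = 2 * (2⁻¹ : ENNReal) ^ n := by rw [hb, hb, two_mul]
  have hlim : Tendsto (fun n : ℕ => 2 * (2⁻¹ : ENNReal) ^ n) atTop (nhds 0) := by
    have h1 : Tendsto (fun n : ℕ => (2⁻¹ : ENNReal) ^ n) atTop (nhds 0) :=
      ENNReal.tendsto_pow_atTop_nhds_zero_of_lt_one (by norm_num)
    have h2 := ENNReal.Tendsto.const_mul h1 (Or.inr (show (2 : ENNReal) ≠ ⊤ by norm_num))
    simpa using h2
  exact le_antisymm (ge_of_tendsto' hlim hle) bot_le

theorem meas_F (d : ℕ) : MeasurableSet (F d) := (isGδ_F d).measurableSet

theorem null_F (d : ℕ) : bern d (F d)ᶜ = 0 := by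
  have : (F d)ᶜ ⊆ ⋃ g : {g : Fin d → ℤ // g ≠ 0}, {x | shift g.1 x = x} := by
    intro x hx
    simp only [F, Set.mem_compl_iff, Set.mem_ofPred_eq, not_forall, not_not] at hx
    obtain ⟨g, hg, h⟩ := hx
    exact Set.mem_iUnion.2 ⟨⟨g, hg⟩, h⟩
  exact measure_mono_null this (measure_iUnion_null fun g => null_fix g.2)

/-- the Bernoulli measure on the free part -/
def bernF (d : ℕ) : Measure (F d) := (bern d).comap Subtype.val

theorem bernF_apply (s : Set (F d)) : bernF d s = bern d (Subtype.val '' s) :=
  (MeasurableEmbedding.subtype_coe (meas_F d)).comap_apply _ _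

instance : IsProbabilityMeasure (bernF d) := ⟨by
  rw [bernF_apply, Set.image_univ, Subtype.range_coe]
  exact (prob_compl_eq_zero_iff (meas_F d)).1 (null_F d)⟩

theorem meas_act (g : Fin d → ℤ) : Measurable (act g) := (continuous_act g).measurable

theorem image_preimage_act (g : Fin d → ℤ) (s : Set (F d)) :
    Subtype.val '' (act g ⁻¹' s) = shift g ⁻¹' (Subtype.val '' s) := by
  ext ω
  constructor
  · rintro ⟨y, hy, rfl⟩
    exact ⟨act g y, hy, rfl⟩
  · rintro ⟨y, hy, hyω⟩
    have h2 : ω ∈ F d := by
      have h3 : shift (-g) (shift g ω) ∈ F d := shift_mem (hyω ▸ y.2) _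
      rwa [← shift_add, neg_add_cancel, shift_zero] at h3
    refine ⟨⟨ω, h2⟩, ?_, rfl⟩
    have h3 : act g ⟨ω, h2⟩ = y := Subtype.ext hyω.symm
    show act g ⟨ω, h2⟩ ∈ s
    rw [h3]
    exact hy

theorem mp_act (g : Fin d → ℤ) : MeasurePreserving (act g) (bernF d) (bernF d) := by
  refine ⟨meas_act g, ?_⟩
  ext s hs
  rw [Measure.map_apply (meas_act g) hs, bernF_apply, bernF_apply, image_preimage_act,
    (mp_shift g).measure_preimage
      ((MeasurableEmbedding.subtype_coe (meas_F d)).measurableSet_image.2 hs).nullMeasurableSet]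

theorem erg_act {g : Fin d → ℤ} (hg : g ≠ 0) : Ergodic (act g) (bernF d) := by
  refine ⟨mp_act g, ⟨fun s hs hinv => ?_⟩⟩
  have h1 : MeasurableSet (Subtype.val '' s) :=
    (MeasurableEmbedding.subtype_coe (meas_F d)).measurableSet_image.2 hs
  have h2 : shift g ⁻¹' (Subtype.val '' s) = Subtype.val '' s := by
    rw [← image_preimage_act, hinv]
  have h3 := (erg_shift hg).aeconst_set h1 h2
  rw [Filter.eventuallyConst_set'] at h3 ⊢
  rcases h3 with h3 | h3
  · left
    rw [ae_eq_empty] at h3 ⊢
    rw [bernF_apply]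
    exact h3
  · right
    rw [ae_eq_univ] at h3 ⊢
    rw [bernF_apply]
    refine measure_mono_null ?_ h3
    rintro _ ⟨y, hy, rfl⟩ ⟨z, hz, hzy⟩
    exact hy (Subtype.ext hzy ▸ hz)

end

end Pool.Agent.Q304.BS
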