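import Mathlib
import Pool.Agent.H579R3.Epi2

set_option autoImplicit false

open Set

namespace Pool.Agent.Q304.Elem

open Pool.Agent.H579R3.Epi (K TLe IsAuto Lam Lam_inl Lam_inr Lam_nil Valid Good Enc ent cd br
  br_length br_enc br_valid br_lam evalAt last last_congr ent_cd cd_nonneg)

abbrev N : Type := ℕ → ℕ

/-! ## The reduced structure -/

/-- the universe of the reduced structure: nodes of the tree, coloured and uncoloured label points -/
inductive D : Type
  | nd (p : List ℤ) : D
  | pt (p : List ℤ) (κ : K) (c : Option ℕ) : D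

export D (nd pt)

def D.code : D → List ℤ × Option (K × Option ℕ)
  | .nd p => (p, none)
  | .pt p κ c => (p, some (κ, c))

lemma D.code_injective : Function.Injective D.code := by
  intro a b h
  cases a <;> cases b <;> simp_all [D.code]

instance : Countable D := D.code_injective.countable

lemma nd_inj {p q : List ℤ} (h : nd p = nd q) : p = q := by simpa using h

lemma pt_inj {p q : List ℤ} {κ κ' : K} {c c' : Option ℕ} (h : pt p κ c = pt q κ' c') :
    p = q ∧ κ = κ' ∧ c = c' := by simpa using h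

lemma nd_ne_pt {p q : List ℤ} {κ : K} {c : Option ℕ} : nd p ≠ pt q κ c := by simp

/-- the relation symbols -/
inductive I : Type
  | root : I
  | par : I
  | at' (κ : K) : I
  | col (n : ℕ) : I

def I.code : I → Option (Option (K ⊕ ℕ))
  | .root => none
  | .par => some none
  | .at' κ => some (some (Sum.inl κ))
  | .col n => some (some (Sum.inr n))

lemma I.code_injective : Function.Injective I.code := by
  intro a b h
  cases a <;> cases b <;> simp_all [I.code]

instance : Countable I := I.code_injective.countable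

instance : Nonempty I := ⟨I.root⟩

/-- the relations of the reduced structure -/
def rel : I → D → D → Prop
  | .root, a, _ => a = nd []
  | .par, a, b => ∃ p k, a = nd p ∧ b = nd (k :: p)
  | .at' κ, a, b => ∃ p c, a = nd p ∧ b = pt p κ c
  | .col n, a, _ => ∃ p κ, a = pt p κ (some n)

/-- maps of the tree -/
structure IsMap (g : List ℤ → List ℤ) : Prop where
  nil : g [] = []
  cons : ∀ k p, ∃ k', g (k :: p) = k' :: g p

/-- the infinite fibres -/
def Big (Λ : List ℤ → Set K) : D → Prop
  | .nd _ => False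
  | .pt p κ c => c = none → κ ∈ Λ p

/-- the fibres of `π` are as prescribed by the labelling `Λ` -/
structure Fib (Λ : List ℤ → Set K) (π : ℕ → D) : Prop where
  node : ∀ p, ∃! n, π n = nd p
  big : ∀ p κ c, Big Λ (pt p κ c) → {n | π n = pt p κ c}.Infinite
  empty : ∀ p κ c, ¬ Big Λ (pt p κ c) → ∀ n, π n ≠ pt p κ c

section G1

variable {Λ Λ' : List ℤ → Set K} {π π' : ℕ → D} {h : ℕ → ℕ}

lemma Fib.uniq (hF : Fib Λ π) {n m : ℕ} {p : List ℤ} (hn : π n = nd p) (hm : π m = nd p) :
    n = m := (hF.node p).unique hn hm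

lemma exists_g (hF : Fib Λ π) (hh : ∀ i a b, rel i (π a) (π b) ↔ rel i (π' (h a)) (π' (h b))) :
    ∃ g : List ℤ → List ℤ, IsMap g ∧ (∀ n p, π n = nd p → π' (h n) = nd (g p)) ∧
      (∀ n p κ c, π n = pt p κ c → π' (h n) = pt (g p) κ c) := by
  have h1 : ∀ p, ∃ p', ∀ n, π n = nd p → π' (h n) = nd p' := by
    intro p
    obtain ⟨n, hn, -⟩ := hF.node p
    obtain ⟨m, hm, -⟩ := hF.node (0 :: p)
    have h2 : rel .par (π n) (π m) := ⟨p, 0, hn, hm⟩
    rw [hh] at h2
    obtain ⟨p', k, h3, h4⟩ := h2
    exact ⟨p', fun m hm => by rw [hF.uniq hm hn]; exact h3⟩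
  choose g hg using h1
  have hcons : ∀ k p, ∃ k', g (k :: p) = k' :: g p := by
    intro k p
    obtain ⟨n, hn, -⟩ := hF.node p
    obtain ⟨m, hm, -⟩ := hF.node (k :: p)
    have h2 : rel .par (π n) (π m) := ⟨p, k, hn, hm⟩
    rw [hh] at h2
    obtain ⟨p', k', h3, h4⟩ := h2
    rw [hg p n hn] at h3
    rw [hg _ m hm] at h4
    rw [nd_inj h4, nd_inj h3]
    exact ⟨k', rfl⟩
  have hnil : g [] = [] := by
    obtain ⟨n, hn, -⟩ := hF.node []
    have h2 : rel .root (π n) (π n) := hn
    rw [hh] at h2
    have h3 : π' (h n) = nd [] := h2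
    rw [hg [] n hn] at h3
    exact nd_inj h3
  refine ⟨g, ⟨hnil, hcons⟩, fun n p hn => hg p n hn, ?_⟩
  intro n p κ c hn
  obtain ⟨m, hm, -⟩ := hF.node p
  have h2 : rel (.at' κ) (π m) (π n) := ⟨p, c, hm, hn⟩
  rw [hh] at h2
  obtain ⟨p', c', h3, h4⟩ := h2
  rw [hg p m hm] at h3
  have h5 : p' = g p := (nd_inj h3).symm
  subst h5
  rw [h4]
  have h6 : c' = c := by
    rcases c with _ | c
    · rcases c' with _ | c'
      · rfl
      · exfalso
        have h7 : rel (.col c') (π' (h n)) (π' (h n)) := ⟨_, _, h4⟩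
        rw [← hh] at h7
        obtain ⟨q, κ', h8⟩ := h7
        rw [hn] at h8
        have := (pt_inj h8).2.2
        simp at this
    · have h7 : rel (.col c) (π n) (π n) := ⟨_, _, hn⟩
      rw [hh] at h7
      obtain ⟨q, κ', h8⟩ := h7
      rw [h4] at h8
      exact (pt_inj h8).2.2
  rw [h6]

lemma mem_of_fib (hF : Fib Λ π) {n : ℕ} {p : List ℤ} {κ : K} (hn : π n = pt p κ none) :
    κ ∈ Λ p := by
  by_contra hκ
  exact hF.empty p κ none (fun h => hκ (h rfl)) n hn

lemma exists_of_mem (hF : Fib Λ π) {p : List ℤ} {κ : K} (hκ : κ ∈ Λ p) :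
    ∃ n, π n = pt p κ none :=
  (hF.big p κ none fun _ => hκ).nonempty

/-- embeddings of the coding structures induce maps of the labelled trees -/
theorem map_of_emb (hF : Fib Λ π) (hF' : Fib Λ' π')
    (hh : ∀ i a b, rel i (π a) (π b) ↔ rel i (π' (h a)) (π' (h b))) :
    ∃ g : List ℤ → List ℤ, IsMap g ∧ ∀ p, Λ p ⊆ Λ' (g p) := by
  obtain ⟨g, hg, h1, h2⟩ := exists_g hF hh
  refine ⟨g, hg, fun p κ hκ => ?_⟩
  obtain ⟨n, hn⟩ := exists_of_mem hF hκ
  exact mem_of_fib hF' (h2 n p κ none hn)

theorem map_of_eq (hF : Fib Λ π) (hF' : Fib Λ' π')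
    (hh : ∀ i a b, rel i (π a) (π b) ↔ rel i (π' a) (π' b)) :
    ∃ g : List ℤ → List ℤ, IsMap g ∧ (∀ p, Λ p = Λ' (g p)) ∧
      (∀ n p, π n = nd p → π' n = nd (g p)) ∧
      (∀ n p κ c, π n = pt p κ c → π' n = pt (g p) κ c) := by
  obtain ⟨g, hg, h1, h2⟩ := exists_g (h := id) hF hh
  refine ⟨g, hg, fun p => ?_, h1, h2⟩
  ext κ
  constructor
  · intro hκ
    obtain ⟨n, hn⟩ := exists_of_mem hF hκ
    exact mem_of_fib hF' (h2 n p κ none hn)
  · intro hκ
    obtain ⟨n, hn⟩ := exists_of_mem hF' hκ
    obtain ⟨m, hm, -⟩ := hF.node p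
    have h3 : rel (.at' κ) (π' m) (π' n) := ⟨g p, none, h1 m p hm, hn⟩
    rw [← hh] at h3
    obtain ⟨q, c, h4, h5⟩ := h3
    have h6 := h2 n q κ c h5
    simp only [id] at h6
    rw [hn] at h6
    have hc := (pt_inj h6).2.2
    rw [hm] at h4
    rw [← nd_inj h4, ← hc] at h5
    exact mem_of_fib hF h5

end G1

/-! ## The trees of points -/

section Trees

variable {α β : N → N}

theorem rigid {x y : N} {g : List ℤ → List ℤ} (hg : IsMap g)
    (h : ∀ p, Lam α β x p = Lam α β y (g p)) : (∀ p, g p = p) ∧ x = y := by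
  have h1 : ∀ p, g p = p := by
    intro p
    induction p with
    | nil => exact hg.nil
    | cons k p ih =>
      obtain ⟨k', hk'⟩ := hg.cons k p
      rw [ih] at hk'
      have h2 : ∀ j : ℤ, j ≤ k ↔ j ≤ k' := by
        intro j
        rw [← Lam_inl α β x k p, h, hk', Lam_inl]
      have : k = k' := le_antisymm ((h2 k).1 le_rfl) ((h2 k').2 le_rfl)
      rw [hk', ← this]
  refine ⟨h1, ?_⟩
  funext n
  have h2 := br_lam (α := α) (β := β) x n
  rw [h, h1] at h2
  change _ ∈ Lam α β y (cd (x n, []) 0 :: br x n) at h2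
  rw [Lam_inr] at h2
  obtain ⟨⟨a, l, -, h4, h5⟩, -⟩ := h2
  have h6 := h4.1.2
  rw [ent_cd, br_length] at h6
  simp only [evalAt, Prod.mk.injEq] at h6
  have h7 : l = [] := List.map_eq_nil_iff.1 h6.2.symm
  subst h7
  have h8 := h5 n (by simp [br_length])
  simp only [last] at h8
  rw [h6.1, h8]

/-- the relation with witnesses `w`, where `α w` is related to `β w` -/
theorem rel_of_tree {x y : N} (hα : Continuous α) (hβ : Continuous β)
    (htrans : ∀ u v t w w', α w = u → β w = v → α w' = v → β w' = t →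
      ∃ w'', α w'' = u ∧ β w'' = t)
    (h : ∃ g : List ℤ → List ℤ, IsMap g ∧ ∀ p, Lam α β x p ⊆ Lam α β y (g p)) :
    x = y ∨ ∃ w, α w = x ∧ β w = y := by
  obtain ⟨g, hg, hL⟩ := h
  let q : ℕ → List ℤ := fun n => g (br x n)
  have hex : ∀ n, ∃ k, q (n + 1) = k :: q n := fun n => hg.cons _ _
  choose k hk using hex
  have hl : ∀ n, (q n).length = n := by
    intro n
    induction n with
    | zero =>
      change (g []).length = 0
      rw [hg.nil]
      rfl
    | succ n ih => rw [hk, List.length_cons, ih]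
  have hmem : ∀ n, Valid α β y (q (n + 1)) ∧ x n = (ent (k n)).1 := by
    intro n
    have h1 := hL _ (br_lam (α := α) (β := β) x n)
    change _ ∈ Lam α β y (q (n + 1)) at h1
    rw [hk, Lam_inr] at h1
    rw [hk]
    exact h1
  -- the limit chain
  set m := (ent (k 0)).2.length with hm
  let L : List (N × N) := List.ofFn fun j : Fin m =>
    ((fun i => ((ent (k i)).2.getD j (0, 0)).1), (fun i => ((ent (k i)).2.getD j (0, 0)).2))
  have hlen : ∀ n, (ent (k n)).2.length = m := by
    intro n
    obtain ⟨⟨a, l, -, h2, -⟩, -⟩ := hmem n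
    have h3 := Enc.get hk hl h2 n (by omega)
    have h4 := Enc.get hk hl h2 0 (by omega)
    rw [hm, h3, h4]
    simp [evalAt]
  have hev : ∀ n, evalAt x L n = ent (k n) := by
    intro n
    have h1 : (L.map fun q => (q.1 n, q.2 n)) = (ent (k n)).2 := by
      apply List.ext_getElem
      · simp [L, hlen]
      · intro j h2 h3
        simp [L, List.getElem?_eq_getElem h3]
    rw [evalAt, h1, (hmem n).2]
  have hgood : ∀ n, Good α β n x L ∧ ∀ i < n, last x L i = y i := by
    intro n
    rcases n with _ | n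
    · obtain ⟨⟨a, l, h1, h2, -⟩, -⟩ := hmem 0
      refine ⟨?_, fun i hi => by omega⟩
      have h3 := Enc.get hk hl h2 0 (by omega)
      have h4 := hev 0
      rw [h3] at h4
      have h5 : l.length = L.length := by
        have := congrArg (fun e => e.2.length) h4
        simp only [evalAt, List.length_map] at this
        exact this.symm
      exact (h1.mono (Nat.zero_le _)).congr h5 (fun i hi => by omega)
    · obtain ⟨⟨a, l, h1, h2, h2'⟩, -⟩ := hmem n
      have h3 := Enc.get hk hl h2
      rw [hl] at h1 h2'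
      have h5 : l.length = L.length := by
        have h4 := hev 0
        rw [h3 0 (by omega)] at h4
        have := congrArg (fun e => e.2.length) h4
        simp only [evalAt, List.length_map] at this
        exact this.symm
      have h6 : ∀ i < n + 1, evalAt a l i = evalAt x L i := by
        intro i hi
        rw [hev, h3 i hi]
      refine ⟨h1.congr h5 h6, fun i hi => ?_⟩
      rw [← last_congr (h6 i hi)]
      exact h2' i hi
  have hlast : last x L = y := by
    funext i
    exact (hgood (i + 1)).2 i (by omega)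
  -- closedness
  have hclosed : ∀ (a b w : N), (∀ n, ∃ w' : N, ∀ i < n, α w' i = a i ∧ β w' i = b i ∧ w' i = w i) →
      α w = a ∧ β w = b := by
    intro a b w h1
    choose w' hw' using h1
    have hlim : Filter.Tendsto w' Filter.atTop (nhds w) := by
      rw [tendsto_pi_nhds]
      intro i
      apply tendsto_const_nhds.congr'
      filter_upwards [Filter.eventually_gt_atTop i] with n hn
      exact ((hw' n i hn).2.2).symm
    constructor
    · funext i
      have h2 := (tendsto_pi_nhds.1 ((hα.tendsto w).comp hlim)) i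
      have h3 : Filter.Tendsto (fun n => (α ∘ w') n i) Filter.atTop (nhds (a i)) := by
        apply tendsto_const_nhds.congr'
        filter_upwards [Filter.eventually_gt_atTop i] with n hn
        exact ((hw' n i hn).1).symm
      exact tendsto_nhds_unique h2 h3
    · funext i
      have h2 := (tendsto_pi_nhds.1 ((hβ.tendsto w).comp hlim)) i
      have h3 : Filter.Tendsto (fun n => (β ∘ w') n i) Filter.atTop (nhds (b i)) := by
        apply tendsto_const_nhds.congr'
        filter_upwards [Filter.eventually_gt_atTop i] with n hn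
        exact ((hw' n i hn).2.1).symm
      exact tendsto_nhds_unique h2 h3
  have hreach : ∀ l : List (N × N), (∀ n, Good α β n x l) →
      x = last x l ∨ ∃ w, α w = x ∧ β w = last x l := by
    intro l
    induction l with
    | nil => intro _; exact Or.inl rfl
    | cons q l ih =>
      intro h1
      have h2 := ih fun n => (h1 n).2
      obtain ⟨h3, h4⟩ := hclosed (last x l) q.2 q.1 fun n => (h1 n).1
      rcases h2 with h2 | ⟨w, h5, h6⟩
      · exact Or.inr ⟨q.1, by rw [h3, ← h2], h4⟩
      · obtain ⟨w'', h7, h8⟩ := htrans _ _ _ _ _ h5 h6 h3 h4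
        exact Or.inr ⟨w'', h7, h8⟩
  have := hreach L fun n => (hgood n).1
  rwa [hlast] at this

end Trees

/-! ## Elementary embeddings from tree maps -/

def mapD (g : List ℤ → List ℤ) : D → D
  | .nd p => nd (g p)
  | .pt p κ c => pt (g p) κ c

lemma mapD_inj {g : List ℤ → List ℤ} (hg : Function.Injective g) :
    Function.Injective (mapD g) := by
  intro a b h
  cases a <;> cases b <;> simp [mapD] at h ⊢
  · exact hg h
  · exact ⟨hg h.1, h.2⟩

lemma mapD_surj {g : List ℤ → List ℤ} (hg : Function.Surjective g) :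
    Function.Surjective (mapD g) := by
  intro b
  rcases b with q | ⟨q, κ, c⟩
  · obtain ⟨p, rfl⟩ := hg q
    exact ⟨nd p, rfl⟩
  · obtain ⟨p, rfl⟩ := hg q
    exact ⟨pt p κ c, rfl⟩

lemma rel_mapD {g : List ℤ → List ℤ} (hg : IsAuto g) (i : I) (a b : D) :
    rel i (mapD g a) (mapD g b) ↔ rel i a b := by
  rcases i with _ | _ | κ | n
  · change mapD g a = nd [] ↔ a = nd []
    constructor
    · intro h
      apply mapD_inj hg.bij.1
      rw [h]
      change nd [] = nd (g [])
      rw [hg.nil]
    · rintro rfl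
      change nd (g []) = nd []
      rw [hg.nil]
  · change (∃ p k, mapD g a = nd p ∧ mapD g b = nd (k :: p)) ↔ ∃ p k, a = nd p ∧ b = nd (k :: p)
    constructor
    · rintro ⟨p, k, h1, h2⟩
      rcases a with a | ⟨a, κ, c⟩
      swap
      · exact absurd h1.symm nd_ne_pt
      rcases b with b | ⟨b, κ, c⟩
      swap
      · exact absurd h2.symm nd_ne_pt
      have e1 := nd_inj h1
      have e2 := nd_inj h2
      rcases b with _ | ⟨k', b⟩
      · rw [hg.nil] at e2
        exact absurd e2 (by simp)
      · obtain ⟨k'', e3⟩ := hg.cons k' b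
        rw [e3] at e2
        have e4 := (List.cons.inj e2).2
        rw [← e1] at e4
        have e5 := hg.bij.1 e4
        exact ⟨a, k', rfl, by rw [e5]⟩
    · rintro ⟨p, k, rfl, rfl⟩
      obtain ⟨k', e⟩ := hg.cons k p
      exact ⟨g p, k', rfl, by change nd (g (k :: p)) = _; rw [e]⟩
  · change (∃ p c, mapD g a = nd p ∧ mapD g b = pt p κ c) ↔ ∃ p c, a = nd p ∧ b = pt p κ c
    constructor
    · rintro ⟨p, c, h1, h2⟩
      rcases a with a | ⟨a, κ', c'⟩
      swap
      · exact absurd h1.symm nd_ne_pt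
      rcases b with b | ⟨b, κ', c'⟩
      · exact absurd h2 nd_ne_pt
      have e1 := nd_inj h1
      have e2 := pt_inj h2
      rw [← e1] at e2
      exact ⟨a, c', rfl, by rw [hg.bij.1 e2.1, e2.2.1]⟩
    · rintro ⟨p, c, rfl, rfl⟩
      exact ⟨g p, c, rfl, rfl⟩
  · change (∃ p κ, mapD g a = pt p κ (some n)) ↔ ∃ p κ, a = pt p κ (some n)
    constructor
    · rintro ⟨p, κ, h1⟩
      rcases a with a | ⟨a, κ', c'⟩
      · exact absurd h1 nd_ne_pt
      · exact ⟨a, κ', by rw [(pt_inj h1).2.2]⟩
    · rintro ⟨p, κ, rfl⟩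
      exact ⟨g p, κ, rfl⟩

lemma exists_bijOn {S T : Set ℕ} (hS : S.Infinite) (hT : T.Infinite) :
    ∃ f : ℕ → ℕ, BijOn f S T := by
  classical
  have : Infinite S := hS.to_subtype
  have : Infinite T := hT.to_subtype
  obtain ⟨e⟩ := (nonempty_denumerable S)
  obtain ⟨e'⟩ := (nonempty_denumerable T)
  let E : S ≃ T := (Denumerable.eqv S).trans (Denumerable.eqv T).symm
  refine ⟨fun s => if hs : s ∈ S then (E ⟨s, hs⟩ : ℕ) else 0, ?_, ?_, ?_⟩
  · intro s hs
    simp only [dif_pos hs]
    exact (E ⟨s, hs⟩).2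
  · intro s hs s' hs' h
    simp only [dif_pos hs, dif_pos hs'] at h
    have := E.injective (Subtype.ext h)
    exact congrArg Subtype.val this
  · intro t ht
    refine ⟨(E.symm ⟨t, ht⟩ : ℕ), (E.symm ⟨t, ht⟩).2, ?_⟩
    simp

/-- the map of the coding structures: injective, preserves and reflects the relations, and what it
misses consists of uncoloured points which have coloured copies in the range. -/
theorem exists_emb {Λ Λ' : List ℤ → Set K} {π π' : ℕ → D} (hF : Fib Λ π) (hF' : Fib Λ' π')
    (hT : TLe Λ Λ') : ∃ h : ℕ → ℕ, Function.Injective h ∧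
      (∀ i a b, rel i (π' (h a)) (π' (h b)) ↔ rel i (π a) (π b)) ∧
      ∀ a, a ∉ range h → ∃ p κ, π' a = pt p κ none ∧
        ∀ (c : ℕ) (F : Set ℕ), F.Finite → ∃ b ∈ range h, b ∉ F ∧ π' b = pt p κ (some c) := by
  classical
  obtain ⟨g, hg, hΛ⟩ := hT
  have hex : ∀ d, (∃ n, π n = d) → ∃ f : ℕ → ℕ, BijOn f {n | π n = d} {n | π' n = mapD g d} := by
    rintro d ⟨n, hn⟩
    rcases d with p | ⟨p, κ, c⟩
    · obtain ⟨m, hm, hu⟩ := hF'.node (g p)
      refine ⟨fun _ => m, fun _ _ => hm, ?_, ?_⟩
      · intro a ha b hb _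
        exact hF.uniq ha hb
      · intro t ht
        exact ⟨n, hn, (hu t ht).symm⟩
    · have hb : Big Λ (pt p κ c) := by
        by_contra hb
        exact hF.empty p κ c hb n hn
      apply exists_bijOn (hF.big p κ c hb)
      exact hF'.big (g p) κ c fun hc => hΛ p (hb hc)
  choose! f hf using hex
  have hf1 : ∀ n, π' (f (π n) n) = mapD g (π n) := fun n => (hf (π n) ⟨n, rfl⟩).1 (show π n = π n from rfl)
  refine ⟨fun n => f (π n) n, ?_, ?_, ?_⟩
  · intro n m hnm
    have h1 : π n = π m := by
      apply mapD_inj hg.bij.1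
      rw [← hf1, ← hf1]
      exact congrArg π' hnm
    have hnm' : f (π n) n = f (π m) m := hnm
    rw [← h1] at hnm'
    exact (hf (π n) ⟨n, rfl⟩).2.1 (show π n = π n from rfl) (show π m = π n from h1.symm) hnm'
  · intro i a b
    rw [hf1, hf1]
    exact rel_mapD hg i _ _
  · intro a ha
    have hne : ∀ d, π' a = mapD g d → ∀ n, π n ≠ d := by
      intro d hd n hn
      obtain ⟨m, hm, hma⟩ := (hf d ⟨n, hn⟩).2.2 hd
      apply ha
      refine ⟨m, ?_⟩
      have : π m = d := hm
      simp only [this]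
      exact hma
    obtain ⟨d, hd⟩ := mapD_surj hg.bij.2 (π' a)
    rcases d with p | ⟨p, κ, c⟩
    · obtain ⟨n, hn, -⟩ := hF.node p
      exact absurd hn (hne _ hd.symm n)
    · rcases c with _ | c
      · refine ⟨g p, κ, hd.symm, ?_⟩
        intro c F hFin
        have hinf : {n | π' n = pt (g p) κ (some c)}.Infinite :=
          hF'.big (g p) κ (some c) (fun h => by simp at h)
        obtain ⟨b, hb, hbF⟩ := (hinf.diff hFin).nonempty
        refine ⟨b, ?_, hbF, hb⟩
        obtain ⟨n, hn⟩ := (hF.big p κ (some c) (fun h => by simp at h)).nonempty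
        obtain ⟨m, hm, hmb⟩ := (hf (pt p κ (some c)) ⟨n, hn⟩).2.2 hb
        refine ⟨m, ?_⟩
        have : π m = pt p κ (some c) := hm
        simp only [this]
        exact hmb
      · obtain ⟨n, hn⟩ := (hF.big p κ (some c) (fun h => by simp at h)).nonempty
        exact absurd hn (hne _ hd.symm n)

/-- forget the colour `c` -/
def forget (c : ℕ) : D → D
  | .nd p => nd p
  | .pt p κ c' => pt p κ (if c' = some c then none else c')

lemma rel_forget (c : ℕ) {i : I} (hi : i ≠ .col c) (a b : D) :
    rel i (forget c a) (forget c b) ↔ rel i a b := by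
  rcases i with _ | _ | κ | n
  · rcases a with a | ⟨a, κ', c'⟩ <;> simp [rel, forget]
  · rcases a with a | ⟨a, κ', c'⟩ <;> rcases b with b | ⟨b, κ'', c''⟩ <;> simp [rel, forget]
  · rcases a with a | ⟨a, κ', c'⟩ <;> rcases b with b | ⟨b, κ'', c''⟩ <;> simp [rel, forget]
  · rcases a with a | ⟨a, κ', c'⟩
    · simp [rel, forget]
    · have hn : n ≠ c := fun h => hi (by rw [h])
      simp only [rel, forget]
      constructor
      · rintro ⟨p, κ, h⟩
        obtain ⟨h1, h2, h3⟩ := pt_inj h
        split_ifs at h3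
        exact ⟨a, κ', by rw [h3]⟩
      · rintro ⟨p, κ, h⟩
        obtain ⟨h1, h2, h3⟩ := pt_inj h
        refine ⟨a, κ', ?_⟩
        rw [h3, if_neg]
        simpa using hn

lemma rel_swap (c : ℕ) {i : I} (hi : i ≠ .col c) {π : ℕ → D} {u v : ℕ} {p : List ℤ} {κ : K}
    (hu : π u = pt p κ none) (hv : π v = pt p κ (some c)) (a b : ℕ) :
    rel i (π (Equiv.swap u v a)) (π (Equiv.swap u v b)) ↔ rel i (π a) (π b) := by
  have h1 : ∀ a, forget c (π (Equiv.swap u v a)) = forget c (π a) := by
    intro a
    rcases eq_or_ne a u with rfl | h1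
    · rw [Equiv.swap_apply_left, hu, hv]
      simp [forget]
    · rcases eq_or_ne a v with rfl | h2
      · rw [Equiv.swap_apply_right, hu, hv]
        simp [forget]
      · rw [Equiv.swap_apply_of_ne_of_ne h1 h2]
  rw [← rel_forget c hi, h1, h1, rel_forget c hi]

end Pool.Agent.Q304.Elem
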