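import Mathlib
import Pool.Agent.Q304.Elem1

set_option autoImplicit false

open Set FirstOrder

namespace Pool.Agent.Q304.Elem

/-! ## The language and the structures -/

abbrev Lg (a : ℕ → ℕ) : FirstOrder.Language :=
  FirstOrder.Language.mk (fun _ => PEmpty.{1}) (fun n => {i : ℕ // a i = n})

abbrev St (a : ℕ → ℕ) (u : ∀ i : ℕ, (Fin (a i) → ℕ) → Bool) : (Lg a).Structure ℕ :=
  @FirstOrder.Language.Structure.mk (Lg a) ℕ
    (fun f _ => PEmpty.elim f)
    (fun r xs => u (Subtype.val r) (xs ∘ Fin.cast (Subtype.property r)) = true)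

/-- a formula is invariant under bijections which preserve finitely many of the relations -/
theorem realize_perm {a : ℕ → ℕ} {M : Type} [(Lg a).Structure M] {γ : Type} {n : ℕ}
    (φ : (Lg a).BoundedFormula γ n) : ∃ F : Finset ℕ, ∀ σ : M ≃ M,
      (∀ (n : ℕ) (r : (Lg a).Relations n), r.1 ∈ F → ∀ (xs : Fin n → M),
        FirstOrder.Language.Structure.RelMap r (σ ∘ xs) ↔
          FirstOrder.Language.Structure.RelMap r xs) →
      ∀ (v : γ → M) (xs : Fin n → M), φ.Realize (σ ∘ v) (σ ∘ xs) ↔ φ.Realize v xs := by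
  have ht : ∀ {n : ℕ} (t : (Lg a).Term (γ ⊕ Fin n)) (σ : M ≃ M) (v : γ → M) (xs : Fin n → M),
      t.realize (Sum.elim (σ ∘ v) (σ ∘ xs)) = σ (t.realize (Sum.elim v xs)) := by
    intro n t σ v xs
    rcases t with x | ⟨f, ts⟩
    · rcases x with x | x <;> rfl
    · exact PEmpty.elim f
  induction φ with
  | falsum => exact ⟨∅, fun σ _ v xs => Iff.rfl⟩
  | equal t₁ t₂ =>
    refine ⟨∅, fun σ _ v xs => ?_⟩
    simp only [Language.BoundedFormula.Realize, ht]
    exact σ.injective.eq_iff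
  | rel R ts =>
    refine ⟨{R.1}, fun σ hσ v xs => ?_⟩
    simp only [Language.BoundedFormula.Realize, ht]
    exact hσ _ R (by simp) (fun i => (ts i).realize (Sum.elim v xs))
  | imp f₁ f₂ ih₁ ih₂ =>
    obtain ⟨F₁, h₁⟩ := ih₁
    obtain ⟨F₂, h₂⟩ := ih₂
    classical
    refine ⟨F₁ ∪ F₂, fun σ hσ v xs => ?_⟩
    simp only [Language.BoundedFormula.Realize]
    rw [h₁ σ (fun n r hr => hσ n r (Finset.mem_union_left _ hr)) v xs,
      h₂ σ (fun n r hr => hσ n r (Finset.mem_union_right _ hr)) v xs]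
  | all f ih =>
    obtain ⟨F, h⟩ := ih
    refine ⟨F, fun σ hσ v xs => ?_⟩
    simp only [Language.BoundedFormula.Realize]
    constructor
    · intro h1 x
      rw [← h σ hσ v (Fin.snoc xs x), Fin.comp_snoc]
      exact h1 (σ x)
    · intro h1 y
      have h2 := h1 (σ.symm y)
      rw [← h σ hσ v, Fin.comp_snoc, Equiv.apply_symm_apply] at h2
      exact h2

/-- the Tarski-Vaught criterion in the form used here -/
theorem isElementary {a : ℕ → ℕ} {M N : Type} [(Lg a).Structure M] [(Lg a).Structure N]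
    (h : M → N) (hinj : Function.Injective h)
    (hrel : ∀ (n : ℕ) (r : (Lg a).Relations n) (xs : Fin n → M),
      FirstOrder.Language.Structure.RelMap r (h ∘ xs) ↔
        FirstOrder.Language.Structure.RelMap r xs)
    (hsw : ∀ (F : Finset ℕ) (x : N) (T : Set N), T.Finite → T ⊆ range h → ∃ σ : N ≃ N,
      (∀ t ∈ T, σ t = t) ∧ σ x ∈ range h ∧
      (∀ (n : ℕ) (r : (Lg a).Relations n), r.1 ∈ F → ∀ (xs : Fin n → N),
        FirstOrder.Language.Structure.RelMap r (σ ∘ xs) ↔
          FirstOrder.Language.Structure.RelMap r xs)) :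
    Nonempty (M ↪ₑ[Lg a] N) := by
  let e : M ↪[Lg a] N :=
    { toFun := h
      inj' := hinj
      map_fun' := fun f _ => PEmpty.elim f
      map_rel' := fun r x => hrel _ r x }
  have he : ∀ m, e m = h m := fun _ => rfl
  have he' : (e : M → N) = h := rfl
  refine ⟨⟨e, ?_⟩⟩
  intro n φ x
  refine e.isElementary_of_exists ?_ φ x
  intro n φ x y hy
  obtain ⟨F, hF⟩ := realize_perm (M := N) φ
  obtain ⟨σ, h1, ⟨b, hb⟩, h3⟩ := hsw F y (range (h ∘ x)) (finite_range _) (by
    rintro _ ⟨i, rfl⟩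
    exact ⟨x i, rfl⟩)
  refine ⟨b, ?_⟩
  have h4 := (hF σ h3 default (Fin.snoc (e ∘ x) y : _ → N)).2 hy
  have h5 : (σ ∘ (Fin.snoc (e ∘ x) y : _ → N)) = Fin.snoc (e ∘ x) (e b) := by
    rw [Fin.comp_snoc, he, hb]
    congr 1
    funext i
    exact h1 _ ⟨i, rfl⟩
  rw [h5] at h4
  have h6 : (σ ∘ (default : Empty → N)) = default := Subsingleton.elim _ _
  rw [h6] at h4
  exact h4

/-- all symbols are binary -/
abbrev two : ℕ → ℕ := fun _ => 2

abbrev Str : Type := ∀ i : ℕ, (Fin (two i) → ℕ) → Bool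

/-- elementary embeddability of coded structures -/
def EE (u v : Str) : Prop :=
  Nonempty (@FirstOrder.Language.ElementaryEmbedding (Lg two) ℕ ℕ (St two u) (St two v))

open Classical in
/-- the structure on `ℕ` pulled back from the reduced structure -/
noncomputable def pull (ι : ℕ → I) (π : ℕ → D) : Str :=
  fun i v => decide (rel (ι i) (π (v 0)) (π (v 1)))

lemma pull_iff (ι : ℕ → I) (π : ℕ → D) (i : ℕ) (v : Fin 2 → ℕ) :
    pull ι π i v = true ↔ rel (ι i) (π (v 0)) (π (v 1)) := by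
  classical
  unfold pull
  exact decide_eq_true_iff

lemma relMap_iff (ι : ℕ → I) (π : ℕ → D) {n : ℕ} (r : (Lg two).Relations n) (xs : Fin n → ℕ) :
    (@FirstOrder.Language.Structure.RelMap (Lg two) ℕ (St two (pull ι π)) n r xs) ↔
      rel (ι r.1) (π (xs (Fin.cast r.2 0))) (π (xs (Fin.cast r.2 1))) := by
  change pull ι π r.1 (xs ∘ Fin.cast r.2) = true ↔ _
  rw [pull_iff]
  rfl

/-- two is the only arity -/
theorem EE_of_TLe {ι : ℕ → I} {Λ Λ' : List ℤ → Set Pool.Agent.H579R3.Epi.K} {π π' : ℕ → D}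
    (hF : Fib Λ π) (hF' : Fib Λ' π') (hT : Pool.Agent.H579R3.Epi.TLe Λ Λ') :
    EE (pull ι π) (pull ι π') := by
  classical
  obtain ⟨h, hinj, hrel, hmiss⟩ := exists_emb hF hF' hT
  refine @isElementary two ℕ ℕ (St two (pull ι π)) (St two (pull ι π')) h hinj ?_ ?_
  · intro n r xs
    rw [relMap_iff, relMap_iff]
    exact hrel _ _ _
  · intro F x T hT hTr
    by_cases hx : x ∈ range h
    · exact ⟨Equiv.refl _, fun _ _ => rfl, hx, fun _ _ _ _ => Iff.rfl⟩
    · obtain ⟨p, κ, h1, h2⟩ := hmiss x hx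
      -- a colour which does not occur
      obtain ⟨c, hc⟩ : ∃ c : ℕ, ∀ i ∈ F, ι i ≠ .col c := by
        have hfin : {c : ℕ | ∃ i ∈ F, ι i = .col c}.Finite := by
          have : {c : ℕ | ∃ i ∈ F, ι i = .col c} ⊆
              (fun j : I => match j with | .col c => c | _ => 0) '' (ι '' (F : Set ℕ)) := by
            rintro c ⟨i, hi, hc⟩
            exact ⟨ι i, ⟨i, hi, rfl⟩, by rw [hc]⟩
          exact ((F.finite_toSet.image ι).image _).subset this
        obtain ⟨c, hc⟩ := hfin.exists_notMem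
        exact ⟨c, fun i hi h => hc ⟨i, hi, h⟩⟩
      obtain ⟨b, hb, hbT, hb'⟩ := h2 c T hT
      refine ⟨Equiv.swap x b, ?_, ?_, ?_⟩
      · intro t ht
        apply Equiv.swap_apply_of_ne_of_ne
        · rintro rfl
          exact hx (hTr ht)
        · rintro rfl
          exact hbT ht
      · rw [Equiv.swap_apply_left]
        exact hb
      · intro n r hr xs
        rw [relMap_iff, relMap_iff]
        exact rel_swap c (hc _ hr) h1 hb' _ _

theorem map_of_EE {ι : ℕ → I} (hι : Function.Surjective ι)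
    {Λ Λ' : List ℤ → Set Pool.Agent.H579R3.Epi.K} {π π' : ℕ → D}
    (hF : Fib Λ π) (hF' : Fib Λ' π') (hE : EE (pull ι π) (pull ι π')) :
    ∃ g : List ℤ → List ℤ, IsMap g ∧ ∀ p, Λ p ⊆ Λ' (g p) := by
  obtain ⟨e⟩ := hE
  let hfun : ℕ → ℕ := @FirstOrder.Language.ElementaryEmbedding.toFun (Lg two) ℕ ℕ
    (St two (pull ι π)) (St two (pull ι π')) e
  refine map_of_emb (h := hfun) hF hF' ?_
  intro i a b
  obtain ⟨j, rfl⟩ := hι i
  let r : (Lg two).Relations 2 := ⟨j, rfl⟩
  have h1 := @FirstOrder.Language.ElementaryEmbedding.map_formula' (Lg two) ℕ ℕ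
    (St two (pull ι π)) (St two (pull ι π')) e 2
    (Language.BoundedFormula.rel r (fun i : Fin 2 => Language.Term.var (Sum.inl i))) ![a, b]
  have h2 : (@FirstOrder.Language.Structure.RelMap (Lg two) ℕ (St two (pull ι π')) 2 r
      (hfun ∘ ![a, b])) ↔
      (@FirstOrder.Language.Structure.RelMap (Lg two) ℕ (St two (pull ι π)) 2 r ![a, b]) := h1
  rw [relMap_iff, relMap_iff] at h2
  exact h2.symm

lemma rel_of_pull {ι : ℕ → I} (hι : Function.Surjective ι) {π ρ : ℕ → D}
    (h : pull ι π = pull ι ρ) (i : I) (a b : ℕ) :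
    rel i (π a) (π b) ↔ rel i (ρ a) (ρ b) := by
  obtain ⟨j, rfl⟩ := hι i
  have h1 := pull_iff ι π j ![a, b]
  have h2 := pull_iff ι ρ j ![a, b]
  rw [h] at h1
  exact (h1.symm.trans h2)

end Pool.Agent.Q304.Elem
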