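import Mathlib
import Pool.Agent.Q304.Elem2

set_option autoImplicit false

open Set MeasureTheory

namespace Pool.Agent.Q304.Elem

open Pool.Agent.H579R3.Epi (K TLe IsAuto Lam tree_map measurableSet_lam)

instance : MeasurableSpace D := ⊤
instance : DiscreteMeasurableSpace D := ⟨fun _ => trivial⟩

instance : Infinite D := Infinite.of_injective nd fun _ _ h => nd_inj h

lemma measurable_pull (ι : ℕ → I) : Measurable (pull ι) := by
  classical
  refine measurable_pi_lambda _ fun i => measurable_pi_lambda _ fun v => ?_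
  have h1 : Measurable (fun π : ℕ → D => (π (v 0), π (v 1))) :=
    (measurable_pi_apply _).prodMk (measurable_pi_apply _)
  exact (Measurable.of_discrete (f := fun r : D × D => decide (rel (ι i) r.1 r.2))).comp h1

section

variable {X : Type} [MeasurableSpace X] (Λ : X → List ℤ → Set K)

lemma measurableSet_big (hΛ : ∀ p κ, MeasurableSet {x : X | κ ∈ Λ x p}) (d : D) :
    MeasurableSet {x : X | Big (Λ x) d} := by
  rcases d with p | ⟨p, κ, c⟩
  · exact MeasurableSet.const _
  · by_cases hc : c = none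
    · have : {x : X | Big (Λ x) (pt p κ c)} = {x : X | κ ∈ Λ x p} := by
        ext x
        exact ⟨fun h => h hc, fun h _ => h⟩
      rw [this]
      exact hΛ p κ
    · have : {x : X | Big (Λ x) (pt p κ c)} = univ := by
        ext x
        exact ⟨fun h => trivial, fun h h' => absurd h' hc⟩
      rw [this]
      exact MeasurableSet.univ

lemma measurableSet_fib (hΛ : ∀ p κ, MeasurableSet {x : X | κ ∈ Λ x p}) :
    MeasurableSet {q : (ℕ → D) × X | Fib (Λ q.2) q.1} := by
  have hn : ∀ (n : ℕ) (d : D), MeasurableSet {q : (ℕ → D) × X | q.1 n = d} := by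
    intro n d
    have h1 : Measurable (fun q : (ℕ → D) × X => q.1 n) := (measurable_pi_apply n).comp measurable_fst
    exact h1 (MeasurableSet.of_discrete (s := {d}))
  have hinf : ∀ d : D, MeasurableSet {q : (ℕ → D) × X | {n | q.1 n = d}.Infinite} := by
    intro d
    have : {q : (ℕ → D) × X | {n | q.1 n = d}.Infinite} =
        ⋂ m : ℕ, ⋃ n : ℕ, ⋃ _ : m ≤ n, {q : (ℕ → D) × X | q.1 n = d} := by
      ext q
      simp only [mem_iInter, mem_iUnion]
      change {n | q.1 n = d}.Infinite ↔ _
      rw [← Nat.frequently_atTop_iff_infinite, Filter.frequently_atTop]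
      constructor
      · intro h m
        obtain ⟨n, h1, h2⟩ := h m
        exact ⟨n, h1, h2⟩
      · intro h m
        obtain ⟨n, h1, h2⟩ := h m
        exact ⟨n, h1, h2⟩
    rw [this]
    exact MeasurableSet.iInter fun m => MeasurableSet.iUnion fun n => MeasurableSet.iUnion fun _ =>
      hn n d
  have hun : ∀ d : D, MeasurableSet {q : (ℕ → D) × X | ∃! n, q.1 n = d} := by
    intro d
    have : {q : (ℕ → D) × X | ∃! n, q.1 n = d} =
        ⋃ n : ℕ, ({q : (ℕ → D) × X | q.1 n = d} ∩
          ⋂ m : ℕ, ⋂ _ : m ≠ n, {q : (ℕ → D) × X | q.1 m = d}ᶜ) := by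
      ext q
      simp only [mem_iUnion, mem_inter_iff, mem_iInter, mem_compl_iff]
      constructor
      · rintro ⟨n, h1, h2⟩
        exact ⟨n, h1, fun m hm h3 => hm (h2 m h3)⟩
      · rintro ⟨n, h1, h2⟩
        refine ⟨n, h1, fun m hm => ?_⟩
        by_contra h3
        exact h2 m h3 hm
    rw [this]
    exact MeasurableSet.iUnion fun n => (hn n d).inter
      (MeasurableSet.iInter fun m => MeasurableSet.iInter fun _ => (hn m d).compl)
  have hem : ∀ d : D, MeasurableSet {q : (ℕ → D) × X | ∀ n, q.1 n ≠ d} := by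
    intro d
    have : {q : (ℕ → D) × X | ∀ n, q.1 n ≠ d} = ⋂ n : ℕ, {q : (ℕ → D) × X | q.1 n = d}ᶜ := by
      ext q
      simp only [mem_iInter, mem_compl_iff]
      exact Iff.rfl
    rw [this]
    exact MeasurableSet.iInter fun n => (hn n d).compl
  have hJ : ∀ d, MeasurableSet {q : (ℕ → D) × X | Big (Λ q.2) d} := fun d =>
    measurable_snd (measurableSet_big Λ hΛ d)
  have : {q : (ℕ → D) × X | Fib (Λ q.2) q.1} =
      (⋂ p : List ℤ, {q : (ℕ → D) × X | ∃! n, q.1 n = nd p}) ∩
      ⋂ p : List ℤ, ⋂ κ : K, ⋂ c : Option ℕ,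
      (({q : (ℕ → D) × X | Big (Λ q.2) (pt p κ c)}ᶜ ∪
          {q : (ℕ → D) × X | {n | q.1 n = pt p κ c}.Infinite}) ∩
        ({q : (ℕ → D) × X | Big (Λ q.2) (pt p κ c)} ∪
          {q : (ℕ → D) × X | ∀ n, q.1 n ≠ pt p κ c})) := by
    ext q
    simp only [mem_iInter, mem_inter_iff, mem_union, mem_compl_iff]
    constructor
    · intro h
      refine ⟨h.node, fun p κ c => ?_⟩
      by_cases h2 : Big (Λ q.2) (pt p κ c)
      · exact ⟨Or.inr (h.big p κ c h2), Or.inl h2⟩
      · exact ⟨Or.inl h2, Or.inr (h.empty p κ c h2)⟩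
    · intro h
      refine ⟨h.1, fun p κ c h3 => ?_, fun p κ c h3 => ?_⟩
      · rcases (h.2 p κ c).1 with h1 | h1
        · exact absurd h3 h1
        · exact h1
      · rcases (h.2 p κ c).2 with h2 | h2
        · exact absurd h2 h3
        · exact h2
  rw [this]
  refine MeasurableSet.inter (MeasurableSet.iInter fun p => hun _) ?_
  exact MeasurableSet.iInter fun p => MeasurableSet.iInter fun κ => MeasurableSet.iInter fun c =>
    ((hJ _).compl.union (hinf _)).inter ((hJ _).union (hem _))

/-- a point with an infinite fibre, whatever the labelling -/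
def dummy : D := pt [] (Sum.inl 0) (some 0)

lemma big_dummy (L : List ℤ → Set K) : Big L dummy := fun h => by simp at h

/-- the points that are kept -/
def Keep (L : List ℤ → Set K) (q : D × ℕ) : Prop := (∃ p, q.1 = nd p ∧ q.2 = 0) ∨ Big L q.1

open Classical in
/-- a map of `ℕ` onto `D` with the prescribed fibres -/
noncomputable def rho (e : ℕ ≃ D × ℕ) (L : List ℤ → Set K) (n : ℕ) : D :=
  if Keep L (e n) then (e n).1 else dummy

lemma fib_rho (e : ℕ ≃ D × ℕ) (L : List ℤ → Set K) : Fib L (rho e L) := by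
  constructor
  · intro p
    have h1 : Keep L (e (e.symm (nd p, 0))) := by
      rw [Equiv.apply_symm_apply]
      exact Or.inl ⟨p, rfl, rfl⟩
    refine ⟨e.symm (nd p, 0), ?_, ?_⟩
    · simp only [rho]
      rw [if_pos h1, Equiv.apply_symm_apply]
    · intro n hn
      simp only [rho] at hn
      split_ifs at hn with h1
      · rcases h1 with ⟨q, h1, h2⟩ | h1
        · rw [Equiv.eq_symm_apply]
          exact Prod.ext hn h2
        · rw [hn] at h1
          exact absurd h1 (fun h => h)
      · exact absurd hn.symm nd_ne_pt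
  · intro p κ c hd
    have h1 : range (fun i : ℕ => e.symm (pt p κ c, i)) ⊆ {n | rho e L n = pt p κ c} := by
      rintro n ⟨i, rfl⟩
      change rho e L (e.symm (pt p κ c, i)) = pt p κ c
      have h1 : Keep L (e (e.symm (pt p κ c, i))) := by
        rw [Equiv.apply_symm_apply]
        exact Or.inr hd
      simp only [rho]
      rw [if_pos h1, Equiv.apply_symm_apply]
    refine Infinite.mono h1 (infinite_range_of_injective ?_)
    intro i j hij
    simpa using hij
  · intro p κ c hd n hn
    simp only [rho] at hn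
    split_ifs at hn with h1
    · rcases h1 with ⟨q, h1, h2⟩ | h1
      · rw [hn] at h1
        exact absurd h1.symm nd_ne_pt
      · rw [hn] at h1
        exact hd h1
    · rw [← hn] at hd
      exact hd (big_dummy L)

lemma measurable_rho (hΛ : ∀ p κ, MeasurableSet {x : X | κ ∈ Λ x p}) (e : ℕ ≃ D × ℕ) :
    Measurable (fun x : X => rho e (Λ x)) := by
  classical
  refine measurable_pi_lambda _ fun n => ?_
  have : MeasurableSet {x : X | Keep (Λ x) (e n)} :=
    (MeasurableSet.const _).union (measurableSet_big Λ hΛ _)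
  exact Measurable.ite this measurable_const measurable_const

end

lemma Fib.perm {L : List ℤ → Set K} {π : ℕ → D} (h : Fib L π) (σ : Equiv.Perm ℕ) :
    Fib L (π ∘ σ) := by
  constructor
  · intro p
    obtain ⟨n, hn, hu⟩ := h.node p
    refine ⟨σ.symm n, by simpa using hn, fun m hm => ?_⟩
    rw [Equiv.eq_symm_apply]
    exact hu _ hm
  · intro p κ c hd
    have h1 : {n | (π ∘ σ) n = pt p κ c} = σ ⁻¹' {n | π n = pt p κ c} := rfl
    rw [h1]
    exact (h.big p κ c hd).preimage (by rw [σ.surjective.range_eq]; exact subset_univ _)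
  · intro p κ c hd n
    exact h.empty p κ c hd _

/-- The main theorem: every analytic quasi-order on a nonempty Polish space is Borel equivalent to
elementary embeddability on an invariant Borel class of countable structures. -/
theorem main (X : Type) [Nonempty X] [TopologicalSpace X] [PolishSpace X] [MeasurableSpace X]
    [BorelSpace X] (R : Set (X × X)) (hR : AnalyticSet R) (hrefl : ∀ x, (x, x) ∈ R)
    (htrans : ∀ x y z, (x, y) ∈ R → (y, z) ∈ R → (x, z) ∈ R) :
    ∃ B : Set Str, MeasurableSet B ∧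
      (∀ σ : Equiv.Perm ℕ, ∀ u ∈ B, (fun i v => u i (σ ∘ v)) ∈ B) ∧
      (∃ f : X → Str, Measurable f ∧ (∀ x, f x ∈ B) ∧
        ∀ x y, (x, y) ∈ R ↔ EE (f x) (f y)) ∧
      (∃ g : B → X, Measurable g ∧
        ∀ u v : B, EE u.1 v.1 ↔ (g u, g v) ∈ R) := by
  classical
  obtain ⟨x₀⟩ := ‹Nonempty X›
  obtain ⟨ι, hι⟩ := exists_surjective_nat I
  -- a Borel embedding of `X` into Baire space
  obtain ⟨c₀, hc₀m, hc₀i⟩ :=
    MeasurableSpace.measurable_injection_nat_bool_of_countablySeparated X
  let c : X → N := fun x n => (c₀ x n).toNat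
  have hcm : Measurable c := by
    refine measurable_pi_lambda _ fun n => ?_
    exact (Measurable.of_discrete (f := Bool.toNat)).comp ((measurable_pi_apply n).comp hc₀m)
  have hci : Function.Injective c := by
    intro x y hxy
    apply hc₀i
    funext n
    have h := congrFun hxy n
    simp only [c] at h
    cases h1 : c₀ x n <;> cases h2 : c₀ y n <;> simp_all
  -- the relation as a continuous image
  rw [AnalyticSet] at hR
  obtain ⟨ψ, hψ, hψr⟩ : ∃ ψ : (ℕ → ℕ) → X × X, Continuous ψ ∧ range ψ = R := by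
    rcases hR with hR | hR
    · have := hrefl x₀
      rw [hR] at this
      exact absurd this (notMem_empty _)
    · exact hR
  have hS : AnalyticSet (range fun w : ℕ → ℕ => (c (ψ w).1, c (ψ w).2)) := by
    have h1 : Measurable (fun w : ℕ → ℕ => (c (ψ w).1, c (ψ w).2)) :=
      (hcm.comp (measurable_fst.comp hψ.measurable)).prodMk
        (hcm.comp (measurable_snd.comp hψ.measurable))
    have h2 := (MeasurableSet.univ (α := ℕ → ℕ)).analyticSet_image h1
    rwa [image_univ] at h2
  rw [AnalyticSet] at hS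
  obtain ⟨θ, hθ, hθr⟩ : ∃ θ : N → N × N, Continuous θ ∧
      range θ = range fun w : ℕ → ℕ => (c (ψ w).1, c (ψ w).2) := by
    rcases hS with hS | hS
    · have : (c (ψ 0).1, c (ψ 0).2) ∈ (∅ : Set (N × N)) := by
        rw [← hS]
        exact ⟨0, rfl⟩
      exact absurd this (notMem_empty _)
    · exact hS
  let α : N → N := fun w => (θ w).1
  let β : N → N := fun w => (θ w).2
  have hα : Continuous α := continuous_fst.comp hθ
  have hβ : Continuous β := continuous_snd.comp hθ
  have h1 : ∀ w, ∃ x y, (x, y) ∈ R ∧ α w = c x ∧ β w = c y := by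
    intro w
    have : θ w ∈ range fun w : ℕ → ℕ => (c (ψ w).1, c (ψ w).2) := by
      rw [← hθr]
      exact ⟨w, rfl⟩
    obtain ⟨w', hw'⟩ := this
    refine ⟨(ψ w').1, (ψ w').2, ?_, ?_, ?_⟩
    · rw [← hψr]
      exact ⟨w', rfl⟩
    · exact (congrArg Prod.fst hw').symm
    · exact (congrArg Prod.snd hw').symm
  have h2 : ∀ x y, (x, y) ∈ R → ∃ w, α w = c x ∧ β w = c y := by
    intro x y hxy
    rw [← hψr] at hxy
    obtain ⟨w', hw'⟩ := hxy
    have : (c x, c y) ∈ range θ := by
      rw [hθr]
      exact ⟨w', by simp only [hw']⟩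
    obtain ⟨w, hw⟩ := this
    exact ⟨w, congrArg Prod.fst hw, congrArg Prod.snd hw⟩
  have htr : ∀ u v t w w', α w = u → β w = v → α w' = v → β w' = t →
      ∃ w'', α w'' = u ∧ β w'' = t := by
    intro u v t w w' e1 e2 e3 e4
    obtain ⟨x, y, hxy, e5, e6⟩ := h1 w
    obtain ⟨y', z, hyz, e7, e8⟩ := h1 w'
    have : y = y' := hci (by rw [← e6, ← e7, e2, e3])
    subst this
    obtain ⟨w'', e9, e10⟩ := h2 x z (htrans x y z hxy hyz)
    exact ⟨w'', by rw [e9, ← e5, e1], by rw [e10, ← e8, e4]⟩
  let Λ : X → List ℤ → Set K := fun x => Lam α β (c x)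
  -- elementary embeddability of coding structures is the relation
  have key : ∀ x y π π', Fib (Λ x) π → Fib (Λ y) π' →
      ((x, y) ∈ R ↔ EE (pull ι π) (pull ι π')) := by
    intro x y π π' hF hF'
    constructor
    · intro h
      obtain ⟨w, e1, e2⟩ := h2 x y h
      exact EE_of_TLe hF hF' (tree_map e1 e2)
    · intro h
      rcases rel_of_tree hα hβ htr (map_of_EE hι hF hF' h) with h3 | ⟨w, e1, e2⟩
      · rw [hci h3]
        exact hrefl _
      · obtain ⟨x', y', hxy, e3, e4⟩ := h1 w
        have e5 : x = x' := hci (by rw [← e1, e3])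
        have e6 : y = y' := hci (by rw [← e2, e4])
        rw [e5, e6]
        exact hxy
  have hΛ : ∀ p κ, MeasurableSet {x : X | κ ∈ Λ x p} := fun p κ =>
    hcm (measurableSet_lam (α := α) (β := β) p κ)
  -- the class of structures
  let A : Set ((ℕ → D) × X) := {q | Fib (Λ q.2) q.1}
  have hA : MeasurableSet A := measurableSet_fib Λ hΛ
  let Φ : (ℕ → D) × X → Str := fun q => pull ι q.1
  have hΦ : Measurable Φ := (measurable_pull ι).comp measurable_fst
  have hinj : InjOn Φ A := by
    rintro ⟨π, x⟩ hq ⟨π', x'⟩ hq' h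
    obtain ⟨g, hg, hgΛ, hg1, hg2⟩ := map_of_eq (show Fib (Λ x) π from hq)
      (show Fib (Λ x') π' from hq') (rel_of_pull hι h)
    obtain ⟨hid, hxx⟩ := rigid hg hgΛ
    refine Prod.ext ?_ (hci hxx)
    funext n
    change π n = π' n
    rcases hd : π n with p | ⟨p, κ, c⟩
    · rw [hg1 n p hd, hid]
    · rw [hg2 n p κ c hd, hid]
  have hAs : StandardBorelSpace A := hA.standardBorel
  let Ψ : A → Str := fun q => Φ q.1
  have hΨ : MeasurableEmbedding Ψ := by
    apply Measurable.measurableEmbedding (hΦ.comp measurable_subtype_coe)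
    intro q q' h
    exact Subtype.ext (hinj q.2 q'.2 h)
  obtain ⟨G, hG, hGΨ⟩ := hΨ.exists_measurable_extend
    (g := fun q : A => q.1.2) (measurable_snd.comp measurable_subtype_coe) (fun _ => ⟨x₀⟩)
  have hGpull : ∀ π x, Fib (Λ x) π → G (pull ι π) = x := by
    intro π x h
    exact congrFun hGΨ ⟨(π, x), h⟩
  obtain ⟨e⟩ : Nonempty (ℕ ≃ D × ℕ) := by
    have := Classical.choice (nonempty_denumerable (D × ℕ))
    exact ⟨(Denumerable.eqv (D × ℕ)).symm⟩
  refine ⟨Φ '' A, hA.image_of_measurable_injOn hΦ hinj, ?_, ?_, ?_⟩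
  · rintro σ _ ⟨⟨π, x⟩, hq, rfl⟩
    exact ⟨(π ∘ σ, x), Fib.perm (show Fib (Λ x) π from hq) σ, rfl⟩
  · refine ⟨fun x => pull ι (rho e (Λ x)), (measurable_pull ι).comp (measurable_rho Λ hΛ e), ?_, ?_⟩
    · intro x
      exact ⟨(rho e (Λ x), x), fib_rho e _, rfl⟩
    · intro x y
      exact key x y _ _ (fib_rho e _) (fib_rho e _)
  · refine ⟨fun u => G u.1, hG.comp measurable_subtype_coe, ?_⟩
    rintro ⟨_, ⟨⟨π, x⟩, hq, rfl⟩⟩ ⟨_, ⟨⟨π', y⟩, hq', rfl⟩⟩
    change EE (pull ι π) (pull ι π') ↔ (G (pull ι π), G (pull ι π')) ∈ R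
    rw [hGpull π x hq, hGpull π' y hq']
    exact (key x y π π' hq hq').symm

end Pool.Agent.Q304.Elem
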