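import Mathlib

/-! Combinatorics of words and walks. -/

namespace Pool.Q304.PF

/-- A walk from the word `W` into the word `W'`. -/
structure Walk (W W' : ℕ → Prop) (j : ℕ → ℕ) : Prop where
  lab : ∀ i, W' (j i) ↔ W i
  step : ∀ i, j (i + 1) = j i ∨ (j (i + 1) = j i + 1 ∧ (Even (j i) ↔ Even i)) ∨
    (j i = j (i + 1) + 1 ∧ (Even (j i) ↔ ¬ Even i))

/-- run lengths -/
def L (k : ℕ) : ℕ := 2 * (k + 1)

open Classical in
/-- block starts -/
noncomputable def B (S : Set ℕ) : ℕ → ℕ
  | 0 => 0
  | k + 1 => B S k + if k ∈ S then 2 * L k else 0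

/-- the word of `S` -/
def Wd (S : Set ℕ) (i : ℕ) : Prop :=
  ∃ k ∈ S, ∃ r, i = B S k + r ∧ ((r < L k ∧ Even r) ∨ (L k ≤ r ∧ r < 2 * L k ∧ Odd r))

theorem B_succ_mem {S : Set ℕ} {k : ℕ} (h : k ∈ S) : B S (k + 1) = B S k + 2 * L k := by
  simp [B, h]

theorem B_succ_not {S : Set ℕ} {k : ℕ} (h : k ∉ S) : B S (k + 1) = B S k := by
  simp [B, h]

theorem B_le_succ (S : Set ℕ) (k : ℕ) : B S k ≤ B S (k + 1) := by
  by_cases h : k ∈ S
  · rw [B_succ_mem h]; omega
  · rw [B_succ_not h]

theorem B_mono (S : Set ℕ) : Monotone (B S) := monotone_nat_of_le_succ (B_le_succ S)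

theorem B_even (S : Set ℕ) (k : ℕ) : Even (B S k) := by
  induction k with
  | zero => simp [B]
  | succ k ih =>
    by_cases h : k ∈ S
    · rw [B_succ_mem h]
      exact ih.add (even_two_mul _)
    · rw [B_succ_not h]; exact ih

theorem L_even (k : ℕ) : Even (L k) := even_two_mul _

theorem L_pos (k : ℕ) : 2 ≤ L k := by unfold L; omega

theorem L_lt {a b : ℕ} (h : a < b) : L a < L b := by unfold L; omega

theorem L_le {a b : ℕ} (h : a ≤ b) : L a ≤ L b := by unfold L; omega

theorem L_inj {a b : ℕ} (h : L a = L b) : a = b := by unfold L at h; omega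

theorem rep_unique {S : Set ℕ} {k k' r r' : ℕ} (hk : k ∈ S) (hk' : k' ∈ S) (hr : r < 2 * L k)
    (hr' : r' < 2 * L k') (h : B S k + r = B S k' + r') : k = k' ∧ r = r' := by
  have key : ∀ a b s t : ℕ, a ∈ S → s < 2 * L a → B S a + s = B S b + t → ¬ a < b := by
    intro a b s t ha hs hab hlt
    have h1 : B S (a + 1) ≤ B S b := B_mono S hlt
    rw [B_succ_mem ha] at h1
    omega
  have h1 := key k k' r r' hk hr h
  have h2 := key k' k r' r hk' hr' h.symm
  have h3 : k = k' := by omega
  subst h3
  exact ⟨rfl, by omega⟩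

theorem wd_iff {S : Set ℕ} {k r : ℕ} (hk : k ∈ S) (hr : r < 2 * L k) :
    Wd S (B S k + r) ↔ ((r < L k ∧ Even r) ∨ (L k ≤ r ∧ Odd r)) := by
  constructor
  · rintro ⟨k', hk', r', h, h'⟩
    have hr' : r' < 2 * L k' := by
      have := L_pos k'
      rcases h' with h' | h' <;> omega
    obtain ⟨rfl, rfl⟩ := rep_unique hk hk' hr hr' h
    rcases h' with h' | h'
    · exact Or.inl h'
    · exact Or.inr ⟨h'.1, h'.2.2⟩
  · intro h
    refine ⟨k, hk, r, rfl, ?_⟩
    rcases h with h | h
    · exact Or.inl h
    · exact Or.inr ⟨h.1, hr, h.2⟩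

/-- B is constant on gaps -/
theorem B_gap {S : Set ℕ} {a b : ℕ} (hab : a ≤ b) (h : ∀ m, a ≤ m → m < b → m ∉ S) :
    B S b = B S a := by
  induction b, hab using Nat.le_induction with
  | base => rfl
  | succ b hb ih =>
    rw [B_succ_not (h b hb (Nat.lt_succ_self b))]
    exact ih (fun m h1 h2 => h m h1 (by omega))

/-- next element -/
theorem exists_next {S : Set ℕ} (hS : S.Infinite) (a : ℕ) :
    ∃ k ∈ S, a ≤ k ∧ (∀ m, a ≤ m → m < k → m ∉ S) := by
  classical
  have hex : ∃ k, k ∈ S ∧ a ≤ k := by
    obtain ⟨k, hk, hak⟩ := hS.exists_gt a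
    exact ⟨k, hk, hak.le⟩
  refine ⟨Nat.find hex, (Nat.find_spec hex).1, (Nat.find_spec hex).2, fun m hm hlt hmS => ?_⟩
  exact Nat.find_min hex hlt ⟨hmS, hm⟩

theorem B_unbounded {S : Set ℕ} (hS : S.Infinite) (n : ℕ) : ∃ k, n < B S (k + 1) := by
  obtain ⟨k, hk, hnk⟩ := hS.exists_gt n
  refine ⟨k, ?_⟩
  rw [B_succ_mem hk]
  have : k < L k := by unfold L; omega
  omega

/-- location of a position -/
theorem locate {S : Set ℕ} (hS : S.Infinite) (i : ℕ) :
    ∃ k ∈ S, ∃ r, r < 2 * L k ∧ i = B S k + r := by
  classical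
  let k := Nat.find (B_unbounded hS i)
  have h1 : i < B S (k + 1) := Nat.find_spec (B_unbounded hS i)
  have h2 : B S k ≤ i := by
    by_contra hlt
    push Not at hlt
    rcases Nat.eq_zero_or_pos k with h0 | h0
    · rw [h0] at hlt
      simp [B] at hlt
    · obtain ⟨m, hm⟩ : ∃ m, k = m + 1 := ⟨k - 1, by omega⟩
      have : m < k := by omega
      exact Nat.find_min (B_unbounded hS i) this (by rw [← hm]; exact hlt)
  have hk : k ∈ S := by
    by_contra hk
    rw [B_succ_not hk] at h1
    omega
  rw [B_succ_mem hk] at h1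
  exact ⟨k, hk, i - B S k, by omega, by omega⟩

theorem kappa {S : Set ℕ} (hS : S.Infinite) {k r : ℕ} (hk : k ∈ S) (hr : r < 2 * L k)
    [DecidablePred fun k' => B S k + r < B S (k' + 1)] :
    Nat.find (B_unbounded hS (B S k + r)) = k := by
  rw [Nat.find_eq_iff]
  constructor
  · rw [B_succ_mem hk]; omega
  · intro m hm
    have : B S (m + 1) ≤ B S k := B_mono S hm
    omega

/-! ### Runs -/

/-- `[a, a+l)` is a run of the word of `S` -/
def Run (S : Set ℕ) (a l : ℕ) : Prop := ∃ k ∈ S, l = L k ∧ (a = B S k ∨ a = B S k + L k)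

theorem run_even {S : Set ℕ} {a l : ℕ} (h : Run S a l) : Even a ∧ Even l ∧ 2 ≤ l := by
  obtain ⟨k, hk, rfl, h | h⟩ := h
  · subst h; exact ⟨B_even S k, L_even k, L_pos k⟩
  · subst h; exact ⟨(B_even S k).add (L_even k), L_even k, L_pos k⟩

theorem run_alt {S : Set ℕ} {a l : ℕ} (h : Run S a l) {r : ℕ} (hr : r + 1 < l) :
    Wd S (a + r + 1) ↔ ¬ Wd S (a + r) := by
  obtain ⟨k, hk, rfl, h | h⟩ := h
  · subst h
    rw [add_assoc, wd_iff hk (by omega), wd_iff hk (by omega)]
    have h1 : ¬ L k ≤ r := by omega
    have h2 : ¬ L k ≤ r + 1 := by omega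
    have h3 : r < L k := by omega
    simp only [h1, h2, h3, hr, true_and, false_and, or_false]
    exact Nat.even_add_one
  · subst h
    have hev := L_even k
    rw [show B S k + L k + r + 1 = B S k + (L k + r + 1) by ring,
      show B S k + L k + r = B S k + (L k + r) by ring, wd_iff hk (by omega), wd_iff hk (by omega)]
    have h1 : L k ≤ L k + r + 1 := by omega
    have h2 : L k ≤ L k + r := by omega
    have h3 : ¬ (L k + r < L k) := by omega
    have h4 : ¬ (L k + r + 1 < L k) := by omega
    simp only [h1, h2, h3, h4, true_and, false_and, false_or]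
    rw [← Nat.not_even_iff_odd, ← Nat.not_even_iff_odd, Nat.even_add_one]

theorem wd_B {S : Set ℕ} (hS : S.Infinite) (k : ℕ) : Wd S (B S k) := by
  obtain ⟨k', hk', hle, hgap⟩ := exists_next hS k
  rw [← B_gap hle hgap]
  have := wd_iff (r := 0) hk' (by have := L_pos k'; omega)
  rw [add_zero] at this
  rw [this]
  left
  exact ⟨by have := L_pos k'; omega, by simp⟩

/-- letters are doubled at the end of runs -/
theorem run_end {S : Set ℕ} (hS : S.Infinite) {a l : ℕ} (h : Run S a l) :
    Wd S (a + l) ↔ Wd S (a + l - 1) := by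
  obtain ⟨k, hk, rfl, h | h⟩ := h
  · subst h
    have hp := L_pos k
    have hev := L_even k
    rw [show B S k + L k - 1 = B S k + (L k - 1) by omega, wd_iff hk (by omega),
      wd_iff hk (by omega)]
    constructor
    · rintro (h | h)
      · omega
      · exact absurd h.2 (Nat.not_odd_iff_even.2 hev)
    · rintro (h | h)
      · exfalso
        have := h.2
        rw [Nat.even_sub (by omega)] at this
        simp [hev] at this
      · omega
  · subst h
    have hp := L_pos k
    have hev := L_even k
    have h1 : B S k + L k + L k = B S (k + 1) := by rw [B_succ_mem hk]; ring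
    rw [show B S k + L k + L k - 1 = B S k + (2 * L k - 1) by omega, h1, wd_iff hk (by omega)]
    refine iff_of_true (wd_B hS _) (Or.inr ⟨by omega, ?_⟩)
    rw [← Nat.not_even_iff_odd, Nat.even_sub (by omega)]
    simp

/-- every position is inside a run, or at the end -/
theorem run_of_double {S : Set ℕ} (hS : S.Infinite) {i : ℕ} (h : Wd S (i + 1) ↔ Wd S i) :
    ∃ a l, Run S a l ∧ a + l = i + 1 := by
  obtain ⟨k, hk, r, hr, rfl⟩ := locate hS i
  rcases Nat.lt_trichotomy (r + 1) (L k) with h1 | h1 | h1
  · exfalso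
    have := run_alt ⟨k, hk, rfl, Or.inl rfl⟩ h1
    tauto
  · exact ⟨B S k, L k, ⟨k, hk, rfl, Or.inl rfl⟩, by omega⟩
  · rcases Nat.lt_or_ge (r + 1) (2 * L k) with h2 | h2
    · exfalso
      have := run_alt (a := B S k + L k) (l := L k) ⟨k, hk, rfl, Or.inr rfl⟩
        (r := r - L k) (by omega)
      rw [show B S k + L k + (r - L k) + 1 = B S k + r + 1 by omega,
        show B S k + L k + (r - L k) = B S k + r by omega] at this
      tauto
    · exact ⟨B S k + L k, L k, ⟨k, hk, rfl, Or.inr rfl⟩, by omega⟩

theorem B_prev (S : Set ℕ) (k : ℕ) : B S k = 0 ∨ ∃ k2 < k, k2 ∈ S ∧ B S k = B S k2 + 2 * L k2 := by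
  induction k with
  | zero => left; simp [B]
  | succ k ih =>
    by_cases h : k ∈ S
    · right
      exact ⟨k, by omega, h, B_succ_mem h⟩
    · rw [B_succ_not h]
      rcases ih with h1 | ⟨k2, h2, h3, h4⟩
      · left; exact h1
      · right; exact ⟨k2, by omega, h3, h4⟩

/-- previous run -/
theorem run_prev {S : Set ℕ} {a l : ℕ} (h : Run S a l) (ha : a ≠ 0) :
    ∃ a2 l2, Run S a2 l2 ∧ a2 + l2 = a ∧ l2 ≤ l := by
  obtain ⟨k, hk, rfl, h | h⟩ := h
  · subst h
    rcases B_prev S k with h1 | ⟨k2, h2, h3, h4⟩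
    · exact absurd h1 ha
    · exact ⟨B S k2 + L k2, L k2, ⟨k2, h3, rfl, Or.inr rfl⟩, by omega, L_le h2.le⟩
  · exact ⟨B S k, L k, ⟨k, hk, rfl, Or.inl rfl⟩, h.symm, le_refl _⟩

/-! ### Movement of a walk inside a run -/

theorem move_up {W W' : ℕ → Prop} {j : ℕ → ℕ} (hj : Walk W W' j) {a l : ℕ} (ha : Even a)
    (alt : ∀ r, r + 1 < l → (W (a + r + 1) ↔ ¬ W (a + r))) (h0 : Even (j a)) :
    ∀ r, r < l → j (a + r) = j a + r := by
  intro r
  induction r with
  | zero => intro _; simp
  | succ r ih =>
    intro hr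
    have ih' := ih (by omega)
    have hs := hj.step (a + r)
    have hl1 := hj.lab (a + r)
    have hl2 := hj.lab (a + r + 1)
    have halt := alt r hr
    have hpar : Even (j (a + r)) ↔ Even (a + r) := by
      rw [ih', Nat.even_add, Nat.even_add]
      simp [ha, h0]
    rcases hs with hs | ⟨hs, _⟩ | ⟨hs, hs2⟩
    · rw [hs] at hl2
      tauto
    · rw [← add_assoc, hs, ih']; ring
    · tauto

theorem move_down {W W' : ℕ → Prop} {j : ℕ → ℕ} (hj : Walk W W' j) {a l : ℕ} (ha : Even a)
    (alt : ∀ r, r + 1 < l → (W (a + r + 1) ↔ ¬ W (a + r))) (h0 : ¬ Even (j a)) :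
    ∀ r, r < l → j (a + r) + r = j a := by
  intro r
  induction r with
  | zero => intro _; simp
  | succ r ih =>
    intro hr
    have ih' := ih (by omega)
    have hs := hj.step (a + r)
    have hl1 := hj.lab (a + r)
    have hl2 := hj.lab (a + r + 1)
    have halt := alt r hr
    have hpar : Even (j (a + r)) ↔ ¬ Even (a + r) := by
      rw [← ih', Nat.even_add] at h0
      rw [Nat.even_add]
      simp only [ha, true_iff]
      tauto
    rcases hs with hs | ⟨hs, hs2⟩ | ⟨hs, _⟩
    · rw [hs] at hl2
      tauto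
    · tauto
    · rw [show a + (r + 1) = a + r + 1 by ring]; omega

theorem ctr {A A' B B' : Prop} (h1 : A' ↔ A) (h2 : B' ↔ B) (h3 : A ↔ B) (h4 : A' ↔ ¬ B') :
    False := by tauto

theorem no_walk {S S' : Set ℕ} (hS : S.Infinite) (hS' : S'.Infinite) {j : ℕ → ℕ}
    (hj : Walk (Wd S) (Wd S') j) {k : ℕ} (hk : k ∈ S') (hkS : k ∉ S) (h0 : j 0 < B S' k) :
    False := by
  classical
  set Q := B S' k with hQ
  set l := L k with hl
  have hQe : Even Q := B_even S' k
  have hle : Even l := L_even k
  have hl2 : 2 ≤ l := L_pos k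
  have hcell : Run S' Q l := ⟨k, hk, rfl, Or.inl rfl⟩
  -- alternation within the cell
  have halt : ∀ q, Q ≤ q → q + 1 < Q + l → (Wd S' (q + 1) ↔ ¬ Wd S' q) := by
    intro q h1 h2
    have := run_alt hcell (r := q - Q) (by omega)
    rwa [show Q + (q - Q) = q by omega] at this
  have hend : Wd S' (Q + l) ↔ Wd S' (Q + l - 1) := run_end hS' hcell
  have hbeg : Wd S' Q ↔ Wd S' (Q - 1) := by
    obtain ⟨a2, l2, h1, h2, _⟩ := run_prev hcell (by omega)
    have := run_end hS' h1
    rwa [h2] at this
  -- ends of runs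
  have hup : ∀ a m, Run S a m → Even (j a) → ∀ r, r < m → j (a + r) = j a + r := by
    intro a m h h1
    exact move_up hj (run_even h).1 (fun r hr => run_alt h hr) h1
  have hdown : ∀ a m, Run S a m → ¬ Even (j a) → ∀ r, r < m → j (a + r) + r = j a := by
    intro a m h h1
    exact move_down hj (run_even h).1 (fun r hr => run_alt h hr) h1
  -- unboundedness
  have hex : ∃ i, Q + l ≤ j i := by
    obtain ⟨n, hn, hlt⟩ := hS.exists_gt (Q + l)
    have hr : Run S (B S n) (L n) := ⟨n, hn, rfl, Or.inl rfl⟩
    have hLn : Q + l < L n := by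
      have : n < L n := by unfold L; omega
      omega
    by_cases he : Even (j (B S n))
    · refine ⟨B S n + (L n - 1), ?_⟩
      rw [hup _ _ hr he _ (by omega)]
      omega
    · refine ⟨B S n, ?_⟩
      have := hdown _ _ hr he (L n - 1) (by omega)
      omega
  set T := Nat.find hex with hT
  have hT1 : Q + l ≤ j T := Nat.find_spec hex
  have hTm : ∀ i, i < T → j i < Q + l := fun i hi => by
    have := Nat.find_min hex hi
    omega
  -- descent
  have hG : ∀ a, ∀ m, Run S a m → Even (j a) → Q < j a → j a < Q + l → a < T → False := by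
    intro a
    induction a using Nat.strong_induction_on with
    | _ a ih =>
      intro m hrun hev hQa haL haT
      have ha0 : a ≠ 0 := by rintro rfl; omega
      obtain ⟨a2, l2, hr2, ha2, hl2m⟩ := run_prev hrun ha0
      have he2 := run_even hr2
      have hea := (run_even hrun).1
      have hd : Wd S a ↔ Wd S (a - 1) := by
        have := run_end hS hr2
        rwa [ha2] at this
      -- the step before a
      have hst := hj.step (a - 1)
      rw [show a - 1 + 1 = a by omega] at hst
      have hoa : ¬ Even (a - 1) := by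
        rw [Nat.even_sub (by omega)]
        simp [hea]
      have hlab1 := hj.lab a
      have hlab2 := hj.lab (a - 1)
      have hstay : j (a - 1) = j a := by
        rcases hst with h | ⟨h, h'⟩ | ⟨h, h'⟩
        · exact h.symm
        · exfalso
          have := halt (j (a - 1)) (by omega) (by omega)
          rw [← h] at this
          exact ctr hlab1 hlab2 hd this
        · exfalso
          have h3 : Even (j (a - 1)) := h'.2 hoa
          rw [h, Nat.even_add_one] at h3
          exact h3 hev
      -- run a2 is backward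
      have hb2 : ¬ Even (j a2) := by
        intro hE
        have := hup _ _ hr2 hE (l2 - 1) (by omega)
        rw [show a2 + (l2 - 1) = a - 1 by omega, hstay] at this
        have h5 : Even (j a2 + (l2 - 1)) := by rw [← this]; exact hev
        rw [Nat.even_add, Nat.even_sub (by omega)] at h5
        simp [hE, he2.2.1] at h5
      have hv2 := hdown _ _ hr2 hb2 (l2 - 1) (by omega)
      rw [show a2 + (l2 - 1) = a - 1 by omega, hstay] at hv2
      have ha2T : a2 < T := by omega
      have hj2 := hTm a2 ha2T
      have ha20 : a2 ≠ 0 := by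
        rintro rfl
        omega
      obtain ⟨a3, l3, hr3, ha3, hl3⟩ := run_prev hr2 ha20
      have he3 := run_even hr3
      have hd3 : Wd S a2 ↔ Wd S (a2 - 1) := by
        have := run_end hS hr3
        rwa [ha3] at this
      have hst3 := hj.step (a2 - 1)
      rw [show a2 - 1 + 1 = a2 by omega] at hst3
      have hoa2 : ¬ Even (a2 - 1) := by
        rw [Nat.even_sub (by omega)]
        simp [he2.1]
      have hlab3 := hj.lab a2
      have hlab4 := hj.lab (a2 - 1)
      have hstay3 : j (a2 - 1) = j a2 := by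
        rcases hst3 with h | ⟨h, h'⟩ | ⟨h, h'⟩
        · exact h.symm
        · exfalso
          have h3 : ¬ Even (j (a2 - 1)) := fun h7 => hoa2 (h'.1 h7)
          apply hb2
          rw [h, Nat.even_add_one]
          exact h3
        · exfalso
          have h6 := hTm (a2 - 1) (by omega)
          have := halt (j a2) (by omega) (by omega)
          rw [← h] at this
          exact ctr hlab4 hlab3 hd3.symm this
      have hf3 : Even (j a3) := by
        by_contra hE
        have := hdown _ _ hr3 hE (l3 - 1) (by omega)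
        rw [show a3 + (l3 - 1) = a2 - 1 by omega, hstay3] at this
        rw [← this, Nat.even_add, Nat.even_sub (by omega)] at hE
        simp [hb2, he3.2.1] at hE
      have hv3 := hup _ _ hr3 hf3 (l3 - 1) (by omega)
      rw [show a3 + (l3 - 1) = a2 - 1 by omega, hstay3] at hv3
      exact ih a3 (by omega) l3 hr3 hf3 (by omega) (by omega) (by omega)
  -- at time T
  have hT0 : T ≠ 0 := by
    intro h
    rw [h] at hT1
    omega
  have hTp := hTm (T - 1) (by omega)
  have hst := hj.step (T - 1)
  rw [show T - 1 + 1 = T by omega] at hst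
  have hlabT := hj.lab T
  have hlabT' := hj.lab (T - 1)
  have hval : j T = Q + l ∧ j (T - 1) = Q + l - 1 := by
    rcases hst with h | ⟨h, h'⟩ | ⟨h, h'⟩ <;> omega
  have hdT : Wd S (T - 1 + 1) ↔ Wd S (T - 1) := by
    rw [show T - 1 + 1 = T by omega]
    rw [hval.1] at hlabT
    rw [hval.2] at hlabT'
    exact hlabT.symm.trans (hend.trans hlabT')
  obtain ⟨a, m, hr, ham⟩ := run_of_double hS hdT
  rw [show T - 1 + 1 = T by omega] at ham
  have her := run_even hr
  have hfa : Even (j a) := by
    by_contra hE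
    have := hdown _ _ hr hE (m - 1) (by omega)
    rw [show a + (m - 1) = T - 1 by omega, hval.2] at this
    rw [← this, Nat.even_add, Nat.even_sub (by omega), Nat.even_sub (by omega)] at hE
    simp [her.2.1, hQe, hle, Nat.even_add] at hE
  have hva := hup _ _ hr hfa (m - 1) (by omega)
  rw [show a + (m - 1) = T - 1 by omega, hval.2] at hva
  rcases Nat.lt_trichotomy m l with h | h | h
  · exact hG a m hr hfa (by omega) (by omega) (by omega)
  · obtain ⟨k', hk', h1, _⟩ := hr
    have : k' = k := L_inj (by rw [← h1, h])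
    exact hkS (this ▸ hk')
  · -- crossing the beginning of the cell inside a run
    have h1 := hup _ _ hr hfa (Q - 1 - j a) (by omega)
    have h2 := hup _ _ hr hfa (Q - 1 - j a + 1) (by omega)
    have h3 := run_alt hr (r := Q - 1 - j a) (by omega)
    have h4 := hj.lab (a + (Q - 1 - j a))
    have h5 := hj.lab (a + (Q - 1 - j a) + 1)
    rw [h1, show j a + (Q - 1 - j a) = Q - 1 by omega] at h4
    rw [show a + (Q - 1 - j a) + 1 = a + (Q - 1 - j a + 1) by ring, h2,
      show j a + (Q - 1 - j a + 1) = Q by omega] at h5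
    rw [show a + (Q - 1 - j a) + 1 = a + (Q - 1 - j a + 1) by ring] at h3
    exact ctr h5.symm h4.symm hbeg h3

theorem finite_of_walk {S S' : Set ℕ} (hS : S.Infinite) (hS' : S'.Infinite) {j : ℕ → ℕ}
    (hj : Walk (Wd S) (Wd S') j) : (S' \ S).Finite := by
  obtain ⟨n, hn⟩ := B_unbounded hS' (j 0)
  apply (Set.finite_Iio (n + 1)).subset
  rintro k ⟨hk, hkS⟩
  by_contra hlt
  simp only [Set.mem_Iio, not_lt] at hlt
  exact no_walk hS hS' hj hk hkS (lt_of_lt_of_le hn (B_mono S' hlt))

/-! ### Construction of a walk -/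

open Classical in
/-- position inside the target block -/
noncomputable def zz (S' : Set ℕ) (N k r : ℕ) : ℕ :=
  if k ∈ S' ∧ N ≤ k then r else if r < L k then r else 2 * L k - 1 - r

theorem exists_walk {S S' : Set ℕ} (hS : S.Infinite) (hS' : S'.Infinite)
    (hfin : (S' \ S).Finite) : ∃ j : ℕ → ℕ, Walk (Wd S) (Wd S') j ∧ Even (j 0) := by
  classical
  obtain ⟨N, hN⟩ : ∃ N, ∀ k, N ≤ k → k ∈ S' → k ∈ S := by
    obtain ⟨N, hN⟩ := hfin.bddAbove
    refine ⟨N + 1, fun k hk hkS' => ?_⟩
    by_contra hkS
    have := hN ⟨hkS', hkS⟩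
    omega
  let C : ℕ → ℕ := fun k => B S' (max k N)
  let j : ℕ → ℕ := fun i =>
    C (Nat.find (B_unbounded hS i)) + zz S' N (Nat.find (B_unbounded hS i))
      (i - B S (Nat.find (B_unbounded hS i)))
  have hjv : ∀ k ∈ S, ∀ r, r < 2 * L k → j (B S k + r) = C k + zz S' N k r := by
    intro k hk r hr
    simp only [j]
    rw [kappa hS hk hr]
    simp
  have hCe : ∀ k, Even (C k) := fun k => B_even S' _
  refine ⟨j, ⟨?_, ?_⟩, ?_⟩
  · intro i
    obtain ⟨k, hk, r, hr, rfl⟩ := locate hS i
    rw [hjv k hk r hr, wd_iff hk hr]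
    by_cases hc : k ∈ S' ∧ N ≤ k
    · have h1 : C k = B S' k := by simp only [C]; rw [max_eq_left hc.2]
      rw [h1]
      simp only [zz, if_pos hc]
      exact wd_iff hc.1 hr
    · simp only [zz, if_neg hc]
      obtain ⟨k', hk', hle, hgap⟩ := exists_next hS' (max k N)
      have h1 : C k = B S' k' := (B_gap hle hgap).symm
      have h2 : k < k' := by
        rcases lt_or_eq_of_le (le_trans (le_max_left k N) hle) with h | h
        · exact h
        · exfalso
          apply hc
          rw [h]
          exact ⟨hk', le_trans (le_max_right k N) hle⟩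
      have h3 := L_lt h2
      rw [h1]
      split_ifs with h4
      · rw [wd_iff hk' (by omega)]
        have h5 : ¬ L k' ≤ r := by omega
        have h6 : ¬ L k ≤ r := by omega
        have h7 : r < L k' := by omega
        simp [h4, h5, h6, h7]
      · rw [wd_iff hk' (by omega)]
        have h5 : ¬ L k' ≤ 2 * L k - 1 - r := by omega
        have h6 : L k ≤ r := by omega
        have h7 : 2 * L k - 1 - r < L k' := by omega
        simp only [h4, h5, h6, h7, true_and, false_and, or_false, false_or]
        rw [← Nat.not_even_iff_odd, Nat.even_sub (by omega), Nat.even_sub (by omega)]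
        have := L_even k
        simp
  · intro i
    obtain ⟨k, hk, r, hr, rfl⟩ := locate hS i
    have hBe := B_even S k
    have hLe := L_even k
    have hCk := hCe k
    rcases Nat.lt_or_ge (r + 1) (2 * L k) with h1 | h1
    · rw [add_assoc, hjv k hk r hr, hjv k hk (r + 1) h1]
      by_cases hc : k ∈ S' ∧ N ≤ k
      · simp only [zz, if_pos hc]
        right; left
        refine ⟨by ring, ?_⟩
        rw [Nat.even_add, Nat.even_add]
        simp [hBe, hCk]
      · simp only [zz, if_neg hc]
        rcases Nat.lt_trichotomy (r + 1) (L k) with h2 | h2 | h2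
        · rw [if_pos (show r < L k by omega), if_pos h2]
          right; left
          refine ⟨by ring, ?_⟩
          rw [Nat.even_add, Nat.even_add]
          simp [hBe, hCk]
        · rw [if_pos (show r < L k by omega), if_neg (show ¬ r + 1 < L k by omega)]
          left
          omega
        · rw [if_neg (show ¬ r < L k by omega), if_neg (show ¬ r + 1 < L k by omega)]
          right; right
          refine ⟨by omega, ?_⟩
          rw [Nat.even_add, Nat.even_add, Nat.even_sub (by omega), Nat.even_sub (by omega)]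
          simp [hBe, hCk]
    · have hr' : r = 2 * L k - 1 := by omega
      subst hr'
      have hp := L_pos k
      obtain ⟨k1, hk1, hle1, hgap1⟩ := exists_next hS (k + 1)
      have hBk1 : B S k1 = B S k + 2 * L k := by
        rw [B_gap hle1 hgap1, B_succ_mem hk]
      have hi1 : B S k + (2 * L k - 1) + 1 = B S k1 + 0 := by omega
      have hp1 := L_pos k1
      rw [hi1, hjv k hk _ hr, hjv k1 hk1 0 (by omega)]
      have hz0 : zz S' N k1 0 = 0 := by
        simp only [zz]
        split_ifs <;> omega
      rw [hz0, add_zero]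
      by_cases hc : k ∈ S' ∧ N ≤ k
      · simp only [zz, if_pos hc]
        have hCk' : C k = B S' k := by simp only [C]; rw [max_eq_left hc.2]
        have hCk1 : C k1 = B S' k + 2 * L k := by
          simp only [C]
          rw [max_eq_left (by omega), ← B_succ_mem hc.1]
          apply B_gap hle1
          intro m hm1 hm2 hm3
          exact hgap1 m hm1 hm2 (hN m (by omega) hm3)
        rw [hCk1, hCk']
        right; left
        refine ⟨by omega, ?_⟩
        rw [Nat.even_add, Nat.even_add]
        simp [hBe, B_even S' k]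
      · left
        have hzk : zz S' N k (2 * L k - 1) = 0 := by
          simp only [zz, if_neg hc]
          rw [if_neg (by omega)]
          omega
        rw [hzk, add_zero]
        simp only [C]
        apply B_gap (by omega)
        intro m hm1 hm2 hm3
        have hmN : N ≤ m := le_trans (le_max_right k N) hm1
        have hmk : k ≤ m := le_trans (le_max_left k N) hm1
        have hmne : m ≠ k := by
          rintro rfl
          exact hc ⟨hm3, hmN⟩
        exact hgap1 m (by omega) (by omega) (hN m hmN hm3)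
  · have hz : ∀ k, Even (C k) := hCe
    obtain ⟨k, hk, r, hr, h0⟩ := locate hS 0
    have hr0 : r = 0 := by omega
    subst hr0
    rw [h0, hjv k hk 0 hr]
    have hp := L_pos k
    have hz0 : zz S' N k 0 = 0 := by
      simp only [zz]
      split_ifs <;> omega
    rw [hz0, add_zero]
    exact hCe k

end Pool.Q304.PF
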