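import Pool.Agent.Q304.Fin1

/-! The sets coded by words, and the analysis. -/

open Set Filter Topology
open scoped ContDiff

namespace Pool.Q304.PF

/-- the set coded by a word -/
def AW (W : ℕ → Prop) : Set ℝ :=
  {t | (∃ n : ℕ, t = n ∧ W n) ∨ ∃ k : ℕ, (2 * k : ℝ) < t ∧ t < 2 * k + 1}

theorem AW_nat {W : ℕ → Prop} (n : ℕ) : (n : ℝ) ∈ AW W ↔ W n := by
  constructor
  · rintro (⟨m, h, hm⟩ | ⟨k, h1, h2⟩)
    · have : n = m := by exact_mod_cast h
      rwa [this]
    · exfalso
      have h1' : 2 * k < n := by exact_mod_cast h1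
      have h2' : n < 2 * k + 1 := by exact_mod_cast h2
      omega
  · intro h
    exact Or.inl ⟨n, rfl, h⟩

theorem AW_mid {W : ℕ → Prop} {n : ℕ} {t : ℝ} (h1 : (n : ℝ) < t) (h2 : t < n + 1) :
    t ∈ AW W ↔ Even n := by
  constructor
  · rintro (⟨m, h, hm⟩ | ⟨k, h3, h4⟩)
    · exfalso
      rw [h] at h1 h2
      have h1' : n < m := by exact_mod_cast h1
      have h2' : m < n + 1 := by exact_mod_cast h2
      omega
    · have h5 : (n : ℝ) < 2 * k + 1 := by linarith
      have h6 : (2 * k : ℝ) < n + 1 := by linarith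
      have h5' : n < 2 * k + 1 := by exact_mod_cast h5
      have h6' : 2 * k < n + 1 := by exact_mod_cast h6
      have : n = 2 * k := by omega
      rw [this]
      exact even_two_mul k
  · rintro ⟨k, hk⟩
    refine Or.inr ⟨k, ?_, ?_⟩
    · have : (n : ℝ) = k + k := by exact_mod_cast hk
      linarith
    · have : (n : ℝ) = k + k := by exact_mod_cast hk
      linarith

theorem AW_neg {W : ℕ → Prop} {t : ℝ} (h : t < 0) : t ∉ AW W := by
  rintro (⟨m, h1, _⟩ | ⟨k, h1, _⟩)
  · rw [h1] at h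
    have : (0 : ℝ) ≤ m := Nat.cast_nonneg m
    linarith
  · have : (0 : ℝ) ≤ k := Nat.cast_nonneg k
    linarith

/-- intersection of an open and a closed set -/
def IsD2 (A : Set ℝ) : Prop := ∃ U F : Set ℝ, IsOpen U ∧ IsClosed F ∧ A = U ∩ F

theorem isD2_AW (W : ℕ → Prop) : IsD2 (AW W) := by
  refine ⟨((fun n : ℕ => (n : ℝ)) '' {n | ¬ W n})ᶜ, ⋃ k : ℕ, Icc (2 * k : ℝ) (2 * k + 1), ?_, ?_, ?_⟩
  · rw [isOpen_compl_iff]
    exact Nat.isClosedEmbedding_coe_real.isClosedMap _ (isClosed_discrete _)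
  · apply LocallyFinite.isClosed_iUnion
    · intro x
      refine ⟨Iio (x + 1), Iio_mem_nhds (by linarith), ?_⟩
      obtain ⟨N, hN⟩ := exists_nat_gt (x + 1)
      apply (Set.finite_Iio N).subset
      rintro k ⟨y, hy1, hy2⟩
      have h1 : (2 * k : ℝ) ≤ y := hy1.1
      have h2 : y < x + 1 := hy2
      have h3 : (0 : ℝ) ≤ k := Nat.cast_nonneg k
      have h4 : (k : ℝ) < N := by linarith
      exact_mod_cast h4
    · intro k
      exact isClosed_Icc
  · ext t
    simp only [mem_inter_iff, mem_compl_iff, mem_image, mem_setOf_eq, mem_iUnion, mem_Icc,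
      not_exists, not_and]
    constructor
    · intro ht
      rcases ht with ⟨n, h1, h2⟩ | ⟨k, h1, h2⟩
      · refine ⟨?_, ?_⟩
        · intro m hm hmt
          rw [h1] at hmt
          have : m = n := by exact_mod_cast hmt
          exact hm (this ▸ h2)
        · rcases Nat.even_or_odd n with ⟨k, hk⟩ | ⟨k, hk⟩
          · refine ⟨k, ?_, ?_⟩ <;> rw [h1, hk] <;> push_cast <;> linarith
          · refine ⟨k, ?_, ?_⟩ <;> rw [h1, hk] <;> push_cast <;> linarith
      · refine ⟨?_, k, h1.le, h2.le⟩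
        intro m hm hmt
        rw [← hmt] at h1 h2
        have h1' : 2 * k < m := by exact_mod_cast h1
        have h2' : m < 2 * k + 1 := by exact_mod_cast h2
        omega
    · rintro ⟨h1, k, h2, h3⟩
      rcases eq_or_lt_of_le h2 with h4 | h4
      · have h5 : t = ((2 * k : ℕ) : ℝ) := by rw [← h4]; push_cast; ring
        rw [h5, AW_nat]
        by_contra hW
        exact h1 _ hW h5.symm
      · rcases eq_or_lt_of_le h3 with h5 | h5
        · have h6 : t = ((2 * k + 1 : ℕ) : ℝ) := by rw [h5]; push_cast; ring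
          rw [h6, AW_nat]
          by_contra hW
          exact h1 _ hW h6.symm
        · exact Or.inr ⟨k, h4, h5⟩

/-! ### From a continuous reduction to a walk -/

theorem not_nat_nhds {W : ℕ → Prop} {t : ℝ} (ht : ∀ n : ℕ, t ≠ n) :
    AW W ∈ 𝓝 t ∨ (AW W)ᶜ ∈ 𝓝 t := by
  rcases lt_or_ge t 0 with h0 | h0
  · right
    filter_upwards [Iio_mem_nhds h0] with s hs
    exact AW_neg hs
  · set n := ⌊t⌋₊ with hn
    have h1 : (n : ℝ) ≤ t := Nat.floor_le h0
    have h2 : t < n + 1 := Nat.lt_floor_add_one t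
    have h3 : (n : ℝ) < t := lt_of_le_of_ne h1 (ht n).symm
    have hnh : Ioo (n : ℝ) (n + 1) ∈ 𝓝 t := Ioo_mem_nhds h3 h2
    by_cases he : Even n
    · left
      filter_upwards [hnh] with s hs
      exact (AW_mid hs.1 hs.2).2 he
    · right
      filter_upwards [hnh] with s hs
      exact fun h => he ((AW_mid hs.1 hs.2).1 h)

theorem exists_nat_value {W W' : ℕ → Prop} {f : ℝ → ℝ} (hf : Continuous f)
    (h : AW W = f ⁻¹' AW W') (i : ℕ) : ∃ n : ℕ, f i = n := by
  by_contra hcon
  push Not at hcon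
  have key : AW W ∈ 𝓝 (i : ℝ) ∨ (AW W)ᶜ ∈ 𝓝 (i : ℝ) := by
    rcases not_nat_nhds (W := W') hcon with h1 | h1
    · left; rw [h]; exact hf.continuousAt h1
    · right; rw [h, ← preimage_compl]; exact hf.continuousAt h1
  -- points on the right and on the left
  have hR : ∀ s, s ∈ 𝓝 (i : ℝ) → ∃ t ∈ s, (i : ℝ) < t ∧ t < i + 1 := by
    intro s hs
    obtain ⟨ε, hε, hsub⟩ := Metric.mem_nhds_iff.1 hs
    refine ⟨i + min (ε / 2) (1 / 2), hsub ?_, ?_, ?_⟩
    · rw [Metric.mem_ball, Real.dist_eq]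
      rw [show (i : ℝ) + min (ε / 2) (1 / 2) - i = min (ε / 2) (1 / 2) by ring,
        abs_of_pos (by positivity)]
      exact lt_of_le_of_lt (min_le_left _ _) (by linarith)
    · have : 0 < min (ε / 2) (1 / 2) := by positivity
      linarith
    · have : min (ε / 2) (1 / 2) ≤ 1 / 2 := min_le_right _ _
      linarith
  have hL : ∀ s, s ∈ 𝓝 (i : ℝ) → ∃ t ∈ s, (i : ℝ) - 1 < t ∧ t < i := by
    intro s hs
    obtain ⟨ε, hε, hsub⟩ := Metric.mem_nhds_iff.1 hs
    refine ⟨i - min (ε / 2) (1 / 2), hsub ?_, ?_, ?_⟩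
    · rw [Metric.mem_ball, Real.dist_eq]
      rw [show (i : ℝ) - min (ε / 2) (1 / 2) - i = - min (ε / 2) (1 / 2) by ring, abs_neg,
        abs_of_pos (by positivity)]
      exact lt_of_le_of_lt (min_le_left _ _) (by linarith)
    · have : min (ε / 2) (1 / 2) ≤ 1 / 2 := min_le_right _ _
      linarith
    · have : 0 < min (ε / 2) (1 / 2) := by positivity
      linarith
  have hleft : ∀ t : ℝ, (i : ℝ) - 1 < t → t < i → (t ∈ AW W ↔ ¬ Even i) := by
    intro t h1 h2
    rcases Nat.eq_zero_or_pos i with h0 | h0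
    · subst h0
      simp only [Nat.cast_zero] at h2
      simp [AW_neg h2]
    · obtain ⟨m, rfl⟩ : ∃ m, i = m + 1 := ⟨i - 1, by omega⟩
      push_cast at h1 h2
      rw [AW_mid (n := m) (by linarith) (by linarith), Nat.even_add_one, not_not]
  by_cases he : Even i
  · rcases key with h1 | h1
    · obtain ⟨t, ht, ht1, ht2⟩ := hL _ h1
      exact (hleft t ht1 ht2).1 ht he
    · obtain ⟨t, ht, ht1, ht2⟩ := hR _ h1
      exact ht ((AW_mid ht1 ht2).2 he)
  · rcases key with h1 | h1
    · obtain ⟨t, ht, ht1, ht2⟩ := hR _ h1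
      exact he ((AW_mid ht1 ht2).1 ht)
    · obtain ⟨t, ht, ht1, ht2⟩ := hL _ h1
      exact ht ((hleft t ht1 ht2).2 he)

theorem walk_of_continuous {W W' : ℕ → Prop} {f : ℝ → ℝ} (hf : Continuous f)
    (h : AW W = f ⁻¹' AW W') : ∃ j : ℕ → ℕ, Walk W W' j := by
  choose j hj using exists_nat_value hf h
  have hmem : ∀ t, t ∈ AW W ↔ f t ∈ AW W' := fun t => by rw [h]; rfl
  have hiv : ∀ i m : ℕ, ((j i ≤ m ∧ m < j (i + 1)) ∨ (j (i + 1) ≤ m ∧ m < j i)) →
      (Even m ↔ Even i) := by
    intro i m hm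
    have hin : (m : ℝ) + 1 / 2 ∈ uIcc (f i) (f (i + 1 : ℕ)) := by
      rw [hj, hj, mem_uIcc]
      rcases hm with ⟨h1, h2⟩ | ⟨h1, h2⟩
      · left
        have h1' : (j i : ℝ) ≤ m := by exact_mod_cast h1
        have h2' : (m : ℝ) + 1 ≤ j (i + 1) := by exact_mod_cast h2
        constructor <;> linarith
      · right
        have h1' : (j (i + 1) : ℝ) ≤ m := by exact_mod_cast h1
        have h2' : (m : ℝ) + 1 ≤ j i := by exact_mod_cast h2
        constructor <;> linarith
    obtain ⟨t, ht, hft⟩ := intermediate_value_uIcc (hf.continuousOn) hin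
    have hle : (i : ℝ) ≤ (i + 1 : ℕ) := by push_cast; linarith
    rw [uIcc_of_le hle] at ht
    have hne : ∀ n : ℕ, (m : ℝ) + 1 / 2 ≠ n := by
      intro n hn
      have h1 : (2 * m + 1 : ℝ) = 2 * n := by linarith
      have h2 : 2 * m + 1 = 2 * n := by exact_mod_cast h1
      omega
    have ht1 : (i : ℝ) ≠ t := by
      rintro rfl
      rw [hj] at hft
      exact hne _ hft.symm
    have ht2 : t ≠ (i + 1 : ℕ) := by
      rintro rfl
      rw [hj] at hft
      exact hne _ hft.symm
    have h3 : (i : ℝ) < t := lt_of_le_of_ne ht.1 ht1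
    have h4 : t < i + 1 := by
      have := lt_of_le_of_ne ht.2 ht2
      push_cast at this
      exact this
    have h5 := hmem t
    rw [AW_mid h3 h4, hft, AW_mid (n := m) (by linarith) (by linarith)] at h5
    exact h5.symm
  refine ⟨j, ⟨?_, ?_⟩⟩
  · intro i
    have := hmem i
    rw [AW_nat, hj, AW_nat] at this
    exact this.symm
  · intro i
    rcases Nat.lt_trichotomy (j i) (j (i + 1)) with h1 | h1 | h1
    · right; left
      have h2 := hiv i (j i) (Or.inl ⟨le_refl _, h1⟩)
      refine ⟨?_, h2⟩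
      by_contra hne
      have h3 := hiv i (j i + 1) (Or.inl ⟨by omega, by omega⟩)
      rw [Nat.even_add_one] at h3
      tauto
    · left; exact h1.symm
    · right; right
      have h2 := hiv i (j (i + 1)) (Or.inr ⟨le_refl _, h1⟩)
      have h4 : j i = j (i + 1) + 1 := by
        by_contra hne
        have h3 := hiv i (j (i + 1) + 1) (Or.inr ⟨by omega, by omega⟩)
        rw [Nat.even_add_one] at h3
        tauto
      refine ⟨h4, ?_⟩
      rw [h4, Nat.even_add_one, h2]

/-! ### From a walk to a smooth Lipschitz reduction -/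

/-- the smooth transition -/
noncomputable def ψ (t : ℝ) : ℝ := Real.smoothTransition t

theorem ψ_zero {t : ℝ} (h : t ≤ 0) : ψ t = 0 := Real.smoothTransition.zero_of_nonpos h
theorem ψ_one {t : ℝ} (h : 1 ≤ t) : ψ t = 1 := Real.smoothTransition.one_of_one_le h
theorem ψ_nonneg (t : ℝ) : 0 ≤ ψ t := Real.smoothTransition.nonneg t
theorem ψ_le_one (t : ℝ) : ψ t ≤ 1 := Real.smoothTransition.le_one t
theorem ψ_pos {t : ℝ} (h : 0 < t) : 0 < ψ t := Real.smoothTransition.pos_of_pos h
theorem ψ_lt_one {t : ℝ} (h : t < 1) : ψ t < 1 := Real.smoothTransition.lt_one_of_lt_one h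
theorem ψ_smooth : ContDiff ℝ ∞ ψ := Real.smoothTransition.contDiff

theorem ψ_lip : ∃ K : NNReal, LipschitzWith K ψ := by
  have hd : Continuous (deriv ψ) := (ψ_smooth.of_le (by exact_mod_cast le_top : (1 : WithTop ℕ∞) ≤ ∞)).continuous_deriv le_rfl
  obtain ⟨C, hC⟩ := (isCompact_Icc (a := (0 : ℝ)) (b := 1)).exists_bound_of_continuousOn
    hd.continuousOn
  have hC0 : 0 ≤ C := le_trans (norm_nonneg _) (hC 0 (by simp))
  refine ⟨⟨C, hC0⟩, ?_⟩
  apply lipschitzWith_of_nnnorm_deriv_le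
  · exact ψ_smooth.differentiable (by simp)
  · intro t
    rw [← NNReal.coe_le_coe, coe_nnnorm]
    change ‖deriv ψ t‖ ≤ C
    by_cases ht : t ∈ Icc (0 : ℝ) 1
    · exact hC t ht
    · have h0 : deriv ψ t = 0 := by
        rcases lt_or_ge t 0 with h | h
        · apply IsLocalMin.deriv_eq_zero
          apply Filter.Eventually.of_forall
          intro s
          rw [ψ_zero h.le]
          exact ψ_nonneg s
        · apply IsLocalMax.deriv_eq_zero
          apply Filter.Eventually.of_forall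
          intro s
          have : 1 < t := by
            by_contra h1
            exact ht ⟨h, not_lt.1 h1⟩
          rw [ψ_one this.le]
          exact ψ_le_one s
      rw [h0]
      simpa using hC0

section constr

variable (j : ℕ → ℕ)

open Classical in
/-- sign -/
noncomputable def sg (i : ℕ) : ℝ := if (Even (j i) ↔ Even i) then 1 else -1

/-- elementary move -/
noncomputable def gg (i : ℕ) (t : ℝ) : ℝ :=
  if j (i + 1) = j i then ψ t * (1 - ψ t) else ψ t

/-- signed elementary move -/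
noncomputable def uu (i : ℕ) (t : ℝ) : ℝ := sg j i * gg j i t

/-- approximations -/
noncomputable def fn (n : ℕ) (t : ℝ) : ℝ :=
  j 0 - ψ (-t) / 2 + ∑ i ∈ Finset.range n, uu j i (t - i)

/-- the reduction -/
noncomputable def ff (t : ℝ) : ℝ := fn j (⌊t⌋₊ + 1) t

theorem gg_zero {i : ℕ} {t : ℝ} (h : t ≤ 0) : gg j i t = 0 := by
  unfold gg; split_ifs <;> simp [ψ_zero h]

theorem gg_mem {i : ℕ} {t : ℝ} (h0 : 0 < t) (h1 : t < 1) : 0 < gg j i t ∧ gg j i t < 1 := by
  have h2 := ψ_pos h0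
  have h3 := ψ_lt_one h1
  unfold gg
  split_ifs
  · constructor
    · exact mul_pos h2 (by linarith)
    · nlinarith
  · exact ⟨h2, h3⟩

theorem abs_sg (i : ℕ) : |sg j i| = 1 := by
  unfold sg; split_ifs <;> simp

theorem uu_smooth (i : ℕ) : ContDiff ℝ ∞ (uu j i) := by
  unfold uu gg
  apply contDiff_const.mul
  split_ifs
  · exact ψ_smooth.mul (contDiff_const.sub ψ_smooth)
  · exact ψ_smooth

theorem fn_smooth (n : ℕ) : ContDiff ℝ ∞ (fn j n) := by
  unfold fn
  apply ContDiff.add
  · apply contDiff_const.sub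
    apply ContDiff.div_const
    exact ψ_smooth.comp contDiff_neg
  · apply ContDiff.sum
    intro i _
    exact (uu_smooth j i).comp (contDiff_id.sub contDiff_const)

theorem fn_stable {n m : ℕ} {t : ℝ} (h : t ≤ n) (hnm : n ≤ m) : fn j m t = fn j n t := by
  induction m, hnm using Nat.le_induction with
  | base => rfl
  | succ m hm ih =>
    rw [← ih]
    unfold fn
    rw [Finset.sum_range_succ]
    have : (n : ℝ) ≤ m := by exact_mod_cast hm
    have h1 : uu j m (t - m) = 0 := by
      unfold uu; rw [gg_zero j (by linarith)]; simp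
    rw [h1]; ring

theorem ff_eq {n : ℕ} {t : ℝ} (h : t ≤ n) : ff j t = fn j n t := by
  unfold ff
  have h1 : t ≤ ((⌊t⌋₊ + 1 : ℕ) : ℝ) := by push_cast; exact (Nat.lt_floor_add_one t).le
  rcases Nat.le_total (⌊t⌋₊ + 1) n with h2 | h2
  · exact (fn_stable j h1 h2).symm
  · exact fn_stable j h h2

theorem ff_smooth : ContDiff ℝ ∞ (ff j) := by
  rw [contDiff_iff_contDiffAt]
  intro t
  obtain ⟨n, hn⟩ := exists_nat_gt t
  refine (fn_smooth j n).contDiffAt.congr_of_eventuallyEq ?_
  filter_upwards [Iio_mem_nhds hn] with s hs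
  exact ff_eq j (le_of_lt hs)

variable {j}

theorem uu_one {W W' : ℕ → Prop} (hj : Walk W W' j) {i : ℕ} {t : ℝ} (h : 1 ≤ t) :
    uu j i t = (j (i + 1) : ℝ) - j i := by
  unfold uu gg sg
  rw [ψ_one h]
  rcases hj.step i with h1 | ⟨h1, h2⟩ | ⟨h1, h2⟩
  · simp [h1]
  · rw [if_pos h2, if_neg (by omega), h1]
    push_cast; ring
  · have h3 : ¬ (Even (j i) ↔ Even i) := by tauto
    rw [if_neg h3, if_neg (by omega)]
    have : (j i : ℝ) = j (i + 1) + 1 := by exact_mod_cast h1
    rw [this]; ring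

theorem fn_val {W W' : ℕ → Prop} (hj : Walk W W' j) (n : ℕ) {t : ℝ} (h : (n : ℝ) ≤ t) :
    fn j n t = j n := by
  induction n with
  | zero =>
    unfold fn
    simp only [Nat.cast_zero] at h
    rw [ψ_zero (by linarith)]
    simp
  | succ n ih =>
    push_cast at h
    have h1 := ih (by linarith)
    unfold fn at h1 ⊢
    rw [Finset.sum_range_succ, ← add_assoc, h1, uu_one hj (by linarith)]
    ring

theorem ff_val {W W' : ℕ → Prop} (hj : Walk W W' j) (n : ℕ) {t : ℝ} (h1 : (n : ℝ) ≤ t)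
    (h2 : t ≤ n + 1) : ff j t = j n + uu j n (t - n) := by
  rw [ff_eq j (n := n + 1) (by push_cast; exact h2)]
  have := fn_val hj n h1
  unfold fn at this ⊢
  rw [Finset.sum_range_succ, ← add_assoc, this]

theorem ff_nat {W W' : ℕ → Prop} (hj : Walk W W' j) (n : ℕ) : ff j n = j n := by
  rw [ff_val hj n le_rfl (by linarith)]
  unfold uu
  rw [gg_zero j (by simp)]
  simp

theorem ff_neg {t : ℝ} (h : t ≤ 0) : ff j t = j 0 - ψ (-t) / 2 := by
  rw [ff_eq j (n := 0) (by simpa using h)]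
  simp [fn]

theorem ff_pre {W W' : ℕ → Prop} (hj : Walk W W' j) (h0 : Even (j 0)) :
    AW W = (ff j) ⁻¹' AW W' := by
  ext t
  rw [mem_preimage]
  rcases lt_or_ge t 0 with ht | ht
  · refine iff_of_false (AW_neg ht) ?_
    rw [ff_neg ht.le]
    have h1 := ψ_pos (t := -t) (by linarith)
    have h2 := ψ_le_one (-t)
    rcases Nat.eq_zero_or_pos (j 0) with h3 | h3
    · apply AW_neg
      rw [h3]; push_cast; linarith
    · obtain ⟨m, hm⟩ : ∃ m, j 0 = m + 1 := ⟨j 0 - 1, by omega⟩
      have h4 : ((j 0 : ℕ) : ℝ) = m + 1 := by exact_mod_cast hm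
      rw [AW_mid (n := m) (by rw [h4]; linarith) (by rw [h4]; linarith)]
      rw [hm, Nat.even_add_one] at h0
      exact h0
  · set n := ⌊t⌋₊ with hn
    have h1 : (n : ℝ) ≤ t := Nat.floor_le ht
    have h2 : t < n + 1 := Nat.lt_floor_add_one t
    rcases eq_or_lt_of_le h1 with h3 | h3
    · rw [← h3, ff_nat hj, AW_nat, AW_nat]
      exact (hj.lab n).symm
    · rw [AW_mid h3 h2, ff_val hj n h1 h2.le]
      obtain ⟨g1, g2⟩ := gg_mem j (i := n) (t := t - n) (by linarith) (by linarith)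
      unfold uu sg
      split_ifs with hp
      · rw [AW_mid (n := j n) (by linarith) (by linarith)]
        exact hp.symm
      · rcases Nat.eq_zero_or_pos (j n) with h5 | h5
        · refine iff_of_false ?_ ?_
          · intro he
            apply hp
            rw [h5]
            simp [he]
          · apply AW_neg
            rw [h5]; push_cast; linarith
        · obtain ⟨m, hm⟩ : ∃ m, j n = m + 1 := ⟨j n - 1, by omega⟩
          have h6 : ((j n : ℕ) : ℝ) = m + 1 := by exact_mod_cast hm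
          rw [AW_mid (n := m) (by rw [h6]; linarith) (by rw [h6]; linarith)]
          rw [hm, Nat.even_add_one] at hp
          tauto

theorem uu_lip {K : NNReal} (hK : LipschitzWith K ψ) (i : ℕ) (s t : ℝ) :
    |uu j i t - uu j i s| ≤ K * |t - s| := by
  have hb : |ψ t - ψ s| ≤ K * |t - s| := by
    have := hK.dist_le_mul t s
    rwa [Real.dist_eq, Real.dist_eq] at this
  unfold uu
  rw [← mul_sub, abs_mul, abs_sg, one_mul]
  unfold gg
  split_ifs
  · have h1 := ψ_nonneg t
    have h2 := ψ_le_one t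
    have h3 := ψ_nonneg s
    have h4 := ψ_le_one s
    rw [show ψ t * (1 - ψ t) - ψ s * (1 - ψ s) = (ψ t - ψ s) * (1 - ψ t - ψ s) by ring, abs_mul]
    have h5 : |1 - ψ t - ψ s| ≤ 1 := by
      rw [abs_le]; constructor <;> linarith
    calc |ψ t - ψ s| * |1 - ψ t - ψ s| ≤ |ψ t - ψ s| * 1 := by gcongr
      _ = |ψ t - ψ s| := mul_one _
      _ ≤ _ := hb
  · exact hb

theorem ff_lip {W W' : ℕ → Prop} (hj : Walk W W' j) : ∃ K : NNReal, LipschitzWith K (ff j) := by
  obtain ⟨K, hK⟩ := ψ_lip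
  refine ⟨K, ?_⟩
  have key : ∀ n : ℕ, ∀ s t : ℝ, s ≤ t → t ≤ n → |ff j t - ff j s| ≤ K * (t - s) := by
    intro n
    induction n with
    | zero =>
      intro s t hst ht
      simp only [Nat.cast_zero] at ht
      rw [ff_neg ht, ff_neg (by linarith)]
      have hb : |ψ (-s) - ψ (-t)| ≤ K * |(-s) - (-t)| := by
        have := hK.dist_le_mul (-s) (-t)
        rwa [Real.dist_eq, Real.dist_eq] at this
      rw [show (-s) - (-t) = t - s by ring, abs_of_nonneg (by linarith : 0 ≤ t - s)] at hb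
      rw [show (j 0 : ℝ) - ψ (-t) / 2 - (j 0 - ψ (-s) / 2) = (ψ (-s) - ψ (-t)) / 2 by ring,
        abs_div]
      have h1 : |(2 : ℝ)| = 2 := abs_of_pos (by norm_num)
      rw [h1]
      have h2 : 0 ≤ |ψ (-s) - ψ (-t)| := abs_nonneg _
      linarith
    | succ n ih =>
      intro s t hst ht
      push_cast at ht
      have hcell : ∀ s t : ℝ, (n : ℝ) ≤ s → s ≤ t → t ≤ n + 1 →
          |ff j t - ff j s| ≤ K * (t - s) := by
        intro s t h1 h2 h3
        rw [ff_val hj n (by linarith) h3, ff_val hj n h1 (by linarith)]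
        have := uu_lip (j := j) hK n (s - n) (t - n)
        rw [show t - (n : ℝ) - (s - n) = t - s by ring, abs_of_nonneg (by linarith : 0 ≤ t - s)] at this
        rwa [show (j n : ℝ) + uu j n (t - n) - (j n + uu j n (s - n)) =
          uu j n (t - n) - uu j n (s - n) by ring]
      rcases le_or_gt t n with h1 | h1
      · exact ih s t hst h1
      · rcases le_or_gt (n : ℝ) s with h2 | h2
        · exact hcell s t h2 hst ht
        · have e1 := ih s n h2.le le_rfl
          have e2 := hcell n t le_rfl h1.le ht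
          calc |ff j t - ff j s| = |(ff j t - ff j n) + (ff j n - ff j s)| := by ring_nf
            _ ≤ |ff j t - ff j n| + |ff j n - ff j s| := abs_add_le _ _
            _ ≤ K * (t - n) + K * (n - s) := add_le_add e2 e1
            _ = K * (t - s) := by ring
  apply LipschitzWith.of_dist_le_mul
  intro x y
  rw [Real.dist_eq, Real.dist_eq]
  obtain ⟨n, hn⟩ := exists_nat_ge (max x y)
  rcases le_total x y with h | h
  · rw [abs_sub_comm, abs_sub_comm x y, abs_of_nonneg (by linarith : 0 ≤ y - x)]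
    exact key n x y h (le_trans (le_max_right x y) hn)
  · rw [abs_of_nonneg (by linarith : 0 ≤ x - y)]
    exact key n y x h (le_trans (le_max_left x y) hn)

end constr

theorem exists_reduction {W W' : ℕ → Prop} {j : ℕ → ℕ} (hj : Walk W W' j) (h0 : Even (j 0)) :
    ∃ f : ℝ → ℝ, ContDiff ℝ ∞ f ∧ (∃ K, LipschitzWith K f) ∧ AW W = f ⁻¹' AW W' :=
  ⟨ff j, ff_smooth j, ff_lip hj, ff_pre hj h0⟩

/-- coding subsets of `ℕ` -/
def Sx (x : Set ℕ) : Set ℕ := {k | Odd k ∨ k / 2 ∉ x}

theorem Sx_infinite (x : Set ℕ) : (Sx x).Infinite := by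
  have : (Set.range fun n : ℕ => 2 * n + 1).Infinite :=
    Set.infinite_range_of_injective (fun a b h => by simpa using h)
  apply this.mono
  rintro _ ⟨n, rfl⟩
  exact Or.inl ⟨n, rfl⟩

theorem Sx_diff (x y : Set ℕ) : (Sx y \ Sx x).Finite ↔ (x \ y).Finite := by
  have h : Sx y \ Sx x = (fun n => 2 * n) '' (x \ y) := by
    ext k
    simp only [Sx, mem_diff, mem_setOf_eq, mem_image]
    constructor
    · rintro ⟨h1, h2⟩
      push Not at h2
      obtain ⟨h2, h3⟩ := h2
      have h4 : k / 2 ∉ y := by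
        rcases h1 with h1 | h1
        · exact absurd h1 h2
        · exact h1
      rw [Nat.not_odd_iff_even] at h2
      exact ⟨k / 2, ⟨h3, h4⟩, Nat.two_mul_div_two_of_even h2⟩
    · rintro ⟨n, ⟨h1, h2⟩, rfl⟩
      refine ⟨Or.inr ?_, ?_⟩
      · rwa [Nat.mul_div_cancel_left n two_pos]
      · push Not
        refine ⟨by simp, ?_⟩
        rwa [Nat.mul_div_cancel_left n two_pos]
  rw [h]
  exact Set.finite_image_iff (fun a _ b _ h => by simpa using h)

theorem main : ∃ A : Set ℕ → Set ℝ, (∀ x, IsD2 (A x)) ∧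
    (∀ x y, (x \ y).Finite → ∃ f : ℝ → ℝ, ContDiff ℝ ∞ f ∧ (∃ K, LipschitzWith K f) ∧
      A x = f ⁻¹' A y) ∧
    (∀ x y, ∀ f : ℝ → ℝ, Continuous f → A x = f ⁻¹' A y → (x \ y).Finite) := by
  refine ⟨fun x => AW (Wd (Sx x)), fun x => isD2_AW _, ?_, ?_⟩
  · intro x y hxy
    obtain ⟨j, hj, h0⟩ := exists_walk (Sx_infinite x) (Sx_infinite y) ((Sx_diff x y).2 hxy)
    exact exists_reduction hj h0
  · intro x y f hf h
    obtain ⟨j, hj⟩ := walk_of_continuous hf h
    exact (Sx_diff x y).1 (finite_of_walk (Sx_infinite x) (Sx_infinite y) hj)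

end Pool.Q304.PF
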