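import Mathlib

/-!
Borel colourings for continuous free actions of countable groups and finite sets of group elements.
-/

set_option autoImplicit false

namespace Pool.Agent.Q304.GL

open MeasureTheory Set

section Mex

variable {X Γ : Type} (a : Γ → X → X) (S : Finset Γ) (c₀ : X → ℕ)

theorem mex_ex (c : X → ℕ) (x : X) : ∃ j, j ≤ S.card ∧ ∀ g ∈ S, c (a g x) ≠ j := by
  classical
  by_contra hcon
  push Not at hcon
  have h1 : Finset.range (S.card + 1) ⊆ S.image fun g => c (a g x) := by
    intro j hj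
    obtain ⟨g, hg, h⟩ := hcon j (Nat.lt_succ_iff.1 (Finset.mem_range.1 hj))
    exact Finset.mem_image.2 ⟨g, hg, h⟩
  have h2 := Finset.card_le_card h1
  rw [Finset.card_range] at h2
  have h3 := Finset.card_image_le (s := S) (f := fun g => c (a g x))
  omega

open Classical in
/-- the least colour not used by the neighbours -/
noncomputable def mex (c : X → ℕ) (x : X) : ℕ := Nat.find (mex_ex a S c x)

theorem mex_le (c : X → ℕ) (x : X) : mex a S c x ≤ S.card := by
  classical
  exact (Nat.find_spec (mex_ex a S c x)).1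

theorem mex_ne (c : X → ℕ) (x : X) {g : Γ} (hg : g ∈ S) : c (a g x) ≠ mex a S c x := by
  classical
  exact (Nat.find_spec (mex_ex a S c x)).2 g hg

/-- the stages of the greedy colouring -/
noncomputable def stage : ℕ → X → ℕ
  | 0 => fun _ => S.card + 1
  | n + 1 => fun x => if c₀ x = n then mex a S (stage n) x else stage n x

theorem stage_le {n : ℕ} {x : X} (h : c₀ x < n) : stage a S c₀ n x ≤ S.card := by
  induction n with
  | zero => omega
  | succ n ih =>
    simp only [stage]
    split_ifs with h1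
    · exact mex_le a S _ x
    · exact ih (by omega)

theorem stage_gt {n : ℕ} {x : X} (h : n ≤ c₀ x) : stage a S c₀ n x = S.card + 1 := by
  induction n with
  | zero => rfl
  | succ n ih =>
    simp only [stage]
    rw [if_neg (by omega)]
    exact ih (by omega)

theorem stage_stable {n m : ℕ} {x : X} (h : c₀ x < n) (hnm : n ≤ m) :
    stage a S c₀ m x = stage a S c₀ n x := by
  induction hnm with
  | refl => rfl
  | @step m hm ih =>
    rw [← ih]
    have hm' : n ≤ m := hm
    simp only [stage]
    rw [if_neg (by omega)]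

/-- the greedy colouring -/
noncomputable def greedy (x : X) : ℕ := stage a S c₀ (c₀ x + 1) x

theorem greedy_ne {x : X} {g : Γ} (hg : g ∈ S) (h : c₀ (a g x) < c₀ x) :
    greedy a S c₀ (a g x) ≠ greedy a S c₀ x := by
  have h1 : greedy a S c₀ x = mex a S (stage a S c₀ (c₀ x)) x := by
    simp [greedy, stage]
  have h2 : greedy a S c₀ (a g x) = stage a S c₀ (c₀ x) (a g x) :=
    (stage_stable a S c₀ (Nat.lt_succ_self _) (by omega)).symm
  rw [h1, h2]
  exact mex_ne a S _ x hg

theorem greedy_le (x : X) : greedy a S c₀ x ≤ S.card :=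
  stage_le a S c₀ (Nat.lt_succ_self _)

variable [MeasurableSpace X]

theorem measurable_stage (ha : ∀ g, Measurable (a g)) (hc : Measurable c₀) (n : ℕ) :
    Measurable (stage a S c₀ n) := by
  classical
  induction n with
  | zero => exact measurable_const
  | succ n ih =>
    have h1 : Measurable (mex a S (stage a S c₀ n)) := by
      refine measurable_to_countable' fun j => ?_
      have h2 : mex a S (stage a S c₀ n) ⁻¹' {j} =
          {x | j ≤ S.card ∧ (∀ g ∈ S, stage a S c₀ n (a g x) ≠ j)} ∩
          {x | ∀ i < j, ∃ g ∈ S, stage a S c₀ n (a g x) = i} := by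
        ext x
        simp only [mem_preimage, mem_singleton_iff, mem_inter_iff]
        unfold mex
        rw [Nat.find_eq_iff]
        constructor
        · rintro ⟨h3, h4⟩
          refine ⟨h3, fun i hi => ?_⟩
          have h5 := h4 i hi
          by_contra hcon
          push Not at hcon
          exact h5 ⟨by have := h3.1; omega, hcon⟩
        · rintro ⟨h3, h4⟩
          refine ⟨h3, fun i hi h5 => ?_⟩
          obtain ⟨g, hg, h6⟩ := h4 i hi
          exact h5.2 g hg h6
      rw [h2]
      have h3 : ∀ (g : Γ) (i : ℕ), MeasurableSet {x | stage a S c₀ n (a g x) = i} := fun g i =>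
        (ih.comp (ha g)) (measurableSet_singleton i)
      refine MeasurableSet.inter ?_ ?_
      · have h4 : {x | j ≤ S.card ∧ (∀ g ∈ S, stage a S c₀ n (a g x) ≠ j)} =
            {_x | j ≤ S.card} ∩ ⋂ g ∈ S, {x | stage a S c₀ n (a g x) = j}ᶜ := by
          ext x
          simp
        rw [h4]
        exact (MeasurableSet.const _).inter
          (Finset.measurableSet_biInter S fun g _ => (h3 g j).compl)
      · have h4 : {x | ∀ i < j, ∃ g ∈ S, stage a S c₀ n (a g x) = i} =
            ⋂ i ∈ Finset.range j, ⋃ g ∈ S, {x | stage a S c₀ n (a g x) = i} := by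
          ext x
          simp
        rw [h4]
        exact Finset.measurableSet_biInter _ fun i _ => Finset.measurableSet_biUnion S fun g _ => h3 g i
    simp only [stage]
    exact Measurable.ite (hc (measurableSet_singleton n)) h1 ih

theorem measurable_greedy (ha : ∀ g, Measurable (a g)) (hc : Measurable c₀) :
    Measurable (greedy a S c₀) := by
  have h1 : Measurable (fun p : ℕ × X => stage a S c₀ (p.1 + 1) p.2) :=
    measurable_from_prod_countable_right fun n => measurable_stage a S c₀ ha hc (n + 1)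
  exact h1.comp (hc.prodMk measurable_id)

end Mex

/-- Borel colourings -/
theorem exists_coloring {X Γ : Type} [AddGroup Γ] [TopologicalSpace X] [T2Space X]
    [SecondCountableTopology X] [MeasurableSpace X] [BorelSpace X] (a : Γ → X → X)
    (h0 : ∀ x, a 0 x = x) (hadd : ∀ g h x, a (g + h) x = a g (a h x))
    (hc : ∀ g, Continuous (a g)) (hfree : ∀ g x, a g x = x → g = 0) (S : Finset Γ)
    (hS : 0 ∉ S) : ∃ (m : ℕ) (c : X → Fin m), Measurable c ∧ ∀ g ∈ S, ∀ x, c (a g x) ≠ c x := by
  classical
  -- symmetric set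
  let S' : Finset Γ := S ∪ S.image fun g => -g
  have hS' : 0 ∉ S' := by
    intro h
    rcases Finset.mem_union.1 h with h | h
    · exact hS h
    · obtain ⟨g, hg, h⟩ := Finset.mem_image.1 h
      rw [neg_eq_zero] at h
      exact hS (h ▸ hg)
  have hsym : ∀ g ∈ S', -g ∈ S' := by
    intro g hg
    rcases Finset.mem_union.1 hg with h | h
    · exact Finset.mem_union_right _ (Finset.mem_image_of_mem _ h)
    · obtain ⟨k, hk, rfl⟩ := Finset.mem_image.1 h
      rw [neg_neg]
      exact Finset.mem_union_left _ hk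
  -- open cover
  have hU : ∀ x : X, ∃ U ∈ TopologicalSpace.countableBasis X, x ∈ U ∧
      ∀ g ∈ S', ∀ y ∈ U, a g y ∉ U := by
    intro x
    have h1 : ∀ g ∈ S', ∃ V : Set X, IsOpen V ∧ x ∈ V ∧ ∀ y ∈ V, a g y ∉ V := by
      intro g hg
      have hne : a g x ≠ x := fun h => hS' (hfree g x h ▸ hg)
      obtain ⟨V, W, hV, hW, hxV, hxW, hVW⟩ := t2_separation hne
      refine ⟨W ∩ a g ⁻¹' V, hW.inter (hV.preimage (hc g)), ⟨hxW, hxV⟩, ?_⟩
      rintro y ⟨-, hy⟩ ⟨hy', -⟩
      exact Set.disjoint_left.1 hVW hy hy'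
    choose! V hV1 hV2 hV3 using h1
    have hopen : IsOpen (⋂ g ∈ S', V g) := isOpen_biInter_finset fun g hg => hV1 g hg
    have hmem : x ∈ ⋂ g ∈ S', V g := mem_iInter₂.2 fun g hg => hV2 g hg
    obtain ⟨U, hU1, hU2, hU3⟩ :=
      (TopologicalSpace.isBasis_countableBasis X).exists_subset_of_mem_open hmem hopen
    refine ⟨U, hU1, hU2, fun g hg y hy hy' => ?_⟩
    exact hV3 g hg y (mem_iInter₂.1 (hU3 hy) g hg) (mem_iInter₂.1 (hU3 hy') g hg)
  rcases isEmpty_or_nonempty X with hX | hX
  · exact ⟨0, fun x => (hX.false x).elim, measurable_of_empty _, fun g _ x => (hX.false x).elim⟩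
  -- enumerate
  let 𝒰 : Set (Set X) := {U ∈ TopologicalSpace.countableBasis X | ∀ g ∈ S', ∀ y ∈ U, a g y ∉ U}
  have h𝒰c : 𝒰.Countable :=
    (TopologicalSpace.countable_countableBasis X).mono fun U hU => hU.1
  have h𝒰n : 𝒰.Nonempty := by
    obtain ⟨x⟩ := hX
    obtain ⟨U, h1, -, h3⟩ := hU x
    exact ⟨U, h1, h3⟩
  obtain ⟨e, he⟩ := h𝒰c.exists_eq_range h𝒰n
  have he1 : ∀ n, MeasurableSet (e n) := by
    intro n
    have : e n ∈ 𝒰 := by rw [he]; exact ⟨n, rfl⟩
    exact ((TopologicalSpace.isBasis_countableBasis X).isOpen this.1).measurableSet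
  have he2 : ∀ n, ∀ g ∈ S', ∀ y ∈ e n, a g y ∉ e n := by
    intro n
    have : e n ∈ 𝒰 := by rw [he]; exact ⟨n, rfl⟩
    exact this.2
  have he3 : ∀ x, ∃ n, x ∈ e n := by
    intro x
    obtain ⟨U, h1, h2, h3⟩ := hU x
    have : U ∈ 𝒰 := ⟨h1, h3⟩
    rw [he] at this
    obtain ⟨n, rfl⟩ := this
    exact ⟨n, h2⟩
  let c₀ : X → ℕ := fun x => Nat.find (he3 x)
  have hc₀m : Measurable c₀ := by
    apply measurable_find
    exact he1
  have hc₀ : ∀ g ∈ S', ∀ x, c₀ (a g x) ≠ c₀ x := by
    intro g hg x h
    have h1 : x ∈ e (c₀ x) := Nat.find_spec (he3 x)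
    have h2 : a g x ∈ e (c₀ (a g x)) := Nat.find_spec (he3 (a g x))
    rw [h] at h2
    exact he2 _ g hg x h1 h2
  have ham : ∀ g, Measurable (a g) := fun g => (hc g).measurable
  refine ⟨S'.card + 1, fun x => ⟨greedy a S' c₀ x, Nat.lt_succ_of_le (greedy_le a S' c₀ x)⟩, ?_, ?_⟩
  · refine measurable_to_countable' fun j => ?_
    have h1 := measurable_greedy a S' c₀ ham hc₀m (measurableSet_singleton (j : ℕ))
    convert h1 using 1
    ext x
    simp [Fin.ext_iff]
  · intro g hg x h
    have h' : greedy a S' c₀ (a g x) = greedy a S' c₀ x := congrArg Fin.val h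
    have hg' : g ∈ S' := Finset.mem_union_left _ hg
    rcases lt_or_gt_of_ne (hc₀ g hg' x) with h1 | h1
    · exact greedy_ne a S' c₀ hg' h1 h'
    · have h2 : a (-g) (a g x) = x := by rw [← hadd, neg_add_cancel, h0]
      have h3 := greedy_ne a S' c₀ (x := a g x) (hsym g hg') (by rw [h2]; exact h1)
      rw [h2] at h3
      exact h3 h'.symm

end Pool.Agent.Q304.GL
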