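import Pool.Agent.W927.MT.Defs
import Pool.Agent.W538.MT.Form

/-!
Generators of `ℤ^d`, the grid, and isomorphisms of balls.
-/

set_option autoImplicit false

namespace Pool.Agent.Q304.GL

open Pool.Agent.W927.MT (RG RGType ball mem_ball_self ballRG)

/-- the generators `± e_i` -/
abbrev Gen (d : ℕ) : Type := Fin d × Bool

/-- the vector of a generator -/
def vec {d : ℕ} (g : Gen d) : Fin d → ℤ := Pi.single g.1 (if g.2 then 1 else -1)

/-- the opposite generator -/
def ng {d : ℕ} (g : Gen d) : Gen d := (g.1, !g.2)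

variable {d : ℕ}

theorem vec_ng (g : Gen d) : vec (ng g) = - vec g := by
  obtain ⟨i, b⟩ := g
  unfold vec ng
  cases b <;> simp [← Pi.single_neg]

theorem ng_ng (g : Gen d) : ng (ng g) = g := by
  obtain ⟨i, b⟩ := g
  simp [ng]

theorem ng_ne (g : Gen d) : ng g ≠ g := by
  obtain ⟨i, b⟩ := g
  cases b <;> simp [ng]

theorem vec_apply (g : Gen d) (j : Fin d) :
    vec g j = if j = g.1 then (if g.2 then 1 else -1) else 0 := by
  unfold vec
  rw [Pi.single_apply]

theorem vec_inj {g h : Gen d} (H : vec g = vec h) : g = h := by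
  obtain ⟨i, b⟩ := g
  obtain ⟨j, c⟩ := h
  have h1 := congrFun H i
  rw [vec_apply, vec_apply] at h1
  simp only [if_true] at h1
  by_cases hij : i = j
  · subst hij
    simp only [if_true] at h1
    cases b <;> cases c <;> simp_all
  · rw [if_neg hij] at h1
    cases b <;> simp at h1

theorem vec_ne_zero (g : Gen d) : vec g ≠ 0 := by
  obtain ⟨i, b⟩ := g
  intro H
  have h1 := congrFun H i
  rw [vec_apply] at h1
  cases b <;> simp at h1

theorem vec_ne_neg (g : Gen d) : vec g ≠ - vec g := by
  rw [← vec_ng]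
  intro h
  exact ng_ne g (vec_inj h).symm

theorem vec_eq_neg {g h : Gen d} (H : vec g + vec h = 0) : g = ng h := by
  apply vec_inj
  rw [vec_ng]
  exact eq_neg_of_add_eq_zero_left H

/-- a nonzero sum of two generators determines them -/
theorem vec_add {a b a' b' : Gen d} (h : vec a + vec b = vec a' + vec b') (hb : b ≠ b')
    (h0 : vec a + vec b ≠ 0) : a = b' ∧ b = a' := by
  have key : b = a' := by
    by_contra hba
    -- evaluate at the coordinate of `b`
    have hcoord : ∀ j, vec a j + vec b j = vec a' j + vec b' j := fun j => congrFun h j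
    have hb1 := hcoord b.1
    have e1 : vec b b.1 = if b.2 then 1 else -1 := by rw [vec_apply, if_pos rfl]
    -- contributions
    have c1 : vec a' b.1 ≠ vec b b.1 := by
      intro h1
      apply hba
      rw [e1, vec_apply] at h1
      by_cases h2 : b.1 = a'.1
      · rw [if_pos h2] at h1
        refine Prod.ext h2 ?_
        cases hb2 : b.2 <;> cases ha2 : a'.2 <;> simp_all
      · rw [if_neg h2] at h1
        cases hb2 : b.2 <;> simp_all
    have c2 : vec b' b.1 ≠ vec b b.1 := by
      intro h1
      apply hb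
      rw [e1, vec_apply] at h1
      by_cases h2 : b.1 = b'.1
      · rw [if_pos h2] at h1
        refine Prod.ext h2 ?_
        cases hb2 : b.2 <;> cases ha2 : b'.2 <;> simp_all
      · rw [if_neg h2] at h1
        cases hb2 : b.2 <;> simp_all
    have val : ∀ (g : Gen d) (j : Fin d), vec g j = 0 ∨ vec g j = 1 ∨ vec g j = -1 := by
      intro g j
      rw [vec_apply]
      split_ifs <;> simp
    have e2 : vec b b.1 = 1 ∨ vec b b.1 = -1 := by
      rw [e1]
      split_ifs <;> simp
    -- `a` must be opposite to `b`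
    have c3 : vec a b.1 = - vec b b.1 := by
      rcases val a b.1 with h1 | h1 | h1 <;> rcases e2 with h2 | h2 <;>
      rcases val a' b.1 with h3 | h3 | h3 <;> rcases val b' b.1 with h4 | h4 | h4 <;> omega
    have c4 : a = ng b := by
      rw [e1, vec_apply] at c3
      by_cases h2 : b.1 = a.1
      · rw [if_pos h2] at c3
        refine Prod.ext h2.symm ?_
        change a.2 = !b.2
        cases hb2 : b.2 <;> cases ha2 : a.2 <;> simp_all
      · rw [if_neg h2] at c3
        cases hb2 : b.2 <;> simp_all
    apply h0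
    rw [c4, vec_ng, neg_add_cancel]
  refine ⟨?_, key⟩
  subst key
  apply vec_inj
  have : vec a + vec b = vec b' + vec b := by rw [h, add_comm]
  exact add_right_cancel this

/-- induction along the generators -/
theorem gen_induction (Q : (Fin d → ℤ) → Prop) (h0 : Q 0) (hs : ∀ v g, Q v → Q (v + vec g)) :
    ∀ v, Q v := by
  have key : ∀ (n : ℕ) (v : Fin d → ℤ), (∑ i, (v i).natAbs) = n → Q v := by
    intro n
    induction n using Nat.strong_induction_on with
    | _ n ih =>
      intro v hv
      by_cases hv0 : v = 0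
      · rw [hv0]; exact h0
      · obtain ⟨i, hi⟩ : ∃ i, v i ≠ 0 := by
          by_contra hcon
          push Not at hcon
          exact hv0 (funext hcon)
        obtain ⟨g, hg1, hg2⟩ : ∃ g : Gen d, g.1 = i ∧ (v i - vec g i).natAbs + 1 = (v i).natAbs := by
          rcases lt_or_gt_of_ne hi with h | h
          · refine ⟨(i, false), rfl, ?_⟩
            rw [vec_apply]
            simp
            omega
          · refine ⟨(i, true), rfl, ?_⟩
            rw [vec_apply]
            simp
            omega
        have h1 : (∑ j, ((v - vec g) j).natAbs) < n := by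
          rw [← hv]
          refine Finset.sum_lt_sum ?_ ⟨i, Finset.mem_univ _, ?_⟩
          · intro j _
            by_cases hj : j = i
            · subst hj
              change (v j - vec g j).natAbs ≤ _
              omega
            · change (v j - vec g j).natAbs ≤ _
              rw [vec_apply, if_neg (by rw [hg1]; exact hj), sub_zero]
          · change (v i - vec g i).natAbs < _
            omega
        have h2 := ih _ h1 (v - vec g) rfl
        have h3 := hs _ g h2
        rwa [sub_add_cancel] at h3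
  exact fun v => key _ v rfl

/-- the grid -/
def grid (d : ℕ) : SimpleGraph (Fin d → ℤ) where
  Adj v w := ∃ g : Gen d, w = v + vec g
  symm := ⟨by
    rintro v w ⟨g, rfl⟩
    exact ⟨ng g, by rw [vec_ng, add_neg_cancel_right]⟩⟩
  loopless := ⟨by
    rintro v ⟨g, hg⟩
    exact vec_ne_zero g (by simpa using hg)⟩

theorem grid_adj (v : Fin d → ℤ) (g : Gen d) : (grid d).Adj v (v + vec g) := ⟨g, rfl⟩

theorem ball_mono {V : Type} {G : SimpleGraph V} {n m : ℕ} (h : n ≤ m) {v w : V}
    (hw : w ∈ ball G n v) : w ∈ ball G m v := by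
  obtain ⟨p, hp⟩ := hw
  exact ⟨p, hp.trans h⟩

theorem ball_adj {V : Type} {G : SimpleGraph V} {n : ℕ} {v w u : V}
    (hw : w ∈ ball G n v) (h : G.Adj w u) : u ∈ ball G (n + 1) v := by
  obtain ⟨p, hp⟩ := hw
  exact ⟨p.concat h, by rw [SimpleGraph.Walk.length_concat]; omega⟩

theorem ball_succ {V : Type} {G : SimpleGraph V} {n : ℕ} {v u : V}
    (hu : u ∈ ball G (n + 1) v) : u ∈ ball G n v ∨ ∃ w ∈ ball G n v, G.Adj w u := by
  obtain ⟨p, hp⟩ := hu
  by_cases hnil : p.Nil
  · left
    obtain rfl := hnil.eq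
    exact mem_ball_self G n _
  · right
    refine ⟨p.penultimate, ⟨p.dropLast, ?_⟩, p.adj_penultimate hnil⟩
    rw [SimpleGraph.Walk.length_dropLast]
    omega

theorem ball_zero {V : Type} {G : SimpleGraph V} {v u : V} (hu : u ∈ ball G 0 v) : u = v := by
  obtain ⟨p, hp⟩ := hu
  exact (SimpleGraph.Walk.eq_of_length_eq_zero (Nat.le_zero.1 hp)).symm

theorem finite_ball (n : ℕ) (v : Fin d → ℤ) : (ball (grid d) n v).Finite := by
  induction n with
  | zero => exact (Set.finite_singleton v).subset fun u hu => ball_zero hu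
  | succ n ih =>
    refine (ih.union (Set.Finite.image2 (fun w (g : Gen d) => w + vec g) ih
      (Set.finite_univ (α := Gen d)))).subset ?_
    intro u hu
    rcases ball_succ hu with h | ⟨w, hw, g, rfl⟩
    · left; exact h
    · right; exact ⟨w, hw, g, Set.mem_univ _, rfl⟩

/-- transport of balls under embeddings onto a union of components -/
theorem ball_map {V V' : Type} {G : SimpleGraph V} {G' : SimpleGraph V'} (φ : V → V')
    (hadj : ∀ v w, G.Adj v w → G'.Adj (φ v) (φ w)) {n : ℕ} {v u : V} (hu : u ∈ ball G n v) :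
    φ u ∈ ball G' n (φ v) := by
  induction n generalizing u with
  | zero => rw [ball_zero hu]; exact mem_ball_self _ _ _
  | succ n ih =>
    rcases ball_succ hu with h | ⟨w, hw, h⟩
    · exact ball_mono (Nat.le_succ n) (ih h)
    · exact ball_adj (ih hw) (hadj _ _ h)

theorem ball_lift {V V' : Type} {G : SimpleGraph V} {G' : SimpleGraph V'} (φ : V → V')
    (hlift : ∀ v y, G'.Adj (φ v) y → ∃ w, φ w = y ∧ G.Adj v w) {n : ℕ} {v : V} {y : V'}
    (hy : y ∈ ball G' n (φ v)) : ∃ w, φ w = y ∧ w ∈ ball G n v := by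
  induction n generalizing y with
  | zero => exact ⟨v, (ball_zero hy).symm, mem_ball_self _ _ _⟩
  | succ n ih =>
    rcases ball_succ hy with h | ⟨z, hz, h⟩
    · obtain ⟨w, h1, h2⟩ := ih h
      exact ⟨w, h1, ball_mono (Nat.le_succ n) h2⟩
    · obtain ⟨w, rfl, h2⟩ := ih hz
      obtain ⟨w', h3, h4⟩ := hlift _ _ h
      exact ⟨w', h3, ball_adj h2 h4⟩

theorem ball_iso {V V' : Type} {G : SimpleGraph V} {G' : SimpleGraph V'} (φ : V → V')
    (hinj : Function.Injective φ) (hadj : ∀ v w, G.Adj v w ↔ G'.Adj (φ v) (φ w))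
    (hlift : ∀ v y, G'.Adj (φ v) y → ∃ w, φ w = y) {k : ℕ} (r : ℕ) (F : V' → Fin k) (v : V) :
    RG.Iso (ballRG G r (fun w => F (φ w)) v) (ballRG G' r F (φ v)) := by
  have hlift' : ∀ v y, G'.Adj (φ v) y → ∃ w, φ w = y ∧ G.Adj v w := by
    intro v y hy
    obtain ⟨w, rfl⟩ := hlift v y hy
    exact ⟨w, rfl, (hadj _ _).2 hy⟩
  let ψ : ball G r v → ball G' r (φ v) := fun w =>
    ⟨φ w.1, ball_map φ (fun a b h => (hadj a b).1 h) w.2⟩
  have hψ : Function.Bijective ψ := by
    constructor
    · intro a b h
      exact Subtype.ext (hinj (congrArg Subtype.val h))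
    · rintro ⟨y, hy⟩
      obtain ⟨w, rfl, hw⟩ := ball_lift φ hlift' hy
      exact ⟨⟨w, hw⟩, rfl⟩
  refine ⟨⟨Equiv.ofBijective ψ hψ, ?_⟩, rfl, fun w => rfl⟩
  intro a b
  exact (hadj a.1 b.1).symm

end Pool.Agent.Q304.GL
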