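import Pool.Agent.Q304.GL2
import Pool.Agent.W927.BM.Main
import Pool.Agent.W927.BM.Win

/-!
The labelling problem on the undirected grid and the analysis of its solutions.
-/

set_option autoImplicit false

namespace Pool.Agent.Q304.GL

open Pool.Agent.W927.MT (RG RGType ball mem_ball_self ballRG)
open Pool.Agent.W927.BM (Lab Rule Rule_congr)

/-- A locally checkable labelling problem: labels `Fin k`, a radius `r` and a set of isomorphism
types of finite rooted labelled graphs of radius at most `r`. -/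
structure LCL where
  /-- the number of labels -/
  k : ℕ
  /-- the radius -/
  r : ℕ
  /-- the allowed isomorphism types -/
  P : Set (RGType k)
  /-- they are types of finite rooted graphs of radius at most `r` -/
  small : ∀ B : RG k, Quotient.mk (RG.setoid k) B ∈ P →
    Finite B.W ∧ ∀ w, w ∈ ball B.G r B.root

section

variable {d m k : ℕ} (hd : 2 ≤ d) (eL : Fin k ≃ Fin m × (Fin m → Gen d) × Lab)

/-- colour of a label -/
def co (l : Fin k) : Fin m := (eL l).1

/-- direction table of a label -/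
def dir (l : Fin k) : Fin m → Gen d := (eL l).2.1

/-- the label of the problem on the directed grid -/
def lb (l : Fin k) : Lab := (eL l).2.2

/-- first generator -/
def g1 : Gen d := (⟨0, by omega⟩, true)

/-- second generator -/
def g2 : Gen d := (⟨1, by omega⟩, true)

/-- the rule for labellings of the grid at the origin -/
def Nice (l : (Fin d → ℤ) → Fin k) : Prop :=
  (∀ v ∈ ball (grid d) 5 0, ∀ g : Gen d, dir eL (l v) (co eL (l (v + vec g))) = g) ∧
    Rule (fun t x => lb eL (l (t • vec (g1 hd) + x • vec (g2 hd)))) 0 0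

/-- the allowed types -/
def allowed : Set (RGType k) :=
  {q | ∃ l : (Fin d → ℤ) → Fin k, Nice hd eL l ∧
    q = Quotient.mk (RG.setoid k) (ballRG (grid d) 6 l 0)}

theorem allowed_small (B : RG k) (h : Quotient.mk (RG.setoid k) B ∈ allowed hd eL) :
    Finite B.W ∧ ∀ w, w ∈ ball B.G 6 B.root := by
  obtain ⟨l, -, h2⟩ := h
  obtain ⟨e, he, -⟩ := Quotient.exact h2
  have hfin : Finite (ballRG (grid d) 6 l 0).W := (finite_ball 6 0).to_subtype
  refine ⟨Finite.of_injective e e.injective, ?_⟩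
  intro w
  have h1 : ∀ w, w ∈ ball (ballRG (grid d) 6 l 0).G 6 (ballRG (grid d) 6 l 0).root := by
    rintro ⟨u, p, hp⟩
    obtain ⟨q, hq⟩ := Pool.Agent.W538.MT.Form.walk_ball (grid d) 6 0 p.length u p rfl hp
    exact ⟨q, hq.trans hp⟩
  have h3 := ball_map (G := (ballRG (grid d) 6 l 0).G) (G' := B.G) e.symm
    (fun a b hab => (e.symm.map_adj_iff).2 hab) (h1 (e w))
  rw [← he] at h3
  simpa using h3

/-- the labelling problem -/
def prob : LCL where
  k := k
  r := 6
  P := allowed hd eL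
  small := allowed_small hd eL

variable {X : Type} (a : (Fin d → ℤ) → X → X) (h0 : ∀ x, a 0 x = x)
  (hadd : ∀ g h x, a (g + h) x = a g (a h x)) (hfree : ∀ g x, a g x = x → g = 0)
  (G : SimpleGraph X) (hG : ∀ x y, G.Adj x y ↔ ∃ g : Gen d, y = a (vec g) x)

include h0 hadd hfree

theorem act_inj {v w : Fin d → ℤ} {x : X} (h : a v x = a w x) : v = w := by
  have h1 : a (-w + v) x = x := by rw [hadd, h, ← hadd, neg_add_cancel, h0]
  have h2 := hfree _ _ h1
  rw [neg_add_eq_zero] at h2
  exact h2.symm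

include hG

/-- data extracted from the ball around a point -/
theorem extract (F : X → Fin k) {x : X}
    (hx : Quotient.mk (RG.setoid k) (ballRG G 6 F x) ∈ allowed hd eL) :
    ∃ (l : (Fin d → ℤ) → Fin k) (φ : (Fin d → ℤ) → X), Nice hd eL l ∧ φ 0 = x ∧
      (∀ v ∈ ball (grid d) 5 0, ∀ g : Gen d, G.Adj (φ v) (φ (v + vec g))) ∧
      (∀ v ∈ ball (grid d) 6 0, ∀ w ∈ ball (grid d) 6 0, φ v = φ w → v = w) ∧
      ∀ v ∈ ball (grid d) 6 0, F (φ v) = l v := by
  classical
  obtain ⟨l, hl, h2⟩ := hx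
  obtain ⟨e, he, hlab⟩ := Quotient.exact h2.symm
  -- `e` is an isomorphism from the ball of the grid to the ball of `G`
  let φ : (Fin d → ℤ) → X := fun v => if h : v ∈ ball (grid d) 6 0 then (e ⟨v, h⟩).1 else x
  have hφ : ∀ v (h : v ∈ ball (grid d) 6 0), φ v = (e ⟨v, h⟩).1 := fun v h => dif_pos h
  refine ⟨l, φ, hl, ?_, ?_, ?_, ?_⟩
  · rw [hφ 0 (mem_ball_self _ _ _)]
    exact congrArg Subtype.val he
  · intro v hv g
    have h6 : v + vec g ∈ ball (grid d) 6 0 := ball_adj hv (grid_adj v g)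
    have h5 : v ∈ ball (grid d) 6 0 := ball_mono (by omega) hv
    rw [hφ v h5, hφ _ h6]
    have h7 : (ballRG (grid d) 6 l 0).G.Adj ⟨v, h5⟩ ⟨v + vec g, h6⟩ := grid_adj v g
    exact (e.map_adj_iff).2 h7
  · intro v hv w hw h
    rw [hφ v hv, hφ w hw] at h
    have := e.injective (Subtype.ext h)
    exact congrArg Subtype.val this
  · intro v hv
    rw [hφ v hv]
    exact hlab ⟨v, hv⟩

/-- Analysis of the solutions on a set of orbits. -/
theorem analyse (F : X → Fin k) (Om : Set X) (hOm : ∀ v, ∀ x ∈ Om, a v x ∈ Om)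
    (hP : ∀ x ∈ Om, Quotient.mk (RG.setoid k) (ballRG G 6 F x) ∈ allowed hd eL) :
    ∃ s : X → Gen d → Gen d,
      (∀ x ∈ Om, ∀ g e, dir eL (F x) (co eL (F (a (vec g) x))) = e ↔ g = s x e) ∧
      (∀ x ∈ Om, Function.Injective (s x)) ∧
      (∀ x ∈ Om, ∀ v, s (a v x) = s x) ∧
      (∀ x ∈ Om, ∀ e, s x (ng e) = ng (s x e)) ∧
      ∀ x ∈ Om, Rule (fun t z => lb eL (F (a (t • vec (s x (g1 hd)) +
        z • vec (s x (g2 hd))) x))) 0 0 := by
  classical
  have hex : ∀ x : X, ∃ (l : (Fin d → ℤ) → Fin k) (φ : (Fin d → ℤ) → X), x ∈ Om →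
      (Nice hd eL l ∧ φ 0 = x ∧
      (∀ v ∈ ball (grid d) 5 0, ∀ g : Gen d, G.Adj (φ v) (φ (v + vec g))) ∧
      (∀ v ∈ ball (grid d) 6 0, ∀ w ∈ ball (grid d) 6 0, φ v = φ w → v = w) ∧
      ∀ v ∈ ball (grid d) 6 0, F (φ v) = l v) := by
    intro x
    by_cases hx : x ∈ Om
    · obtain ⟨l, φ, h⟩ := extract hd eL a h0 hadd hfree G hG F (hP x hx)
      exact ⟨l, φ, fun _ => h⟩
    · exact ⟨fun _ => F x, fun _ => x, fun h => absurd h hx⟩
  choose l φ hφ using hex
  have hnice : ∀ x ∈ Om, Nice hd eL (l x) := fun x hx => (hφ x hx).1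
  have hzero : ∀ x ∈ Om, φ x 0 = x := fun x hx => (hφ x hx).2.1
  have hadj : ∀ x ∈ Om, ∀ v ∈ ball (grid d) 5 0, ∀ g : Gen d, G.Adj (φ x v) (φ x (v + vec g)) :=
    fun x hx => (hφ x hx).2.2.1
  have hinj : ∀ x ∈ Om, ∀ v ∈ ball (grid d) 6 0, ∀ w ∈ ball (grid d) 6 0,
    φ x v = φ x w → v = w := fun x hx => (hφ x hx).2.2.2.1
  have hlab : ∀ x ∈ Om, ∀ v ∈ ball (grid d) 6 0, F (φ x v) = l x v :=
    fun x hx => (hφ x hx).2.2.2.2
  have b0 : ∀ n, (0 : Fin d → ℤ) ∈ ball (grid d) n 0 := fun n => mem_ball_self _ _ _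
  have b1 : ∀ g : Gen d, vec g ∈ ball (grid d) 1 0 := fun g => by
    have := ball_adj (b0 0) (grid_adj 0 g)
    rw [zero_add (vec g)] at this
    exact this
  -- the directions
  have hs : ∀ x : X, ∃ s : Gen d → Gen d, x ∈ Om → ∀ e, φ x (vec e) = a (vec (s e)) x := by
    intro x
    by_cases hx : x ∈ Om
    · have h1 : ∀ e : Gen d, ∃ g, φ x (vec e) = a (vec g) x := by
        intro e
        have h2 := hadj x hx 0 (b0 5) e
        rw [hzero x hx, zero_add] at h2
        exact (hG _ _).1 h2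
      choose s hs using h1
      exact ⟨s, fun _ => hs⟩
    · exact ⟨fun e => e, fun h => absurd h hx⟩
  choose s hs using hs
  have sinj : ∀ x ∈ Om, Function.Injective (s x) := by
    intro x hx e e' h
    have h1 : φ x (vec e) = φ x (vec e') := by rw [hs x hx, hs x hx, h]
    exact vec_inj (hinj x hx _ (ball_mono (by omega) (b1 e)) _ (ball_mono (by omega) (b1 e')) h1)
  have ssurj : ∀ x ∈ Om, Function.Surjective (s x) := fun x hx =>
    Finite.surjective_of_injective (sinj x hx)
  have hdir : ∀ x ∈ Om, ∀ g e, dir eL (F x) (co eL (F (a (vec g) x))) = e ↔ g = s x e := by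
    intro x hx g e
    obtain ⟨e', rfl⟩ := ssurj x hx g
    have h1 : F (a (vec (s x e')) x) = l x (vec e') := by
      rw [← hs x hx]
      exact hlab x hx _ (ball_mono (by omega) (b1 e'))
    have h2 : F x = l x 0 := by
      conv_lhs => rw [← hzero x hx]
      exact hlab x hx 0 (b0 6)
    have h3 := (hnice x hx).1 0 (b0 5) e'
    rw [zero_add] at h3
    rw [h1, h2, h3]
    exact ⟨fun h => by rw [h], fun h => sinj x hx h⟩
  -- points of the ball are in the orbit
  have horb : ∀ x ∈ Om, ∀ n ≤ 6, ∀ v ∈ ball (grid d) n 0, φ x v ∈ Om := by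
    intro x hx n
    induction n with
    | zero =>
      intro _ v hv
      rw [ball_zero hv, hzero x hx]
      exact hx
    | succ n ih =>
      intro hn v hv
      rcases ball_succ hv with h | ⟨w, hw, g, rfl⟩
      · exact ih (by omega) v h
      · have h1 := ih (by omega) w hw
        obtain ⟨g', hg'⟩ := (hG _ _).1 (hadj x hx w (ball_mono (by omega) hw) g)
        rw [hg']
        exact hOm _ _ h1
  -- one step
  have hstep : ∀ x ∈ Om, ∀ v ∈ ball (grid d) 5 0, ∀ e,
      φ x (v + vec e) = a (vec (s (φ x v) e)) (φ x v) := by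
    intro x hx v hv e
    have hz : φ x v ∈ Om := horb x hx 6 le_rfl v (ball_mono (by omega) hv)
    obtain ⟨g, hg⟩ := (hG _ _).1 (hadj x hx v hv e)
    have h1 : dir eL (F (φ x v)) (co eL (F (a (vec g) (φ x v)))) = e := by
      rw [← hg, hlab x hx v (ball_mono (by omega) hv),
        hlab x hx _ (ball_adj hv (grid_adj v e))]
      exact (hnice x hx).1 v hv e
    rw [hg, (hdir _ hz g e).1 h1]
  -- the directions of a neighbour
  have hng : ∀ x ∈ Om, ∀ e, s (φ x (vec e)) (ng e) = ng (s x e) := by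
    intro x hx e
    have h1 := hstep x hx (vec e) (ball_mono (by omega) (b1 e)) (ng e)
    rw [vec_ng, add_neg_cancel, hzero x hx] at h1
    have h2 : a (vec (s (φ x (vec e)) (ng e)) + vec (s x e)) x = a 0 x := by
      rw [hadd, ← hs x hx, ← h1, h0]
    exact vec_eq_neg (act_inj a h0 hadd hfree h2)
  have hother : ∀ x ∈ Om, ∀ e e', e' ≠ e → e' ≠ ng e → s (φ x (vec e)) e' = s x e' := by
    intro x hx e e' hne hne'
    have h1 := hstep x hx (vec e) (ball_mono (by omega) (b1 e)) e'
    have h2 := hstep x hx (vec e') (ball_mono (by omega) (b1 e')) e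
    have h3 : a (vec (s (φ x (vec e)) e') + vec (s x e)) x =
        a (vec (s (φ x (vec e')) e) + vec (s x e')) x := by
      rw [hadd, hadd, ← hs x hx, ← hs x hx, ← h1, ← h2, add_comm]
    have h4 := act_inj a h0 hadd hfree h3
    refine (vec_add h4 (fun h => hne (sinj x hx h).symm) ?_).1
    intro h5
    have h6 : φ x (vec e + vec e') = φ x 0 := by
      rw [h1, hzero x hx]
      conv_lhs => arg 2; rw [hs x hx]
      rw [← hadd, h5, h0]
    have h7 := hinj x hx _ (ball_adj (ball_mono (by omega) (b1 e)) (grid_adj (vec e) e')) 0 (b0 6) h6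
    apply hne'
    rw [← vec_eq_neg (g := e') (h := e) (by rw [add_comm]; exact h7)]
  have hnx : ∀ x ∈ Om, ∀ e, s x (ng e) = ng (s x e) := by
    intro x hx e
    obtain ⟨e2, he2⟩ := ssurj x hx (ng (s x e))
    have hz : φ x (vec e) ∈ Om := horb x hx 6 le_rfl _ (ball_mono (by omega) (b1 e))
    by_cases h1 : e2 = e
    · rw [h1] at he2
      exact absurd he2.symm (ng_ne _)
    · by_cases h2 : e2 = ng e
      · rw [← h2]; exact he2
      · have h3 := hother x hx e e2 h1 h2
        rw [he2, ← hng x hx e] at h3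
        exact absurd (sinj _ hz h3) h2
  have hsame : ∀ x ∈ Om, ∀ e, s (φ x (vec e)) = s x := by
    intro x hx e
    have hz : φ x (vec e) ∈ Om := horb x hx 6 le_rfl _ (ball_mono (by omega) (b1 e))
    have hne : ng e ≠ e := ng_ne e
    funext e'
    by_cases h1 : e' = e
    · rw [h1]
      obtain ⟨e3, he3⟩ := ssurj _ hz (s x e)
      by_cases h2 : e3 = e
      · rw [← h2]; rw [h2]; rw [h2] at he3; exact he3
      · by_cases h3 : e3 = ng e
        · rw [h3, hng x hx] at he3
          exact absurd he3 (ng_ne _)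
        · rw [hother x hx e e3 h2 h3] at he3
          exact absurd (sinj x hx he3) h2
    · by_cases h2 : e' = ng e
      · rw [h2, hng x hx, hnx x hx]
      · exact hother x hx e e' h1 h2
  have hconst : ∀ x ∈ Om, ∀ v, s (a v x) = s x := by
    intro x hx
    apply gen_induction
    · rw [h0]
    · intro v g ih
      have hv := hOm v x hx
      obtain ⟨e, he⟩ := ssurj _ hv g
      have h1 := hsame (a v x) hv e
      rw [hs _ hv, he, ← hadd] at h1
      rw [add_comm, h1, ih]
  -- walking straight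
  have hwalk : ∀ x ∈ Om, ∀ (e : Gen d) (v w : Fin d → ℤ) (m n : ℕ), m + n ≤ 6 →
      v ∈ ball (grid d) m 0 → φ x v = a w x →
      v + n • vec e ∈ ball (grid d) (m + n) 0 ∧
        φ x (v + n • vec e) = a (n • vec (s x e) + w) x := by
    intro x hx e v w m n
    induction n with
    | zero =>
      intro _ hv hw
      simpa using ⟨hv, hw⟩
    | succ n ih =>
      intro hn hv hw
      obtain ⟨h1, h2⟩ := ih (by omega) hv hw
      have e1 : v + (n + 1) • vec e = (v + n • vec e) + vec e := by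
        rw [succ_nsmul, add_assoc]
      rw [e1]
      refine ⟨ball_adj h1 (grid_adj _ _), ?_⟩
      rw [hstep x hx _ (ball_mono (by omega) h1), h2, hconst x hx, ← hadd]
      congr 1
      rw [succ_nsmul]
      abel
  have hwalkz : ∀ x ∈ Om, ∀ (e : Gen d) (v w : Fin d → ℤ) (m : ℕ) (t : ℤ), |t| ≤ 2 → m ≤ 2 →
      v ∈ ball (grid d) m 0 → φ x v = a w x →
      v + t • vec e ∈ ball (grid d) (m + 2) 0 ∧
        φ x (v + t • vec e) = a (t • vec (s x e) + w) x := by
    intro x hx e v w m t ht hm hv hw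
    rw [abs_le] at ht
    rcases le_total 0 t with h | h
    · obtain ⟨n, rfl⟩ := Int.eq_ofNat_of_zero_le h
      have hn : n ≤ 2 := by omega
      obtain ⟨h1, h2⟩ := hwalk x hx e v w m n (by omega) hv hw
      rw [natCast_zsmul, natCast_zsmul]
      exact ⟨ball_mono (by omega) h1, h2⟩
    · obtain ⟨n, hn'⟩ := Int.eq_ofNat_of_zero_le (show 0 ≤ -t by omega)
      have hn : n ≤ 2 := by omega
      obtain ⟨h1, h2⟩ := hwalk x hx (ng e) v w m n (by omega) hv hw
      have e1 : ∀ g : Gen d, n • vec (ng g) = t • vec g := by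
        intro g
        rw [vec_ng, ← natCast_zsmul, ← hn', neg_smul, smul_neg, neg_neg]
      rw [e1] at h1 h2
      rw [hnx x hx, e1] at h2
      exact ⟨ball_mono (by omega) h1, h2⟩
  refine ⟨s, hdir, sinj, hconst, hnx, ?_⟩
  intro x hx
  refine Rule_congr (t := 0) (x := 0) (t' := 0) (x' := 0) ?_ (hnice x hx).2
  intro t z ht hz
  rw [zero_add, zero_add]
  have h1 := hwalkz x hx (g1 hd) 0 0 0 t ht (by omega) (b0 0) (by rw [hzero x hx, h0])
  rw [zero_add (t • vec (g1 hd)), add_zero] at h1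
  have h2 := hwalkz x hx (g2 hd) (t • vec (g1 hd)) (t • vec (s x (g1 hd))) 2 z hz le_rfl h1.1 h1.2
  have h3 := hlab x hx _ (ball_mono (by omega) h2.1)
  rw [← h3, h2.2, add_comm (z • vec (s x (g2 hd)))]

end

end Pool.Agent.Q304.GL
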