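import Mathlib

/-! Transfinite differences of closed sets and the derivative of a pair of sets. -/

open Set Ordinal Topology Filter
open scoped Ordinal

namespace Pool.Q304.RK

/-- `(F_η)_{η<lam}` is a continuous decreasing sequence of closed sets with `F_0 = X`, extended by
`F_η = ∅` for `η ≥ lam`. -/
structure IsSeq {X : Type*} [TopologicalSpace X] (lam : Ordinal.{0})
    (F : Ordinal.{0} → Set X) : Prop where
  closed : ∀ η, IsClosed (F η)
  anti : ∀ η θ, η ≤ θ → F θ ⊆ F η
  zero : 0 < lam → F 0 = Set.univ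
  limit : ∀ η, η < lam → Order.IsSuccLimit η → F η = ⋂ (θ) (_ : θ < η), F θ
  vanish : Order.IsSuccLimit lam → ⋂ (θ) (_ : θ < lam), F θ = ∅
  beyond : ∀ η, lam ≤ η → F η = ∅

/-- even ordinals: limit ordinal (or zero) plus an even natural number -/
def IsEvenOrd (η : Ordinal.{0}) : Prop := ∃ (ζ : Ordinal.{0}) (n : ℕ), η = ω * ζ + (2 * n : ℕ)

/-- the transfinite difference -/
def tdiff {X : Type*} (lam : Ordinal.{0}) (F : Ordinal.{0} → Set X) : Set X :=
  {x | ∃ η < lam, IsEvenOrd η ∧ x ∈ F η \ F (η + 1)}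

/-- the set of lengths of separating sequences -/
def Lens {X : Type*} [TopologicalSpace X] (B C : Set X) : Set Ordinal.{0} :=
  {lam | ∃ F : Ordinal.{0} → Set X, IsSeq lam F ∧ B ⊆ tdiff lam F ∧ Disjoint (tdiff lam F) C}

/-- the least length -/
noncomputable def alpha1 {X : Type*} [TopologicalSpace X] (B C : Set X) : Ordinal.{0} :=
  sInf (Lens B C)

theorem zsl (θ : Ordinal.{0}) : θ = 0 ∨ (∃ η, η + 1 = θ) ∨ Order.IsSuccLimit θ := by
  rcases Ordinal.zero_or_succ_or_isSuccLimit θ with h | ⟨η, h⟩ | h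
  · exact Or.inl h
  · exact Or.inr (Or.inl ⟨η, by rw [← h, Order.succ_eq_add_one]⟩)
  · exact Or.inr (Or.inr h)

section

variable {X : Type*} [TopologicalSpace X]

/-- iterated derivative of a pair of sets -/
noncomputable def D (B C : Set X) (θ : Ordinal.{0}) : Set X :=
  {x | ∀ θ' (_ : θ' < θ), x ∈ closure (D B C θ' ∩ B) ∧ x ∈ closure (D B C θ' ∩ C)}
termination_by θ

theorem mem_D {B C : Set X} {θ : Ordinal.{0}} {x : X} :
    x ∈ D B C θ ↔ ∀ θ' < θ, x ∈ closure (D B C θ' ∩ B) ∧ x ∈ closure (D B C θ' ∩ C) := by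
  rw [D]; rfl

theorem D_anti {B C : Set X} {θ θ' : Ordinal.{0}} (h : θ ≤ θ') : D B C θ' ⊆ D B C θ := by
  intro x hx
  rw [mem_D] at hx ⊢
  exact fun η hη => hx η (lt_of_lt_of_le hη h)

theorem D_zero (B C : Set X) : D B C 0 = Set.univ := by
  ext x
  rw [mem_D]
  simp

theorem D_closed (B C : Set X) (θ : Ordinal.{0}) : IsClosed (D B C θ) := by
  have : D B C θ = ⋂ (θ' : Ordinal.{0}) (_ : θ' < θ),
      (closure (D B C θ' ∩ B) ∩ closure (D B C θ' ∩ C)) := by
    ext x
    rw [mem_D]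
    simp
  rw [this]
  exact isClosed_iInter fun _ => isClosed_iInter fun _ => isClosed_closure.inter isClosed_closure

theorem D_succ (B C : Set X) (θ : Ordinal.{0}) :
    D B C (θ + 1) = closure (D B C θ ∩ B) ∩ closure (D B C θ ∩ C) := by
  ext x
  rw [mem_D]
  constructor
  · intro h
    exact h θ (lt_add_one θ)
  · rintro ⟨h1, h2⟩ θ' hθ'
    have hle : θ' ≤ θ := Order.lt_add_one_iff.1 hθ'
    exact ⟨closure_mono (inter_subset_inter_left _ (D_anti hle)) h1,
      closure_mono (inter_subset_inter_left _ (D_anti hle)) h2⟩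

theorem mem_D_limit {B C : Set X} {θ : Ordinal.{0}} (h : Order.IsSuccLimit θ) {x : X}
    (hx : ∀ θ' < θ, x ∈ D B C θ') : x ∈ D B C θ := by
  rw [mem_D]
  intro θ' hθ'
  have h1 : θ' + 1 < θ := by
    rw [← Order.succ_eq_add_one]
    exact h.succ_lt hθ'
  have h2 := hx _ h1
  rw [D_succ] at h2
  exact h2

theorem D_mono {B C B' C' : Set X} (hB : B ⊆ B') (hC : C ⊆ C') (θ : Ordinal.{0}) :
    D B C θ ⊆ D B' C' θ := by
  induction θ using WellFoundedLT.induction with
  | _ θ ih =>
    intro x hx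
    rw [mem_D] at hx ⊢
    intro θ' hθ'
    obtain ⟨h1, h2⟩ := hx θ' hθ'
    exact ⟨closure_mono (inter_subset_inter (ih θ' hθ') hB) h1,
      closure_mono (inter_subset_inter (ih θ' hθ') hC) h2⟩

/-! ### ordinal representation -/

theorem rep (θ : Ordinal.{0}) : ∃ (ζ : Ordinal.{0}) (m : ℕ), θ = ω * ζ + m := by
  obtain ⟨m, hm⟩ := lt_omega0.1 (mod_lt θ (omega0_ne_zero))
  exact ⟨θ / ω, m, by rw [← hm, div_add_mod]⟩

theorem rep_le {ζ ζ' : Ordinal.{0}} {m m' : ℕ} (h : ω * ζ + m ≤ ω * ζ' + m') :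
    ζ < ζ' ∨ (ζ = ζ' ∧ m ≤ m') := by
  rcases lt_trichotomy ζ ζ' with h1 | h1 | h1
  · exact Or.inl h1
  · subst h1
    right
    refine ⟨rfl, ?_⟩
    exact_mod_cast (add_le_add_iff_left _).1 h
  · exfalso
    have h2 : ω * ζ' + m' < ω * ζ' + ω := (add_lt_add_iff_left _).2 (natCast_lt_omega0 m')
    have h3 : ω * ζ' + ω = ω * (ζ' + 1) := by rw [mul_add, mul_one]
    have h4 : ω * (ζ' + 1) ≤ ω * ζ := by
      gcongr
      exact Order.add_one_le_of_lt h1
    have h5 : ω * ζ ≤ ω * ζ + m := le_self_add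
    exact absurd (lt_of_lt_of_le (h3 ▸ h2) (h4.trans (h5.trans h))) (lt_irrefl _)

theorem rep_unique {ζ ζ' : Ordinal.{0}} {m m' : ℕ} (h : ω * ζ + m = ω * ζ' + m') :
    ζ = ζ' ∧ m = m' := by
  rcases rep_le h.le with h1 | ⟨h1, h2⟩
  · rcases rep_le h.ge with h3 | ⟨h3, _⟩
    · exact absurd (h1.trans h3) (lt_irrefl _)
    · exact absurd h3 h1.ne'
  · subst h1
    refine ⟨rfl, ?_⟩
    exact_mod_cast (add_right_inj _).1 h

theorem limit_add_nat {lam : Ordinal.{0}} (h : Order.IsSuccLimit lam) {θ : Ordinal.{0}}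
    (hθ : θ < lam) (n : ℕ) : θ + n < lam := by
  induction n with
  | zero => simpa using hθ
  | succ n ih =>
    have := h.succ_lt ih
    rw [Order.succ_eq_add_one] at this
    push_cast
    rwa [← add_assoc]

theorem limit_rep {lam : Ordinal.{0}} (h : Order.IsSuccLimit lam) {ζ : Ordinal.{0}} {m : ℕ}
    (hθ : ω * ζ + m < lam) (n : ℕ) : ω * ζ + n < lam :=
  limit_add_nat h (lt_of_le_of_lt le_self_add hθ) n

/-! ### from the derivative to sequences -/

/-- the sequence built from the derivative -/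
def FF (B C : Set X) (lam θ : Ordinal.{0}) : Set X :=
  {x | θ < lam ∧ ∀ (ζ : Ordinal.{0}) (m : ℕ), θ = ω * ζ + m →
    x ∈ D B C (ω * ζ + (m / 2 : ℕ)) ∧
      (m % 2 = 1 → x ∈ closure (D B C (ω * ζ + (m / 2 : ℕ)) ∩ C))}

theorem mem_FF {B C : Set X} {lam ζ : Ordinal.{0}} {m : ℕ} {x : X} :
    x ∈ FF B C lam (ω * ζ + m) ↔ ω * ζ + m < lam ∧ x ∈ D B C (ω * ζ + (m / 2 : ℕ)) ∧
      (m % 2 = 1 → x ∈ closure (D B C (ω * ζ + (m / 2 : ℕ)) ∩ C)) := by
  constructor
  · rintro ⟨h1, h2⟩
    exact ⟨h1, h2 ζ m rfl⟩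
  · rintro ⟨h1, h2⟩
    refine ⟨h1, fun ζ' m' h => ?_⟩
    obtain ⟨rfl, rfl⟩ := rep_unique h
    exact h2

theorem isSeq_FF {B C : Set X} {lam : Ordinal.{0}} (hl : Order.IsSuccLimit lam)
    (hD : D B C lam = ∅) : IsSeq lam (FF B C lam) := by
  have hanti : ∀ η θ, η ≤ θ → FF B C lam θ ⊆ FF B C lam η := by
    intro η θ hle x hx
    obtain ⟨ζ, m, rfl⟩ := rep η
    obtain ⟨ζ', m', rfl⟩ := rep θ
    rw [mem_FF] at hx ⊢
    obtain ⟨h1, h2, h3⟩ := hx
    refine ⟨lt_of_le_of_lt hle h1, ?_⟩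
    rcases rep_le hle with h4 | ⟨rfl, h4⟩
    · have h5 : ω * ζ + (m / 2 : ℕ) + 1 ≤ ω * ζ' + (m' / 2 : ℕ) := by
        have e1 : ω * ζ + (m / 2 : ℕ) + 1 ≤ ω * ζ + ω := by
          rw [add_assoc]
          gcongr
          exact_mod_cast (natCast_lt_omega0 (m / 2 + 1)).le
        have e2 : ω * ζ + ω = ω * (ζ + 1) := by rw [mul_add, mul_one]
        have e3 : ω * (ζ + 1) ≤ ω * ζ' := by
          gcongr
          exact Order.add_one_le_of_lt h4
        exact (e1.trans (e2.le.trans e3)).trans le_self_add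
      have h6 := D_anti (B := B) (C := C) h5 h2
      rw [D_succ] at h6
      refine ⟨?_, fun _ => h6.2⟩
      exact (D_closed B C _).closure_subset_iff.2 inter_subset_left h6.2
    · rcases eq_or_lt_of_le h4 with rfl | h5
      · exact ⟨h2, h3⟩
      · have hle2 : ω * ζ + ((m / 2 : ℕ) : Ordinal.{0}) ≤ ω * ζ + ((m' / 2 : ℕ) : Ordinal.{0}) := by
          gcongr
        refine ⟨D_anti hle2 h2, fun hodd => ?_⟩
        have h7 : m / 2 + 1 ≤ m' / 2 := by omega
        have h8 : ω * ζ + ((m / 2 : ℕ) : Ordinal.{0}) + 1 ≤ ω * ζ + ((m' / 2 : ℕ) : Ordinal.{0}) := by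
          rw [add_assoc]
          gcongr
          exact_mod_cast h7
        have h9 := D_anti (B := B) (C := C) h8 h2
        rw [D_succ] at h9
        exact h9.2
  have hlimD : ∀ η, Order.IsSuccLimit η → ∀ x, (∀ θ < η, x ∈ FF B C lam θ) → x ∈ D B C η := by
    intro η hη x hx
    apply mem_D_limit hη
    intro θ hθ
    obtain ⟨ζ, m, rfl⟩ := rep θ
    have h1 := hx _ (limit_rep hη hθ (2 * m))
    rw [mem_FF] at h1
    have := h1.2.1
    rwa [Nat.mul_div_cancel_left m two_pos] at this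
  refine ⟨?_, hanti, ?_, ?_, ?_, ?_⟩
  · intro η
    obtain ⟨ζ, m, rfl⟩ := rep η
    by_cases h : ω * ζ + m < lam
    · by_cases hm : m % 2 = 1
      · have : FF B C lam (ω * ζ + m) = D B C (ω * ζ + (m / 2 : ℕ)) ∩
            closure (D B C (ω * ζ + (m / 2 : ℕ)) ∩ C) := by
          ext x
          rw [mem_FF]
          simp [h, hm]
        rw [this]
        exact (D_closed _ _ _).inter isClosed_closure
      · have : FF B C lam (ω * ζ + m) = D B C (ω * ζ + (m / 2 : ℕ)) := by
          ext x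
          rw [mem_FF]
          simp [h, hm]
        rw [this]
        exact D_closed _ _ _
    · have : FF B C lam (ω * ζ + m) = ∅ := by
        ext x
        rw [mem_FF]
        simp [h]
      rw [this]
      exact isClosed_empty
  · intro h0
    ext x
    have h1 : (0 : Ordinal.{0}) = ω * 0 + (0 : ℕ) := by simp
    rw [h1, mem_FF]
    simp [h0, D_zero]
  · intro η hη hlim
    apply subset_antisymm
    · intro x hx
      simp only [mem_iInter]
      exact fun θ hθ => hanti θ η hθ.le hx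
    · intro x hx
      simp only [mem_iInter] at hx
      have h1 := hlimD η hlim x hx
      obtain ⟨ζ, m, rfl⟩ := rep η
      have hm : m = 0 := by
        by_contra hm
        obtain ⟨k, rfl⟩ : ∃ k, m = k + 1 := ⟨m - 1, by omega⟩
        have h2 : ω * ζ + ((k + 1 : ℕ) : Ordinal.{0}) = Order.succ (ω * ζ + (k : Ordinal.{0})) := by
          rw [Order.succ_eq_add_one]
          push_cast
          rw [add_assoc]
        rw [h2] at hlim
        exact Order.not_isSuccLimit_succ _ hlim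
      subst hm
      rw [mem_FF]
      exact ⟨hη, by simpa using h1, by simp⟩
  · intro _
    rw [eq_empty_iff_forall_notMem]
    intro x hx
    simp only [mem_iInter] at hx
    have h1 := hlimD lam hl x hx
    rw [hD] at h1
    exact h1
  · intro η hη
    rw [eq_empty_iff_forall_notMem]
    rintro x ⟨h, _⟩
    exact absurd (lt_of_lt_of_le h hη) (lt_irrefl _)

theorem lens_of_D {B C : Set X} {lam : Ordinal.{0}} (hl : Order.IsSuccLimit lam)
    (hD : D B C lam = ∅) : lam ∈ Lens B C := by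
  refine ⟨FF B C lam, isSeq_FF hl hD, ?_, ?_⟩
  · intro x hx
    -- least stage at which `x` disappears
    obtain ⟨θ0, h0, hmin⟩ : ∃ θ0, x ∉ D B C θ0 ∧ ∀ θ < θ0, x ∈ D B C θ := by
      have hne : {θ : Ordinal.{0} | x ∉ D B C θ}.Nonempty := ⟨lam, by
        change x ∉ D B C lam
        rw [hD]; exact notMem_empty x⟩
      refine ⟨sInf {θ : Ordinal.{0} | x ∉ D B C θ}, csInf_mem hne, fun θ hθ => ?_⟩
      by_contra hcon
      exact absurd (lt_of_lt_of_le hθ (csInf_le' hcon)) (lt_irrefl _)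
    have hθlam : θ0 ≤ lam := by
      by_contra hcon
      have := hmin lam (not_le.1 hcon)
      rw [hD] at this
      exact this
    rcases zsl θ0 with h1 | ⟨θ, h1⟩ | h1
    · rw [h1, D_zero] at h0
      exact absurd (mem_univ x) h0
    · have hθ : θ < θ0 := by rw [← h1]; exact lt_add_one θ
      have hθl : θ < lam := lt_of_lt_of_le hθ hθlam
      have hxθ := hmin θ hθ
      rw [← h1, D_succ] at h0
      have hxB : x ∈ closure (D B C θ ∩ B) := subset_closure ⟨hxθ, hx⟩
      have hxC : x ∉ closure (D B C θ ∩ C) := fun h => h0 ⟨hxB, h⟩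
      obtain ⟨ζ, n, rfl⟩ := rep θ
      refine ⟨ω * ζ + (2 * n : ℕ), limit_rep hl hθl _, ⟨ζ, n, rfl⟩, ?_, ?_⟩
      · rw [mem_FF]
        refine ⟨limit_rep hl hθl _, ?_, by simp⟩
        rwa [Nat.mul_div_cancel_left n two_pos]
      · rw [add_assoc, show ((2 * n : ℕ) : Ordinal.{0}) + 1 = ((2 * n + 1 : ℕ) : Ordinal.{0}) by
          push_cast; rfl, mem_FF]
        rintro ⟨_, _, h3⟩
        have h4 := h3 (by omega)
        rw [show (2 * n + 1) / 2 = n by omega] at h4
        exact hxC h4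
    · exact absurd (mem_D_limit h1 hmin) h0
  · rw [Set.disjoint_left]
    rintro x ⟨η, hη, ⟨ζ, n, rfl⟩, h1, h2⟩ hxC
    apply h2
    rw [mem_FF] at h1
    rw [add_assoc, show ((2 * n : ℕ) : Ordinal.{0}) + 1 = ((2 * n + 1 : ℕ) : Ordinal.{0}) by
          push_cast; rfl, mem_FF]
    obtain ⟨_, h3, _⟩ := h1
    rw [Nat.mul_div_cancel_left n two_pos] at h3
    refine ⟨limit_rep hl hη _, ?_, fun _ => ?_⟩
    · rwa [show (2 * n + 1) / 2 = n by omega]
    · rw [show (2 * n + 1) / 2 = n by omega]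
      exact subset_closure ⟨h3, hxC⟩

/-! ### from sequences to the derivative -/

theorem D_sub_seq {B C : Set X} {lam : Ordinal.{0}} {F : Ordinal.{0} → Set X}
    (h : IsSeq lam F) (h0 : 0 < lam) (hB : B ⊆ tdiff lam F) (hC : Disjoint (tdiff lam F) C)
    (θ : Ordinal.{0}) : D B C θ ⊆ F θ := by
  induction θ using WellFoundedLT.induction with
  | _ θ ih =>
    rcases zsl θ with h1 | ⟨θ, rfl⟩ | h1
    · rw [h1, h.zero h0]
      exact subset_univ _
    · have ih' := ih θ (lt_add_one θ)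
      rw [D_succ]
      by_cases hl : θ < lam
      · by_cases he : IsEvenOrd θ
        · refine inter_subset_right.trans ?_
          apply (h.closed _).closure_subset_iff.2
          rintro x ⟨hx1, hx2⟩
          by_contra hcon
          exact Set.disjoint_left.1 hC ⟨θ, hl, he, ih' hx1, hcon⟩ hx2
        · refine inter_subset_left.trans ?_
          apply (h.closed _).closure_subset_iff.2
          rintro x ⟨hx1, hx2⟩
          by_contra hcon
          obtain ⟨η, hη, hev, h3, h4⟩ := hB hx2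
          rcases lt_trichotomy η θ with h5 | h5 | h5
          · exact h4 (h.anti _ _ (Order.add_one_le_of_lt h5) (ih' hx1))
          · exact he (h5 ▸ hev)
          · exact hcon (h.anti _ _ (Order.add_one_le_of_lt h5) h3)
      · have h2 : F θ = ∅ := h.beyond θ (not_lt.1 hl)
        rw [h2] at ih'
        have h3 : D B C θ = ∅ := subset_empty_iff.1 ih'
        rw [h3]
        simp
    · rcases lt_trichotomy θ lam with h2 | h2 | h2
      · rw [h.limit θ h2 h1]
        intro x hx
        simp only [mem_iInter]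
        exact fun θ' hθ' => ih θ' hθ' (D_anti hθ'.le hx)
      · subst h2
        intro x hx
        exfalso
        have h3 : x ∈ ⋂ (θ') (_ : θ' < θ), F θ' := by
          simp only [mem_iInter]
          exact fun θ' hθ' => ih θ' hθ' (D_anti hθ'.le hx)
        rw [h.vanish h1] at h3
        exact h3
      · intro x hx
        exfalso
        have h3 := ih lam h2 (D_anti h2.le hx)
        rw [h.beyond lam le_rfl] at h3
        exact h3

theorem D_of_lens {B C : Set X} {lam μ : Ordinal.{0}} (h : lam ∈ Lens B C) (hle : lam ≤ μ)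
    (hμ : 0 < μ) : D B C μ = ∅ := by
  obtain ⟨F, hF, hB, hC⟩ := h
  rcases eq_or_ne lam 0 with h0 | h0
  · have hBe : B = ∅ := by
      rw [eq_empty_iff_forall_notMem]
      intro x hx
      obtain ⟨η, hη, _⟩ := hB hx
      rw [h0] at hη
      exact absurd hη (not_lt_zero)
    rw [eq_empty_iff_forall_notMem]
    intro x hx
    rw [mem_D] at hx
    have := (hx 0 hμ).1
    rw [hBe] at this
    simp at this
  · have h1 := D_sub_seq hF (pos_iff_ne_zero.2 h0) hB hC lam
    rw [hF.beyond lam le_rfl] at h1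
    exact subset_empty_iff.1 ((D_anti hle).trans h1)

/-! ### layers, complexity of the transfinite difference -/

theorem exists_layer {lam : Ordinal.{0}} {F : Ordinal.{0} → Set X} (h : IsSeq lam F)
    (h0 : 0 < lam) (x : X) : ∃ η < lam, x ∈ F η \ F (η + 1) := by
  obtain ⟨θ0, hx0, hmin⟩ : ∃ θ0, x ∉ F θ0 ∧ ∀ θ < θ0, x ∈ F θ := by
    have hne : {θ : Ordinal.{0} | x ∉ F θ}.Nonempty := ⟨lam, by
      change x ∉ F lam
      rw [h.beyond lam le_rfl]; exact notMem_empty x⟩
    refine ⟨sInf {θ : Ordinal.{0} | x ∉ F θ}, csInf_mem hne, fun θ hθ => ?_⟩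
    by_contra hcon
    exact absurd (lt_of_lt_of_le hθ (csInf_le' hcon)) (lt_irrefl _)
  have hθlam : θ0 ≤ lam := by
    by_contra hcon
    have := hmin lam (not_le.1 hcon)
    rw [h.beyond lam le_rfl] at this
    exact this
  rcases zsl θ0 with h1 | ⟨θ, h1⟩ | h1
  · rw [h1, h.zero h0] at hx0
    exact absurd (mem_univ x) hx0
  · have hθ : θ < θ0 := by rw [← h1]; exact lt_add_one θ
    refine ⟨θ, lt_of_lt_of_le hθ hθlam, hmin θ hθ, ?_⟩
    rw [h1]
    exact hx0
  · exfalso
    have hin : x ∈ ⋂ (θ) (_ : θ < θ0), F θ := by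
      simp only [mem_iInter]
      exact hmin
    rcases eq_or_lt_of_le hθlam with h2 | h2
    · subst h2
      rw [h.vanish h1] at hin
      exact hin
    · rw [← h.limit θ0 h2 h1] at hin
      exact hx0 hin

theorem layer_unique {lam : Ordinal.{0}} {F : Ordinal.{0} → Set X} (h : IsSeq lam F)
    {η η' : Ordinal.{0}} {x : X} (h1 : x ∈ F η \ F (η + 1)) (h2 : x ∈ F η' \ F (η' + 1)) :
    η = η' := by
  rcases lt_trichotomy η η' with h3 | h3 | h3
  · exact absurd (h.anti _ _ (Order.add_one_le_of_lt h3) h2.1) h1.2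
  · exact h3
  · exact absurd (h.anti _ _ (Order.add_one_le_of_lt h3) h1.1) h2.2

theorem countable_Iio {lam : Ordinal.{0}} (h : lam < ω₁) : (Iio lam).Countable := by
  rw [← Cardinal.le_aleph0_iff_set_countable]
  rw [Cardinal.mk_Iio_ordinal]
  rw [← Cardinal.lift_aleph0.{1, 0}, Cardinal.lift_le]
  exact Cardinal.lt_aleph_one_iff.1 (Cardinal.lt_omega_iff_card_lt.1 h)

theorem tdiff_gdelta [TopologicalSpace.MetrizableSpace X] {lam : Ordinal.{0}} {F : Ordinal.{0} → Set X}
    (h : IsSeq lam F) (hc : lam < ω₁) : IsGδ (tdiff lam F) ∧ IsGδ (tdiff lam F)ᶜ := by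
  have hlay : ∀ η, IsGδ (F η \ F (η + 1))ᶜ := by
    intro η
    rw [diff_eq, compl_inter, compl_compl]
    exact (h.closed η).isOpen_compl.isGδ.union (h.closed (η + 1)).isGδ
  rcases eq_or_ne lam 0 with h0 | h0
  · have : tdiff lam F = ∅ := by
      rw [eq_empty_iff_forall_notMem]
      rintro x ⟨η, hη, _⟩
      rw [h0] at hη
      exact absurd hη (not_lt_zero)
    rw [this, compl_empty]
    exact ⟨IsGδ.empty, IsGδ.univ⟩
  · have hpos : 0 < lam := pos_iff_ne_zero.2 h0
    constructor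
    · have : tdiff lam F = ⋂ η ∈ {η | η < lam ∧ ¬ IsEvenOrd η}, (F η \ F (η + 1))ᶜ := by
        ext x
        simp only [mem_iInter]
        constructor
        · rintro ⟨η, hη, hev, hx⟩ θ hθ hx'
          exact hθ.2 (layer_unique h hx hx' ▸ hev)
        · intro hx
          obtain ⟨η, hη, hxη⟩ := exists_layer h hpos x
          refine ⟨η, hη, ?_, hxη⟩
          by_contra hev
          exact hx η ⟨hη, hev⟩ hxη
      rw [this]
      apply IsGδ.biInter
      · exact (countable_Iio hc).mono fun η hη => hη.1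
      · exact fun η _ => hlay η
    · have : (tdiff lam F)ᶜ = ⋂ η ∈ {η | η < lam ∧ IsEvenOrd η}, (F η \ F (η + 1))ᶜ := by
        ext x
        simp only [mem_iInter, mem_compl_iff]
        constructor
        · rintro hx η hη hx'
          exact hx ⟨η, hη.1, hη.2, hx'⟩
        · rintro hx ⟨η, hη, hev, hx'⟩
          exact hx η ⟨hη, hev⟩ hx'
      rw [this]
      apply IsGδ.biInter
      · exact (countable_Iio hc).mono fun η hη => hη.1
      · exact fun η _ => hlay η

end

end Pool.Q304.RK
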