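import Pool.Agent.Q304.Rk1

/-! Ranks on bounded Baire class 1 functions. -/

open Set Ordinal Topology Filter
open scoped Ordinal

namespace Pool.Q304.RK

/-! ### Hausdorff's theorem -/

theorem hausdorff {X : Type} [TopologicalSpace X] [PolishSpace X] {B C : Set X}
    (hB : IsGδ B) (hC : IsGδ C) (hBC : Disjoint B C) : ∃ θ : Ordinal.{0}, D B C θ = ∅ := by
  have hni := not_injective_of_ordinal (fun θ : Ordinal.{0} => D B C θ)
  simp only [Function.Injective, not_forall] at hni
  obtain ⟨a, b, hab, hne⟩ := hni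
  wlog hlt : a < b generalizing a b
  · exact this b a hab.symm (Ne.symm hne) (lt_of_le_of_ne (not_lt.1 hlt) (Ne.symm hne))
  refine ⟨a, ?_⟩
  by_contra hP
  set P := D B C a with hPdef
  have hPc : IsClosed P := D_closed B C a
  have hsub : P ⊆ D B C (a + 1) := by
    rw [hab]
    exact D_anti (Order.add_one_le_of_lt hlt)
  rw [D_succ, ← hPdef] at hsub
  have : PolishSpace P := hPc.polishSpace
  have hne' : Nonempty P := (nonempty_iff_ne_empty.2 hP).to_subtype
  have hd1 : Dense ((↑) ⁻¹' B : Set P) := by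
    rw [Subtype.dense_iff, Subtype.image_preimage_coe]
    exact fun x hx => (hsub hx).1
  have hd2 : Dense ((↑) ⁻¹' C : Set P) := by
    rw [Subtype.dense_iff, Subtype.image_preimage_coe]
    exact fun x hx => (hsub hx).2
  have hg1 : IsGδ ((↑) ⁻¹' B : Set P) := hB.preimage continuous_subtype_val
  have hg2 : IsGδ ((↑) ⁻¹' C : Set P) := hC.preimage continuous_subtype_val
  obtain ⟨x, hx1, hx2⟩ := (Dense.inter_of_Gδ hg1 hg2 hd1 hd2).nonempty
  exact Set.disjoint_left.1 hBC hx1 hx2

theorem lens_nonempty {X : Type} [TopologicalSpace X] [PolishSpace X] {B C : Set X}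
    (hB : IsGδ B) (hC : IsGδ C) (hBC : Disjoint B C) : (Lens B C).Nonempty := by
  obtain ⟨θ, hθ⟩ := hausdorff hB hC hBC
  refine ⟨ω ^ (θ + 1), lens_of_D ?_ ?_⟩
  · exact isSuccLimit_opow_left isSuccLimit_omega0 (by simp)
  · apply subset_empty_iff.1
    rw [← hθ]
    apply D_anti
    exact (le_self_add : θ ≤ θ + 1).trans (right_le_opow _ one_lt_omega0)

theorem limit_pow {η : Ordinal.{0}} (h : 1 ≤ η) : Order.IsSuccLimit (ω ^ η) :=
  isSuccLimit_opow_left isSuccLimit_omega0 (by
    rintro rfl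
    simp at h)

theorem pow_pos' (η : Ordinal.{0}) : 0 < ω ^ η := opow_pos _ omega0_pos

theorem alpha1_le_iff {X : Type} [TopologicalSpace X] [PolishSpace X] {B C : Set X}
    (hB : IsGδ B) (hC : IsGδ C) (hBC : Disjoint B C) {η : Ordinal.{0}} (hη : 1 ≤ η) :
    alpha1 B C ≤ ω ^ η ↔ D B C (ω ^ η) = ∅ := by
  constructor
  · intro h
    exact D_of_lens (csInf_mem (lens_nonempty hB hC hBC)) h (pow_pos' η)
  · intro h
    exact csInf_le' (lens_of_D (limit_pow hη) h)

/-! ### The tree construction -/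

theorem closed_insert {X : Type*} [MetricSpace X] (x : X) (K : ℕ → Set X) (e : ℕ → ℝ)
    (he : Tendsto e atTop (𝓝 0)) (hK : ∀ n, IsClosed (K n)) (hb : ∀ n, K n ⊆ Metric.ball x (e n)) :
    IsClosed (insert x (⋃ n, K n)) := by
  apply isClosed_of_closure_subset
  intro z hz
  by_cases hzx : z = x
  · exact Or.inl hzx
  right
  have hd : 0 < dist z x := dist_pos.2 hzx
  obtain ⟨N, hN⟩ := eventually_atTop.1 (he.eventually (gt_mem_nhds (half_pos hd)))
  have hsplit : insert x (⋃ n, K n) ⊆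
      (insert x (⋃ n, ⋃ (_ : N ≤ n), K n)) ∪ ⋃ n ∈ Iio N, K n := by
    rintro w (hw | hw)
    · exact Or.inl (Or.inl hw)
    · obtain ⟨n, hn⟩ := mem_iUnion.1 hw
      by_cases h : N ≤ n
      · left; right
        exact mem_iUnion.2 ⟨n, mem_iUnion.2 ⟨h, hn⟩⟩
      · right
        exact mem_iUnion.2 ⟨n, mem_iUnion.2 ⟨not_le.1 h, hn⟩⟩
  have h1 := closure_mono hsplit hz
  have hcl : IsClosed (⋃ n ∈ Iio N, K n) :=
    (finite_Iio N).isClosed_biUnion fun n _ => hK n
  rw [closure_union, hcl.closure_eq] at h1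
  rcases h1 with h1 | h1
  · exfalso
    have hsub : insert x (⋃ n, ⋃ (_ : N ≤ n), K n) ⊆ Metric.closedBall x (dist z x / 2) := by
      rintro w (hw | hw)
      · rw [hw]
        exact Metric.mem_closedBall_self (half_pos hd).le
      · obtain ⟨n, hn⟩ := mem_iUnion.1 hw
        obtain ⟨hn1, hn2⟩ := mem_iUnion.1 hn
        have := hb n hn2
        rw [Metric.mem_ball] at this
        rw [Metric.mem_closedBall]
        exact (this.trans (hN n hn1)).le
    have h2 := (Metric.isClosed_closedBall.closure_subset_iff.2 hsub) h1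
    rw [Metric.mem_closedBall] at h2
    linarith
  · simp only [mem_iUnion] at h1 ⊢
    obtain ⟨n, _, hn⟩ := h1
    exact ⟨n, hn⟩

theorem tree {X : Type} [MetricSpace X] (B C : Set X) (θ : Ordinal.{0}) :
    θ < ω₁ → ∀ x ∈ D B C θ, ∀ ε > (0 : ℝ), ∃ A : Set X, A ⊆ B ∪ C ∧ A ⊆ Metric.ball x ε ∧
      IsClosed (insert x A) ∧ x ∈ D (A ∩ B) (A ∩ C) θ := by
  induction θ using WellFoundedLT.induction with
  | _ θ ih =>
    intro hθ x hx ε hε
    rcases eq_or_ne θ 0 with h0 | h0
    · subst h0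
      refine ⟨∅, empty_subset _, empty_subset _, ?_, ?_⟩
      · simp
      · rw [D_zero]; exact mem_univ x
    · have hpos : 0 < θ := pos_iff_ne_zero.2 h0
      have hcount : (Iio θ).Countable := countable_Iio hθ
      obtain ⟨g, hg⟩ := hcount.exists_eq_range ⟨0, hpos⟩
      have hgl : ∀ a, g a < θ := fun a => by
        have : g a ∈ Iio θ := by rw [hg]; exact mem_range_self a
        exact this
      rw [mem_D] at hx
      let e : ℕ → ℝ := fun n => ε / (n + 1)
      have he0 : ∀ n, 0 < e n := fun n => by positivity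
      have hele : ∀ n, e n ≤ ε := fun n => by
        apply div_le_self hε.le
        have : (0 : ℝ) ≤ n := Nat.cast_nonneg n
        linarith
      have het : Tendsto e atTop (𝓝 0) := by
        have := tendsto_one_div_add_atTop_nhds_zero_nat (𝕜 := ℝ)
        have h2 := this.const_mul ε
        simp only [mul_zero] at h2
        refine h2.congr fun n => ?_
        simp only [e]
        ring
      have hstep : ∀ n : ℕ, ∃ K : Set X, IsClosed K ∧ K ⊆ B ∪ C ∧ K ⊆ Metric.ball x (e n) ∧
          (∃ y ∈ K ∩ B, y ∈ D (K ∩ B) (K ∩ C) (g (Nat.unpair n).1)) ∧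
          (∃ z ∈ K ∩ C, z ∈ D (K ∩ B) (K ∩ C) (g (Nat.unpair n).1)) := by
        intro n
        have hl := hgl (Nat.unpair n).1
        obtain ⟨h1, h2⟩ := hx _ hl
        obtain ⟨y, hy, hyd⟩ := Metric.mem_closure_iff.1 h1 (e n / 2) (half_pos (he0 n))
        obtain ⟨z, hz, hzd⟩ := Metric.mem_closure_iff.1 h2 (e n / 2) (half_pos (he0 n))
        obtain ⟨A1, hA1, hA1b, hA1c, hA1d⟩ := ih _ hl (hl.trans hθ) y hy.1 (e n / 2) (half_pos (he0 n))
        obtain ⟨A2, hA2, hA2b, hA2c, hA2d⟩ := ih _ hl (hl.trans hθ) z hz.1 (e n / 2) (half_pos (he0 n))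
        have hs1 : insert y A1 ∩ B ⊆ (insert y A1 ∪ insert z A2) ∩ B :=
          inter_subset_inter_left _ subset_union_left
        have hb : ∀ (w : X) (A : Set X), dist x w < e n / 2 → A ⊆ Metric.ball w (e n / 2) →
            insert w A ⊆ Metric.ball x (e n) := by
          intro w A hw hA v hv
          rw [Metric.mem_ball]
          rcases hv with rfl | hv
          · rw [dist_comm]; linarith [he0 n]
          · have h3 := hA hv
            rw [Metric.mem_ball] at h3
            calc dist v x ≤ dist v w + dist w x := dist_triangle _ _ _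
              _ < e n / 2 + e n / 2 := by rw [dist_comm w x]; linarith
              _ = e n := by ring
        refine ⟨insert y A1 ∪ insert z A2, hA1c.union hA2c, ?_, ?_, ?_, ?_⟩
        · rintro w ((rfl | hw) | (rfl | hw))
          · exact Or.inl hy.2
          · exact hA1 hw
          · exact Or.inr hz.2
          · exact hA2 hw
        · exact union_subset (hb y A1 hyd hA1b) (hb z A2 hzd hA2b)
        · refine ⟨y, ⟨Or.inl (Or.inl rfl), hy.2⟩, ?_⟩
          refine D_mono ?_ ?_ _ hA1d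
          · exact fun w hw => ⟨Or.inl (Or.inr hw.1), hw.2⟩
          · exact fun w hw => ⟨Or.inl (Or.inr hw.1), hw.2⟩
        · refine ⟨z, ⟨Or.inr (Or.inl rfl), hz.2⟩, ?_⟩
          refine D_mono ?_ ?_ _ hA2d
          · exact fun w hw => ⟨Or.inr (Or.inr hw.1), hw.2⟩
          · exact fun w hw => ⟨Or.inr (Or.inr hw.1), hw.2⟩
      choose K hKc hKs hKb hKy hKz using hstep
      refine ⟨⋃ n, K n, iUnion_subset hKs, iUnion_subset fun n =>
        (hKb n).trans (Metric.ball_subset_ball (hele n)), closed_insert x K e het hKc hKb, ?_⟩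
      rw [mem_D]
      intro θ' hθ'
      obtain ⟨a, ha⟩ : θ' ∈ range g := by rw [← hg]; exact hθ'
      have hmono : ∀ n, D (K n ∩ B) (K n ∩ C) θ' ⊆ D ((⋃ n, K n) ∩ B) ((⋃ n, K n) ∩ C) θ' :=
        fun n => D_mono (inter_subset_inter_left _ (subset_iUnion K n))
          (inter_subset_inter_left _ (subset_iUnion K n)) θ'
      have hbig : ∀ δ > (0 : ℝ), ∃ n, (Nat.unpair n).1 = a ∧ e n < δ := by
        intro δ hδ
        obtain ⟨N, hN⟩ := eventually_atTop.1 (het.eventually (gt_mem_nhds hδ))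
        exact ⟨Nat.pair a N, by simp, hN _ (Nat.right_le_pair a N)⟩
      constructor
      · rw [Metric.mem_closure_iff]
        intro δ hδ
        obtain ⟨n, hn, hnδ⟩ := hbig δ hδ
        obtain ⟨y, hy1, hy2⟩ := hKy n
        rw [hn, ha] at hy2
        refine ⟨y, ⟨hmono n hy2, mem_iUnion.2 ⟨n, hy1.1⟩, hy1.2⟩, ?_⟩
        have := hKb n hy1.1
        rw [Metric.mem_ball, dist_comm] at this
        linarith
      · rw [Metric.mem_closure_iff]
        intro δ hδ
        obtain ⟨n, hn, hnδ⟩ := hbig δ hδ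
        obtain ⟨y, hy1, hy2⟩ := hKz n
        rw [hn, ha] at hy2
        refine ⟨y, ⟨hmono n hy2, mem_iUnion.2 ⟨n, hy1.1⟩, hy1.2⟩, ?_⟩
        have := hKb n hy1.1
        rw [Metric.mem_ball, dist_comm] at this
        linarith

/-! ### Baire class 1 functions -/

/-- Baire class 1: pointwise limit of continuous functions -/
def BaireOne {X : Type*} [TopologicalSpace X] (f : X → ℝ) : Prop :=
  ∃ g : ℕ → X → ℝ, (∀ n, Continuous (g n)) ∧ ∀ x, Tendsto (fun n => g n x) atTop (𝓝 (f x))

/-- bounded Baire class 1 -/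
def BB {X : Type*} [TopologicalSpace X] (f : X → ℝ) : Prop :=
  BaireOne f ∧ ∃ M : ℝ, ∀ x, |f x| ≤ M

theorem BB.add {X : Type*} [TopologicalSpace X] {f g : X → ℝ} (hf : BB f) (hg : BB g) :
    BB (fun x => f x + g x) := by
  obtain ⟨⟨u, hu1, hu2⟩, M, hM⟩ := hf
  obtain ⟨⟨v, hv1, hv2⟩, N, hN⟩ := hg
  refine ⟨⟨fun n x => u n x + v n x, fun n => (hu1 n).add (hv1 n), fun x => (hu2 x).add (hv2 x)⟩,
    M + N, fun x => ?_⟩
  exact (abs_add_le _ _).trans (add_le_add (hM x) (hN x))

theorem BB.smul {X : Type*} [TopologicalSpace X] {f : X → ℝ} (hf : BB f) (c : ℝ) :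
    BB (fun x => c * f x) := by
  obtain ⟨⟨u, hu1, hu2⟩, M, hM⟩ := hf
  refine ⟨⟨fun n x => c * u n x, fun n => continuous_const.mul (hu1 n),
    fun x => (hu2 x).const_mul c⟩, |c| * M, fun x => ?_⟩
  rw [abs_mul]
  exact mul_le_mul_of_nonneg_left (hM x) (abs_nonneg c)

theorem BB.comp {X : Type*} [TopologicalSpace X] {f : X → ℝ} (hf : BB f) {h : ℝ → ℝ}
    {K : NNReal} (hh : LipschitzWith K h) : BB (fun x => h (f x)) := by
  obtain ⟨⟨u, hu1, hu2⟩, M, hM⟩ := hf
  refine ⟨⟨fun n x => h (u n x), fun n => hh.continuous.comp (hu1 n),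
    fun x => (hh.continuous.tendsto _).comp (hu2 x)⟩, |h 0| + K * M, fun x => ?_⟩
  have h1 : |h (f x) - h 0| ≤ K * |f x| := by
    simpa [Real.dist_eq] using hh.dist_le_mul (f x) 0
  have h2 : (K : ℝ) * |f x| ≤ K * M := mul_le_mul_of_nonneg_left (hM x) K.2
  calc |h (f x)| = |(h (f x) - h 0) + h 0| := by ring_nf
    _ ≤ |h (f x) - h 0| + |h 0| := abs_add_le _ _
    _ ≤ |h 0| + K * M := by linarith

theorem gdelta_le {X : Type*} [TopologicalSpace X] {f : X → ℝ} (hf : BaireOne f) (p : ℝ) :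
    IsGδ {x | f x ≤ p} := by
  obtain ⟨u, hu1, hu2⟩ := hf
  have : {x | f x ≤ p} = ⋂ (k : ℕ), ⋂ (N : ℕ), ⋃ n ∈ Ici N, {x | u n x < p + 1 / (k + 1)} := by
    ext x
    simp only [mem_iInter, mem_iUnion]
    constructor
    · intro hx k N
      have h1 : f x < p + 1 / (k + 1) := by
        have h2 : (0 : ℝ) < 1 / (k + 1) := by positivity
        have h3 : f x ≤ p := hx
        linarith
      obtain ⟨M, hM⟩ := eventually_atTop.1 ((hu2 x).eventually (gt_mem_nhds h1))
      exact ⟨max M N, le_max_right M N, hM _ (le_max_left M N)⟩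
    · intro h
      change f x ≤ p
      apply le_of_forall_pos_lt_add
      intro ε hε
      obtain ⟨k, hk⟩ := exists_nat_one_div_lt (half_pos hε)
      have h1 : f x ≤ p + 1 / (k + 1) := by
        by_contra hcon
        push Not at hcon
        obtain ⟨N, hN⟩ := eventually_atTop.1 ((hu2 x).eventually (lt_mem_nhds hcon))
        obtain ⟨n, hn, hn2⟩ := h k N
        exact absurd (hN n hn) (not_lt.2 (le_of_lt hn2))
      linarith
  rw [this]
  apply IsGδ.iInter
  intro k
  apply IsGδ.iInter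
  intro N
  apply IsOpen.isGδ
  exact isOpen_biUnion fun n _ => isOpen_lt (hu1 n) continuous_const

theorem gdelta_ge {X : Type*} [TopologicalSpace X] {f : X → ℝ} (hf : BaireOne f) (p : ℝ) :
    IsGδ {x | p ≤ f x} := by
  have h1 : BaireOne (fun x => - f x) := by
    obtain ⟨u, hu1, hu2⟩ := hf
    exact ⟨fun n x => - u n x, fun n => (hu1 n).neg, fun x => (hu2 x).neg⟩
  have h2 := gdelta_le h1 (-p)
  have h3 : {x | p ≤ f x} = {x | -f x ≤ -p} := by
    ext x
    change p ≤ f x ↔ -f x ≤ -p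
    constructor <;> intro h <;> linarith
  rw [h3]
  exact h2

theorem fsigma_seq {X : Type*} [TopologicalSpace X] {A : Set X} (h : IsGδ Aᶜ) :
    ∃ F : ℕ → Set X, (∀ n, IsClosed (F n)) ∧ Monotone F ∧ A = ⋃ n, F n := by
  obtain ⟨U, hU, hA⟩ := isGδ_iff_eq_iInter_nat.1 h
  refine ⟨fun n => ⋃ k ∈ Iic n, (U k)ᶜ, fun n => ?_, ?_, ?_⟩
  · exact (finite_Iic n).isClosed_biUnion fun k _ => (hU k).isClosed_compl
  · intro a b hab
    exact biUnion_subset_biUnion_left (Iic_subset_Iic.2 hab)
  · rw [← compl_compl A, hA, compl_iInter]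
    ext x
    simp only [mem_iUnion]
    constructor
    · rintro ⟨n, hn⟩
      exact ⟨n, n, mem_Iic.2 le_rfl, hn⟩
    · rintro ⟨n, k, _, hk⟩
      exact ⟨k, hk⟩

theorem BB.indicator {X : Type*} [TopologicalSpace X] [TopologicalSpace.MetrizableSpace X]
    {A : Set X} (h1 : IsGδ A) (h2 : IsGδ Aᶜ) : BB (A.indicator fun _ => (1 : ℝ)) := by
  letI := TopologicalSpace.metrizableSpaceMetric X
  constructor
  · obtain ⟨F, hF, hFm, hFA⟩ := fsigma_seq h2
    rw [← compl_compl A] at h1
    obtain ⟨G, hG, hGm, hGA⟩ := fsigma_seq h1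
    have hd : ∀ n, Disjoint (G n) (F n) := by
      intro n
      rw [Set.disjoint_left]
      intro x hx1 hx2
      have h3 : x ∈ Aᶜ := by rw [hGA]; exact mem_iUnion.2 ⟨n, hx1⟩
      have h4 : x ∈ A := by rw [hFA]; exact mem_iUnion.2 ⟨n, hx2⟩
      exact h3 h4
    choose u hu0 hu1 _ using fun n => exists_continuous_zero_one_of_isClosed (hG n) (hF n) (hd n)
    refine ⟨fun n x => u n x, fun n => (u n).continuous, fun x => ?_⟩
    by_cases hx : x ∈ A
    · rw [indicator_of_mem hx]
      have h3 := hx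
      rw [hFA] at h3
      obtain ⟨N, hN⟩ := mem_iUnion.1 h3
      apply tendsto_const_nhds.congr'
      filter_upwards [eventually_ge_atTop N] with n hn
      exact (hu1 n (hFm hn hN)).symm
    · rw [indicator_of_notMem hx]
      have h3 : x ∈ Aᶜ := hx
      rw [hGA] at h3
      obtain ⟨N, hN⟩ := mem_iUnion.1 h3
      apply tendsto_const_nhds.congr'
      filter_upwards [eventually_ge_atTop N] with n hn
      exact (hu0 n (hGm hn hN)).symm
  · refine ⟨1, fun x => ?_⟩
    by_cases hx : x ∈ A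
    · rw [indicator_of_mem hx]; simp
    · rw [indicator_of_notMem hx]; simp

/-! ### Ranks -/

/-- `θ ≲ θ'` -/
def Les (θ θ' : Ordinal.{0}) : Prop := ∀ η, 1 ≤ η → η < ω₁ → θ' ≤ ω ^ η → θ ≤ ω ^ η

/-- `θ ≈ θ'` -/
def Eqv (θ θ' : Ordinal.{0}) : Prop := Les θ θ' ∧ Les θ' θ

/-- the separation rank -/
noncomputable def alphaf {X : Type*} [TopologicalSpace X] (f : X → ℝ) : Ordinal.{0} :=
  ⨆ pq : {pq : ℚ × ℚ // pq.1 < pq.2}, alpha1 {x | f x ≤ pq.1.1} {x | pq.1.2 ≤ f x}

/-- the properties (P1)-(P4) of a rank on one space -/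
structure RankOn {X : Type} [TopologicalSpace X] (r : (X → ℝ) → Ordinal.{0}) : Prop where
  p1 : ∀ A : Set X, IsGδ A → IsGδ Aᶜ → Eqv (r (A.indicator fun _ => 1)) (alpha1 A Aᶜ)
  p2a : ∀ (f : X → ℝ) (c : ℝ), BB f → c ≠ 0 → Eqv (r fun x => c * f x) (r f)
  p2b : ∀ f g : X → ℝ, BB f → BB g → Les (r fun x => f x + g x) (max (r f) (r g))
  p3 : ∀ (f : X → ℝ) (u : ℕ → X → ℝ), BB f → (∀ n, BB (u n)) → TendstoUniformly u f atTop →
    Les (r f) (⨆ n, r (u n))
  p4 : ∀ (f : X → ℝ) (h : ℝ → ℝ) (K : NNReal), BB f → LipschitzWith K h →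
    Les (r fun x => h (f x)) (r f)

section

variable {X : Type} [TopologicalSpace X] [PolishSpace X] {r : (X → ℝ) → Ordinal.{0}}
  {η : Ordinal.{0}}

/-- functions of rank at most `ω ^ η` -/
def RR (r : (X → ℝ) → Ordinal.{0}) (η : Ordinal.{0}) (f : X → ℝ) : Prop := BB f ∧ r f ≤ ω ^ η

theorem RR.add (hr : RankOn r) (h1 : 1 ≤ η) (h2 : η < ω₁) {f g : X → ℝ} (hf : RR r η f)
    (hg : RR r η g) : RR r η (fun x => f x + g x) :=
  ⟨hf.1.add hg.1, hr.p2b f g hf.1 hg.1 η h1 h2 (max_le hf.2 hg.2)⟩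

theorem RR.comp (hr : RankOn r) (h1 : 1 ≤ η) (h2 : η < ω₁) {f : X → ℝ} (hf : RR r η f)
    {h : ℝ → ℝ} {K : NNReal} (hh : LipschitzWith K h) : RR r η (fun x => h (f x)) :=
  ⟨hf.1.comp hh, hr.p4 f h K hf.1 hh η h1 h2 hf.2⟩

theorem RR.smul (hr : RankOn r) (h1 : 1 ≤ η) (h2 : η < ω₁) {f : X → ℝ} (hf : RR r η f) (c : ℝ) :
    RR r η (fun x => c * f x) :=
  hf.comp hr h1 h2 (h := fun t => c * t) (K := ‖c‖₊) (by
    apply LipschitzWith.of_dist_le_mul
    intro x y
    rw [Real.dist_eq, Real.dist_eq]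
    change |c * x - c * y| ≤ _
    rw [← _root_.mul_sub, abs_mul, coe_nnnorm, Real.norm_eq_abs])

theorem RR.indicator (hr : RankOn r) (h1 : 1 ≤ η) (h2 : η < ω₁) {A : Set X} (hA : IsGδ A)
    (hA' : IsGδ Aᶜ) (h : D A Aᶜ (ω ^ η) = ∅) : RR r η (A.indicator fun _ => 1) := by
  refine ⟨BB.indicator hA hA', (hr.p1 A hA hA').1 η h1 h2 ?_⟩
  exact (alpha1_le_iff hA hA' disjoint_compl_right h1).2 h

theorem D_of_RR (hr : RankOn r) (h1 : 1 ≤ η) (h2 : η < ω₁) {A : Set X} (hA : IsGδ A)
    (hA' : IsGδ Aᶜ) (h : RR r η (A.indicator fun _ => 1)) : D A Aᶜ (ω ^ η) = ∅ :=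
  (alpha1_le_iff hA hA' disjoint_compl_right h1).1 ((hr.p1 A hA hA').2 η h1 h2 h.2)

theorem RR.closed (hr : RankOn r) (h1 : 1 ≤ η) (h2 : η < ω₁) {K : Set X} (hK : IsClosed K) :
    RR r η (K.indicator fun _ => 1) := by
  apply RR.indicator hr h1 h2 hK.isGδ hK.isOpen_compl.isGδ
  rw [eq_empty_iff_forall_notMem]
  intro x hx
  have hle : (0 : Ordinal.{0}) + 1 + 1 ≤ ω ^ η := by
    have h3 : ω ≤ ω ^ η := left_le_opow ω (lt_of_lt_of_le zero_lt_one h1)
    refine le_trans ?_ h3
    have : (0 : Ordinal.{0}) + 1 + 1 = ((2 : ℕ) : Ordinal.{0}) := by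
      rw [zero_add]; exact one_add_one_eq_two
    rw [this]
    exact (natCast_lt_omega0 2).le
  have h3 := D_anti hle hx
  rw [D_succ] at h3
  have h4 : D K Kᶜ (0 + 1) ∩ Kᶜ = ∅ := by
    rw [eq_empty_iff_forall_notMem]
    rintro y ⟨hy1, hy2⟩
    rw [D_succ] at hy1
    apply hy2
    exact (hK.closure_subset_iff.2 inter_subset_right) hy1.1
  rw [h4] at h3
  simp at h3

theorem RR.min (hr : RankOn r) (h1 : 1 ≤ η) (h2 : η < ω₁) {f g : X → ℝ} (hf : RR r η f)
    (hg : RR r η g) : RR r η (fun x => min (f x) (g x)) := by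
  have h3 := hf.add hr h1 h2 hg
  have h4 := hf.add hr h1 h2 (hg.smul hr h1 h2 (-1))
  have h5 : LipschitzWith 1 (fun t : ℝ => |t|) := by
    apply LipschitzWith.of_dist_le_mul
    intro x y
    rw [Real.dist_eq, Real.dist_eq, NNReal.coe_one, one_mul]
    exact abs_abs_sub_abs_le x y
  have h6 := (h4.comp hr h1 h2 h5).smul hr h1 h2 (-1)
  have h7 := (h3.add hr h1 h2 h6).smul hr h1 h2 (1 / 2)
  convert h7 using 2 with x
  rcases le_total (f x) (g x) with h | h
  · rw [min_eq_left h, abs_of_nonpos (by linarith)]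
    ring
  · rw [min_eq_right h, abs_of_nonneg (by linarith)]
    ring

/-- a clamp function -/
noncomputable def clamp (p q t : ℝ) : ℝ := max 0 (min 1 ((q - t) / (q - p)))

theorem clamp_lip {p q : ℝ} (h : p < q) : ∃ K, LipschitzWith K (clamp p q) := by
  have h1 : LipschitzWith ⟨(q - p)⁻¹, by have : 0 < q - p := by linarith
                                         positivity⟩ (fun t : ℝ => (q - t) / (q - p)) := by
    apply LipschitzWith.of_dist_le_mul
    intro x y
    rw [Real.dist_eq, Real.dist_eq, ← sub_div, abs_div, abs_of_pos (by linarith : 0 < q - p)]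
    rw [show q - x - (q - y) = -(x - y) by ring, abs_neg]
    change _ ≤ (q - p)⁻¹ * _
    rw [div_eq_inv_mul]
  exact ⟨_, (h1.const_min 1).const_max 0⟩

theorem clamp_one {p q t : ℝ} (h : p < q) (ht : t ≤ p) : clamp p q t = 1 := by
  unfold clamp
  have h1 : 1 ≤ (q - t) / (q - p) := by
    rw [le_div_iff₀ (by linarith)]; linarith
  rw [min_eq_left h1]; simp

theorem clamp_zero {p q t : ℝ} (h : p < q) (ht : q ≤ t) : clamp p q t = 0 := by
  unfold clamp
  have h1 : (q - t) / (q - p) ≤ 0 := by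
    apply div_nonpos_of_nonpos_of_nonneg <;> linarith
  rw [min_eq_right (by linarith), max_eq_left h1]

theorem clamp_mem (p q t : ℝ) : 0 ≤ clamp p q t ∧ clamp p q t ≤ 1 := by
  unfold clamp
  exact ⟨le_max_left _ _, max_le zero_le_one (min_le_left _ _)⟩

theorem lt_omega_one_pow (h2 : η < ω₁) : ω ^ η < ω₁ :=
  isPrincipal_opow_omega 1 omega0_lt_omega_one h2

/-- the main point: separation from `r f ≤ ω ^ η` -/
theorem D_of_rank (hr : RankOn r) (h1 : 1 ≤ η) (h2 : η < ω₁) {f : X → ℝ} (hf : RR r η f)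
    {p q : ℝ} (hpq : p < q) : D {x | f x ≤ p} {x | q ≤ f x} (ω ^ η) = ∅ := by
  letI := TopologicalSpace.metrizableSpaceMetric X
  by_contra hne
  obtain ⟨x, hx⟩ := nonempty_iff_ne_empty.2 hne
  set B := {x | f x ≤ p} with hB
  set C := {x | q ≤ f x} with hC
  have hBC : Disjoint B C := by
    rw [Set.disjoint_left]
    intro y hy1 hy2
    have h3 : f y ≤ p := hy1
    have h4 : q ≤ f y := hy2
    linarith
  have hBg : IsGδ B := gdelta_le hf.1.1 p
  have hCg : IsGδ C := gdelta_ge hf.1.1 q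
  obtain ⟨A, hAs, _, hAc, hAD⟩ := tree B C (ω ^ η) (lt_omega_one_pow h2) x hx 1 one_pos
  -- `A` is locally closed
  have hA : IsGδ A ∧ IsGδ Aᶜ ∧ RR r η (A.indicator fun _ => 1) := by
    by_cases hxA : x ∈ A
    · have h3 : insert x A = A := insert_eq_of_mem hxA
      rw [h3] at hAc
      exact ⟨hAc.isGδ, hAc.isOpen_compl.isGδ, RR.closed hr h1 h2 hAc⟩
    · have h3 : A = insert x A ∩ {x}ᶜ := by
        ext y
        constructor
        · intro hy
          exact ⟨Or.inr hy, fun h => hxA (h ▸ hy)⟩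
        · rintro ⟨hy | hy, hy2⟩
          · exact absurd hy hy2
          · exact hy
      refine ⟨?_, ?_, ?_⟩
      · rw [h3]
        exact hAc.isGδ.inter isOpen_compl_singleton.isGδ
      · rw [h3, compl_inter, compl_compl]
        exact hAc.isOpen_compl.isGδ.union isClosed_singleton.isGδ
      · have h4 := (RR.closed hr h1 h2 hAc).add hr h1 h2
          ((RR.closed hr h1 h2 (isClosed_singleton (x := x))).smul hr h1 h2 (-1))
        convert h4 using 2 with y
        by_cases hyx : y = x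
        · subst hyx
          simp [hxA]
        · by_cases hyA : y ∈ A
          · simp [hyA, hyx]
          · simp [hyA, hyx]
  obtain ⟨hA1, hA2, hA3⟩ := hA
  obtain ⟨K, hK⟩ := clamp_lip hpq
  have h5 := RR.min hr h1 h2 hA3 (hf.comp hr h1 h2 hK)
  have h6 : (fun y => min (A.indicator (fun _ => (1 : ℝ)) y) (clamp p q (f y))) =
      (A ∩ B).indicator fun _ => (1 : ℝ) := by
    funext y
    by_cases hyA : y ∈ A
    · rw [indicator_of_mem hyA]
      rcases hAs hyA with hy | hy
      · rw [indicator_of_mem (show y ∈ A ∩ B from ⟨hyA, hy⟩), clamp_one hpq hy, min_self]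
      · rw [indicator_of_notMem (show y ∉ A ∩ B from fun h => Set.disjoint_left.1 hBC h.2 hy), clamp_zero hpq hy]
        simp
    · rw [indicator_of_notMem hyA, indicator_of_notMem (show y ∉ A ∩ B from fun h => hyA h.1)]
      exact min_eq_left (clamp_mem p q _).1
  rw [h6] at h5
  have hg1 : IsGδ (A ∩ B) := hA1.inter hBg
  have hg2 : IsGδ (A ∩ B)ᶜ := by
    have h7 : (A ∩ B)ᶜ = Aᶜ ∪ (A ∩ C) := by
      ext y
      constructor
      · intro hy
        by_cases hyA : y ∈ A
        · right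
          refine ⟨hyA, ?_⟩
          rcases hAs hyA with h | h
          · exact absurd ⟨hyA, h⟩ hy
          · exact h
        · exact Or.inl hyA
      · rintro (hy | hy) h
        · exact hy h.1
        · exact Set.disjoint_left.1 hBC h.2 hy.2
    rw [h7]
    exact hA2.union (hA1.inter hCg)
  have h8 := D_of_RR hr h1 h2 hg1 hg2 h5
  have h9 : x ∈ D (A ∩ B) (A ∩ B)ᶜ (ω ^ η) := by
    refine D_mono le_rfl ?_ _ hAD
    rintro y ⟨_, hy⟩ h
    exact Set.disjoint_left.1 hBC h.2 hy
  rw [h8] at h9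
  exact h9

theorem alpha_le (hr : RankOn r) {f : X → ℝ} (hf : BB f) : Les (alphaf f) (r f) := by
  intro η h1 h2 h
  apply Ordinal.iSup_le
  rintro ⟨⟨p, q⟩, hpq⟩
  have hpq' : (p : ℝ) < q := by exact_mod_cast hpq
  have h3 := D_of_rank hr h1 h2 (f := f) ⟨hf, h⟩ hpq'
  refine (alpha1_le_iff (gdelta_le hf.1 _) (gdelta_ge hf.1 _) ?_ h1).2 h3
  rw [Set.disjoint_left]
  intro y hy1 hy2
  have h4 : f y ≤ p := hy1
  have h5 : (q : ℝ) ≤ f y := hy2
  linarith

theorem le_alpha (hr : RankOn r) {f : X → ℝ} (hf : BB f) : Les (r f) (alphaf f) := by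
  intro η h1 h2 h
  -- separating sets
  have hsep : ∀ p q : ℚ, p < q → ∃ H : Set X, {x | f x ≤ p} ⊆ H ∧ Disjoint H {x | (q : ℝ) ≤ f x} ∧
      RR r η (H.indicator fun _ => 1) := by
    intro p q hpq
    have hpq' : (p : ℝ) < q := by exact_mod_cast hpq
    have h3 : alpha1 {x | f x ≤ p} {x | (q : ℝ) ≤ f x} ≤ ω ^ η := by
      refine le_trans ?_ h
      exact Ordinal.le_iSup (fun pq : {pq : ℚ × ℚ // pq.1 < pq.2} =>
        alpha1 {x | f x ≤ pq.1.1} {x | (pq.1.2 : ℝ) ≤ f x}) ⟨(p, q), hpq⟩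
    have hd : Disjoint {x | f x ≤ p} {x | (q : ℝ) ≤ f x} := by
      rw [Set.disjoint_left]
      intro y hy1 hy2
      have h4 : f y ≤ p := hy1
      have h5 : (q : ℝ) ≤ f y := hy2
      linarith
    obtain ⟨F, hF, hF1, hF2⟩ := csInf_mem (lens_nonempty (gdelta_le hf.1 (p : ℝ))
      (gdelta_ge hf.1 (q : ℝ)) hd)
    have hlt : sInf (Lens {x | f x ≤ p} {x | (q : ℝ) ≤ f x}) < ω₁ :=
      lt_of_le_of_lt h3 (lt_omega_one_pow h2)
    obtain ⟨hg1, hg2⟩ := tdiff_gdelta hF hlt
    refine ⟨_, hF1, hF2, RR.indicator hr h1 h2 hg1 hg2 ?_⟩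
    exact D_of_lens (B := tdiff _ F) (C := (tdiff _ F)ᶜ) ⟨F, hF, le_rfl, disjoint_compl_right⟩ h3
      (pow_pos' η)
  obtain ⟨M, hM⟩ := hf.2
  obtain ⟨m, hm⟩ := exists_nat_ge M
  choose! H hH1 hH2 hH3 using hsep
  have hconst : ∀ c : ℝ, RR r η (fun _ : X => c) := by
    intro c
    have h3 := (RR.closed hr h1 h2 (isClosed_univ (X := X))).smul hr h1 h2 c
    convert h3 using 2 with x
    rw [indicator_of_mem (mem_univ x), mul_one]
  -- approximations
  let u : ℕ → X → ℝ := fun N x => (m : ℝ) + ∑ k ∈ Finset.range (2 * m * (N + 1)),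
    (-(1 / ((N : ℝ) + 1))) * (H (-m + k / (N + 1)) (-m + (k + 1) / (N + 1))).indicator
      (fun _ => 1) x
  have hlt : ∀ N k : ℕ, (-m + k / (N + 1) : ℚ) < -m + (k + 1) / (N + 1) := by
    intro N k
    have : (0 : ℚ) < N + 1 := by positivity
    have h3 : (k : ℚ) / (N + 1) < (k + 1) / (N + 1) := by gcongr; linarith
    linarith
  have huR : ∀ N, RR r η (u N) := by
    intro N
    have key : ∀ n, RR r η (fun x => ∑ k ∈ Finset.range n,
        (-(1 / ((N : ℝ) + 1))) * (H (-m + k / (N + 1)) (-m + (k + 1) / (N + 1))).indicator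
        (fun _ => 1) x) := by
      intro n
      induction n with
      | zero => simpa using hconst 0
      | succ n ih =>
        simp only [Finset.sum_range_succ]
        exact ih.add hr h1 h2 ((hH3 _ _ (hlt N n)).smul hr h1 h2 _)
    exact (hconst m).add hr h1 h2 (key _)
  have happ : ∀ N x, |u N x - f x| ≤ 1 / (N + 1) := by
    intro N x
    have hN : (0 : ℝ) < N + 1 := by positivity
    -- the value of the sum
    set z : ℝ := (f x + m) * (N + 1) with hz
    have hfx := abs_le.1 ((hM x).trans hm)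
    have hz0 : 0 ≤ z := by
      apply mul_nonneg _ hN.le
      linarith [hfx.1]
    have hz1 : z ≤ 2 * m * (N + 1) := by
      apply mul_le_mul_of_nonneg_right _ hN.le
      linarith [hfx.2]
    -- membership
    have hin : ∀ k : ℕ, z ≤ k → x ∈ H (-m + k / (N + 1)) (-m + (k + 1) / (N + 1)) := by
      intro k hk
      apply hH1 _ _ (hlt N k)
      change f x ≤ _
      push_cast
      have : f x + m ≤ k / (N + 1) := by
        rw [le_div_iff₀ hN]; exact hk
      linarith
    have hout : ∀ k : ℕ, (k : ℝ) + 1 ≤ z → x ∉ H (-m + k / (N + 1)) (-m + (k + 1) / (N + 1)) := by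
      intro k hk hcon
      apply Set.disjoint_left.1 (hH2 _ _ (hlt N k)) hcon
      change _ ≤ f x
      push_cast
      have : ((k : ℝ) + 1) / (N + 1) ≤ f x + m := by
        rw [div_le_iff₀ hN]; exact hk
      linarith
    set T := 2 * m * (N + 1) with hT
    have hTz : z ≤ (T : ℕ) := by rw [hT]; push_cast; exact hz1
    have hsum : ∑ k ∈ Finset.range T, (H (-m + k / (N + 1)) (-m + (k + 1) / (N + 1))).indicator
        (fun _ => (1 : ℝ)) x ∈ Icc ((T : ℝ) - z - 1) (T - z + 1) := by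
      have hgen : ∀ n : ℕ, ((n : ℝ) ≤ z → ∑ k ∈ Finset.range n,
          (H (-m + k / (N + 1)) (-m + (k + 1) / (N + 1))).indicator (fun _ => (1 : ℝ)) x = 0) ∧
          (z < n → ∑ k ∈ Finset.range n,
          (H (-m + k / (N + 1)) (-m + (k + 1) / (N + 1))).indicator (fun _ => (1 : ℝ)) x ∈
            Icc ((n : ℝ) - z - 1) (n - z + 1)) := by
        intro n
        induction n with
        | zero =>
          constructor
          · intro _; simp
          · intro h
            simp only [Nat.cast_zero] at h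
            linarith
        | succ n ih =>
          rw [Finset.sum_range_succ]
          constructor
          · intro h
            push_cast at h
            rw [ih.1 (by linarith), indicator_of_notMem (hout n h)]
            norm_num
          · intro h
            push_cast at h
            rcases le_or_gt (n : ℝ) z with h3 | h3
            · rw [ih.1 h3, zero_add]
              push_cast
              by_cases hx : x ∈ H (-m + n / (N + 1)) (-m + (n + 1) / (N + 1))
              · rw [indicator_of_mem hx]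
                constructor <;> linarith
              · rw [indicator_of_notMem hx]
                constructor <;> linarith
            · obtain ⟨h4, h5⟩ := ih.2 h3
              rw [indicator_of_mem (hin n h3.le)]
              push_cast
              constructor <;> linarith
      rcases lt_or_eq_of_le hTz with h3 | h3
      · exact (hgen T).2 h3
      · rw [(hgen T).1 h3.ge, h3]
        constructor <;> linarith
    have huv : u N x = m - (1 / (N + 1)) * ∑ k ∈ Finset.range T,
        (H (-m + k / (N + 1)) (-m + (k + 1) / (N + 1))).indicator (fun _ => (1 : ℝ)) x := by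
      simp only [u, ← Finset.mul_sum]
      ring
    have hfx' : f x = m - (1 / (N + 1)) * (T - z) := by
      rw [hz, hT]
      push_cast
      field_simp
      ring
    rw [huv, hfx']
    set s := ∑ k ∈ Finset.range T,
        (H (-m + k / (N + 1)) (-m + (k + 1) / (N + 1))).indicator (fun _ => (1 : ℝ)) x
    rw [show (m : ℝ) - 1 / (N + 1) * s - (m - 1 / (N + 1) * (T - z)) =
      (1 / (N + 1)) * ((T - z) - s) by ring, abs_mul, abs_of_pos (by positivity)]
    have h3 : |((T : ℝ) - z) - s| ≤ 1 := by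
      rw [abs_le]
      constructor <;> linarith [hsum.1, hsum.2]
    calc 1 / ((N : ℝ) + 1) * |(T : ℝ) - z - s| ≤ 1 / (N + 1) * 1 := by gcongr
      _ = _ := by ring
  have hunif : TendstoUniformly u f atTop := by
    rw [Metric.tendstoUniformly_iff]
    intro ε hε
    obtain ⟨N0, hN0⟩ := exists_nat_one_div_lt hε
    filter_upwards [eventually_ge_atTop N0] with N hN x
    rw [Real.dist_eq, abs_sub_comm]
    refine lt_of_le_of_lt (happ N x) (lt_of_le_of_lt ?_ hN0)
    gcongr
  exact hr.p3 f u hf (fun n => (huR n).1) hunif η h1 h2 (Ordinal.iSup_le fun n => (huR n).2)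

theorem main (hr : RankOn r) {f : X → ℝ} (hf : BB f) : Eqv (r f) (alphaf f) :=
  ⟨le_alpha hr hf, alpha_le hr hf⟩

end

end Pool.Q304.RK
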