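import Mathlib

set_option autoImplicit false

namespace Pool.Agent.Q304.Short

open Set

variable {L : Type} [LinearOrder L]

/-- Every subset of a linear order without uncountable well-ordered subsets has a countable
cofinal subset. -/
theorem exists_countable_cofinal (h : ∀ S : Set L, S.WellFoundedOn (· < ·) → S.Countable)
    (U : Set L) : ∃ W : Set L, W ⊆ U ∧ W.Countable ∧ ∀ u ∈ U, ∃ w ∈ W, u ≤ w := by
  classical
  let r : U → U → Prop := WellOrderingRel
  have hr : IsWellFounded U r := ⟨(inferInstance : IsWellOrder U WellOrderingRel).toIsWellFounded.wf⟩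
  have hc := isCofinal_setOfPred_imp_lt (α := U) r
  set C : Set U := {a | ∀ b, r b a → b < a} with hC
  refine ⟨Subtype.val '' C, ?_, ?_, ?_⟩
  · rintro _ ⟨x, _, rfl⟩; exact x.2
  · apply h
    rw [Set.wellFoundedOn_image]
    -- on C, a < b implies r a b
    have hsub : ∀ a ∈ C, ∀ b ∈ C, a < b → r a b := by
      intro a ha b hb hab
      rcases (inferInstance : IsWellOrder U WellOrderingRel).toTrichotomous.trichotomous a b with h1
      by_contra hn
      have h2 : ¬ r b a := fun h3 => absurd (ha b h3) (not_lt_of_gt hab)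
      have := h1 hn h2
      exact absurd this hab.ne
    have hwf : C.WellFoundedOn r := (IsWellFounded.wf (r := r)).wellFoundedOn
    refine hwf.mono' ?_
    intro a ha b hb hab
    exact hsub a ha b hb hab
  · intro u hu
    obtain ⟨b, hb, hb'⟩ := hc ⟨u, hu⟩
    exact ⟨b.1, ⟨b, hb, rfl⟩, hb'⟩

theorem exists_countable_coinitial (h : ∀ S : Set L, S.WellFoundedOn (· > ·) → S.Countable)
    (U : Set L) : ∃ W : Set L, W ⊆ U ∧ W.Countable ∧ ∀ u ∈ U, ∃ w ∈ W, w ≤ u :=
  exists_countable_cofinal (L := Lᵒᵈ) h U

/-- The countable-interval relation. -/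
def Near (a b : L) : Prop := (Set.uIcc a b).Countable

theorem near_refl (a : L) : Near a a := by simp [Near]

theorem near_symm {a b : L} (h : Near a b) : Near b a := by
  unfold Near at *; rwa [Set.uIcc_comm]

theorem near_trans {a b c : L} (h : Near a b) (h' : Near b c) : Near a c := by
  unfold Near at *
  exact (h.union h').mono Set.uIcc_subset_uIcc_union_uIcc

theorem class_countable (h : ∀ S : Set L, S.WellFoundedOn (· < ·) → S.Countable)
    (h' : ∀ S : Set L, S.WellFoundedOn (· > ·) → S.Countable) (a : L) :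
    {b | Near a b}.Countable := by
  obtain ⟨W, hWU, hWc, hW⟩ := exists_countable_cofinal h {b | Near a b}
  obtain ⟨V, hVU, hVc, hV⟩ := exists_countable_coinitial h' {b | Near a b}
  have h1 : {b | Near a b} ⊆ (⋃ w ∈ W, Set.uIcc a w) ∪ (⋃ w ∈ V, Set.uIcc a w) := by
    intro b hb
    rcases le_total a b with hab | hab
    · obtain ⟨w, hw, hbw⟩ := hW b hb
      left
      exact Set.mem_biUnion hw (Set.mem_uIcc.2 (Or.inl ⟨hab, hbw⟩))
    · obtain ⟨w, hw, hbw⟩ := hV b hb
      right
      exact Set.mem_biUnion hw (Set.mem_uIcc.2 (Or.inr ⟨hbw, hab⟩))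
  refine Set.Countable.mono h1 (Set.Countable.union ?_ ?_)
  · exact hWc.biUnion fun w hw => hWU hw
  · exact hVc.biUnion fun w hw => hVU hw

/-- The near relation as a setoid. -/
def nearSetoid (L : Type) [LinearOrder L] : Setoid L where
  r := Near
  iseqv := ⟨near_refl, near_symm, near_trans⟩

/-- A short uncountable linear order contains a copy of the rationals all of whose intervals
are uncountable in the order. -/
theorem exists_rat (h : ∀ S : Set L, S.WellFoundedOn (· < ·) → S.Countable)
    (h' : ∀ S : Set L, S.WellFoundedOn (· > ·) → S.Countable) (hL : Uncountable L) :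
    ∃ e : ℚ → L, StrictMono e ∧ ∀ p q, p < q → ¬ (Set.Ioo (e p) (e q)).Countable := by
  classical
  let s := nearSetoid L
  let R : Set L := Set.range (fun c : Quotient s => c.out)
  have hR : ∀ a ∈ R, ∀ b ∈ R, Near a b → a = b := by
    rintro _ ⟨c, rfl⟩ _ ⟨d, rfl⟩ hab
    have : c = d := by
      rw [← Quotient.out_eq c, ← Quotient.out_eq d]
      exact Quotient.sound hab
    rw [this]
  have hrep : ∀ a : L, ∃ b ∈ R, Near a b := by
    intro a
    refine ⟨(Quotient.mk s a).out, ⟨_, rfl⟩, ?_⟩
    have : s.r (Quotient.mk s a).out a := Quotient.mk_out (s := s) a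
    exact near_symm this
  -- dense
  have hIoo : ∀ a ∈ R, ∀ b ∈ R, a < b → ¬ (Set.Ioo a b).Countable := by
    intro a ha b hb hab hc
    apply hab.ne
    apply hR a ha b hb
    unfold Near
    rw [Set.uIcc_of_le hab.le]
    have : Set.Icc a b ⊆ Set.Ioo a b ∪ {a, b} := by
      intro x hx
      rcases eq_or_lt_of_le hx.1 with h1 | h1
      · right; left; exact h1.symm
      · rcases eq_or_lt_of_le hx.2 with h2 | h2
        · right; right; exact h2
        · left; exact ⟨h1, h2⟩
    exact (hc.union ((Set.finite_singleton b).insert a).countable).mono this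
  have hdense : ∀ a ∈ R, ∀ b ∈ R, a < b → ∃ c ∈ R, a < c ∧ c < b := by
    intro a ha b hb hab
    have h1 : ∃ x ∈ Set.Ioo a b, ¬ Near a x ∧ ¬ Near b x := by
      by_contra hcon
      push Not at hcon
      apply hIoo a ha b hb hab
      refine ((class_countable h h' a).union (class_countable h h' b)).mono ?_
      intro x hx
      by_cases hx1 : Near a x
      · left; exact hx1
      · right; exact hcon x hx hx1
    obtain ⟨x, hx, hax, hbx⟩ := h1
    obtain ⟨c, hc, hxc⟩ := hrep x
    refine ⟨c, hc, ?_, ?_⟩
    · by_contra hlt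
      push Not at hlt
      apply hax
      unfold Near at hxc ⊢
      refine hxc.mono ?_
      intro y hy
      rw [Set.mem_uIcc] at hy ⊢
      rcases hy with hy | hy
      · right; exact ⟨hlt.trans hy.1, hy.2⟩
      · exact absurd (hy.1.trans hy.2) (not_le_of_gt hx.1)
    · by_contra hlt
      push Not at hlt
      apply hbx
      unfold Near at hxc ⊢
      refine hxc.mono ?_
      intro y hy
      rw [Set.mem_uIcc] at hy ⊢
      rcases hy with hy | hy
      · exact absurd (hy.1.trans hy.2) (not_le_of_gt hx.2)
      · left; exact ⟨hy.1, hy.2.trans hlt⟩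
  have : DenselyOrdered R := ⟨fun a b hab => by
    obtain ⟨c, hc, h1, h2⟩ := hdense a a.2 b b.2 hab
    exact ⟨⟨c, hc⟩, h1, h2⟩⟩
  have : Nontrivial R := by
    by_contra hn
    rw [not_nontrivial_iff_subsingleton] at hn
    have : (Set.univ : Set L).Countable := by
      obtain ⟨a⟩ := (inferInstance : Nonempty L)
      obtain ⟨b, hb, hab⟩ := hrep a
      refine (class_countable h h' b).mono ?_
      intro x _
      obtain ⟨c, hc, hxc⟩ := hrep x
      have hbc : b = c := congrArg Subtype.val (Subsingleton.elim (⟨b, hb⟩ : R) ⟨c, hc⟩)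
      rw [hbc]
      exact near_symm hxc
    exact not_countable (α := L) (Set.countable_univ_iff.1 this)
  obtain ⟨e⟩ := Order.embedding_from_countable_to_dense ℚ R
  refine ⟨fun q => (e q : L), fun p q hpq => e.strictMono hpq, ?_⟩
  intro p q hpq
  exact hIoo _ (e p).2 _ (e q).2 (e.strictMono hpq)

end Pool.Agent.Q304.Short
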